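import Mathlib.Analysis.InnerProductSpace.PiL2
import Mathlib.Analysis.Normed.Module.Connected
import Mathlib.Combinatorics.SimpleGraph.Clique

/-! # Positive configurations give complete fans -/

set_option autoImplicit false
set_option linter.unusedSectionVars false

namespace Singer
namespace Re

open Finset

variable {V : Type*} [DecidableEq V] {G : SimpleGraph V} {n p : ℕ}

/-- combinatorial part: cliques have at most `n` vertices, they are contained in cliques with `n` vertices, a
clique with `n - 1` vertices is contained in at most two of them, and in no case in only one -/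
structure Cx (G : SimpleGraph V) (n : ℕ) : Prop where
  dim : ∀ S : Finset V, G.IsClique S → S.card ≤ n
  ext : ∀ S : Finset V, G.IsClique S → ∃ R : Finset V, G.IsClique R ∧ R.card = n ∧ S ⊆ R
  ridge : ∀ S : Finset V, S.card + 1 = n → ∀ v, v ∉ S → G.IsClique (insert v S : Finset V) →
    ∃ w, w ∉ S ∧ w ≠ v ∧ G.IsClique (insert w S : Finset V) ∧
      ∀ u, u ∉ S → G.IsClique (insert u S : Finset V) → u = v ∨ u = w

/-- positive configurations -/
structure Cf (G : SimpleGraph V) (c : V → EuclideanSpace ℝ (Fin n)) (f : V → EuclideanSpace ℝ (Fin p)) : Prop where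
  eq : ∀ u v, u = v ∨ G.Adj u v → inner ℝ (f u) (f v) = inner ℝ (c u) (c v)
  lt : ∀ u v, u ≠ v → ¬ G.Adj u v → inner ℝ (c u) (c v) < inner ℝ (f u) (f v)

variable {c : V → EuclideanSpace ℝ (Fin n)} {f : V → EuclideanSpace ℝ (Fin p)}

lemma Cf.le (h : Cf G c f) (u v : V) : inner ℝ (c u) (c v) ≤ inner ℝ (f u) (f v) := by
  by_cases h1 : u = v ∨ G.Adj u v
  · exact (h.eq u v h1).ge
  · rw [not_or] at h1
    exact (h.lt u v h1.1 h1.2).le

lemma inner_sum_sum {k : ℕ} (g : V → EuclideanSpace ℝ (Fin k)) (A B : Finset V) (a b : V → ℝ) :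
    inner ℝ (∑ u ∈ A, a u • g u) (∑ v ∈ B, b v • g v) = ∑ u ∈ A, ∑ v ∈ B, a u * b v * inner ℝ (g u) (g v) := by
  rw [sum_inner]
  refine sum_congr rfl fun u _ => ?_
  rw [inner_sum]
  refine sum_congr rfl fun v _ => ?_
  rw [inner_smul_left, inner_smul_right]
  simp only [conj_trivial]
  ring

/-- on a clique the two configurations are isometric -/
lemma Cf.isom (h : Cf G c f) {A : Finset V} (hA : G.IsClique A) (a b : V → ℝ) :
    inner ℝ (∑ u ∈ A, a u • f u) (∑ v ∈ A, b v • f v) = inner ℝ (∑ u ∈ A, a u • c u) (∑ v ∈ A, b v • c v) := by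
  rw [inner_sum_sum, inner_sum_sum]
  refine sum_congr rfl fun u hu => sum_congr rfl fun v hv => ?_
  rw [h.eq u v]
  by_cases huv : u = v
  · exact Or.inl huv
  · exact Or.inr (hA (mem_coe.2 hu) (mem_coe.2 hv) huv)

lemma Cf.norm_eq (h : Cf G c f) {A : Finset V} (hA : G.IsClique A) (a : V → ℝ) :
    ‖∑ u ∈ A, a u • f u‖ = ‖∑ u ∈ A, a u • c u‖ := by
  have h1 := h.isom hA a a
  rw [real_inner_self_eq_norm_sq, real_inner_self_eq_norm_sq] at h1
  exact (sq_eq_sq₀ (norm_nonneg _) (norm_nonneg _)).1 h1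

/-- two expressions of the same vector on two cliques -/
lemma Cf.cs (h : Cf G c f) {A B : Finset V} (hA : G.IsClique A) (hB : G.IsClique B) (a b : V → ℝ)
    (hab : ∑ u ∈ A, a u • c u = ∑ v ∈ B, b v • c v) :
    ∑ u ∈ A, ∑ v ∈ B, a u * b v * (inner ℝ (f u) (f v) - inner ℝ (c u) (c v)) ≤ 0 := by
  have h1 : ∑ u ∈ A, ∑ v ∈ B, a u * b v * (inner ℝ (f u) (f v) - inner ℝ (c u) (c v)) =
      inner ℝ (∑ u ∈ A, a u • f u) (∑ v ∈ B, b v • f v) - inner ℝ (∑ u ∈ A, a u • c u) (∑ v ∈ B, b v • c v) := by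
    rw [inner_sum_sum, inner_sum_sum, ← sum_sub_distrib]
    refine sum_congr rfl fun u _ => ?_
    rw [← sum_sub_distrib]
    exact sum_congr rfl fun v _ => by ring
  rw [h1]
  have h2 := real_inner_le_norm (∑ u ∈ A, a u • f u) (∑ v ∈ B, b v • f v)
  rw [h.norm_eq hA, h.norm_eq hB, ← hab] at h2
  rw [← hab, real_inner_self_eq_norm_sq]
  nlinarith [h2]

/-- the facets are linearly independent -/
theorem Cf.indep (hG : Cx G n) (h : Cf G c f) {R : Finset V} (hR : G.IsClique R) (hc : R.card = n) (a : V → ℝ)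
    (h0 : ∑ v ∈ R, a v • c v = 0) : ∀ v ∈ R, a v = 0 := by
  intro v hv
  have h1 : ∑ u ∈ R, a u • f u = 0 := by
    rw [← norm_eq_zero, h.norm_eq hR, h0, norm_zero]
  have hvS : v ∉ R.erase v := notMem_erase v R
  have hins : insert v (R.erase v) = R := insert_erase hv
  obtain ⟨w, hw, hwv, hwc, hu⟩ := hG.ridge (R.erase v) (by rw [card_erase_add_one hv, hc]) v hvS (by rw [hins]; exact hR)
  have h2 : ∑ u ∈ R, a u * (inner ℝ (f u) (f w) - inner ℝ (c u) (c w)) = 0 := by
    have h3 : inner ℝ (∑ u ∈ R, a u • f u) (f w) = 0 := by rw [h1, inner_zero_left]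
    have h4 : inner ℝ (∑ u ∈ R, a u • c u) (c w) = 0 := by rw [h0, inner_zero_left]
    rw [sum_inner] at h3 h4
    have h5 : ∑ u ∈ R, a u * (inner ℝ (f u) (f w) - inner ℝ (c u) (c w)) =
        ∑ u ∈ R, inner ℝ (a u • f u) (f w) - ∑ u ∈ R, inner ℝ (a u • c u) (c w) := by
      rw [← sum_sub_distrib]
      refine sum_congr rfl fun u _ => ?_
      rw [inner_smul_left, inner_smul_left]
      simp only [conj_trivial]
      ring
    rw [h5, h3, h4, sub_zero]
  rw [← add_sum_erase R _ hv, sum_eq_zero (s := R.erase v), add_zero] at h2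
  · rcases mul_eq_zero.1 h2 with h3 | h3
    · exact h3
    · exfalso
      have h4 : ¬ G.Adj v w := by
        intro hadj
        have h5 : G.IsClique (insert w R : Finset V) := by
          rw [coe_insert]
          refine hR.insert fun u hu' _ => ?_
          by_cases huv : u = v
          · rw [huv]; exact hadj.symm
          · refine hwc (by simp) (mem_coe.2 (mem_insert_of_mem (mem_erase.2 ⟨huv, mem_coe.1 hu'⟩))) ?_
            rintro rfl
            exact hw (mem_erase.2 ⟨huv, mem_coe.1 hu'⟩)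
        have h6 := hG.dim _ h5
        rw [card_insert_of_notMem, hc] at h6
        · omega
        · intro hwR
          exact hw (mem_erase.2 ⟨hwv, hwR⟩)
      have := h.lt v w hwv.symm h4
      linarith
  · intro u hu'
    rw [h.eq u w, sub_self, mul_zero]
    refine Or.inr (hwc (mem_coe.2 (mem_insert_of_mem hu')) (by simp) ?_)
    rintro rfl
    exact hw hu'

/-- coordinates of the facets -/
theorem exists_coord (hG : Cx G n) (h : Cf G c f) {R : Finset V} (hR : G.IsClique R) (hc : R.card = n) :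
    ∃ ξ : V → EuclideanSpace ℝ (Fin n) →ₗ[ℝ] ℝ, (∀ y, ∑ v ∈ R, ξ v y • c v = y) ∧
      ∀ (a : V → ℝ), ∀ v ∈ R, ξ v (∑ w ∈ R, a w • c w) = a v := by
  have hli : LinearIndependent ℝ (fun v : R => c v) := by
    rw [Fintype.linearIndependent_iff]
    intro g hg i
    have h1 : ∑ v ∈ R, (if hv : v ∈ R then g ⟨v, hv⟩ else 0) • c v = 0 := by
      rw [← sum_coe_sort R]
      rw [← hg]
      refine sum_congr rfl fun v _ => ?_
      rw [dif_pos v.2]
    have h2 := h.indep hG hR hc _ h1 i.1 i.2
    rwa [dif_pos i.2] at h2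
  by_cases hne : R.Nonempty
  · have : Nonempty R := hne.to_subtype
    let b := basisOfLinearIndependentOfCardEqFinrank hli (by rw [Fintype.card_coe, hc]; simp)
    have hb : ∀ v : R, b v = c v := fun v => by
      simp [b]
    refine ⟨fun v => if hv : v ∈ R then b.coord ⟨v, hv⟩ else 0, fun y => ?_, fun a v hv => ?_⟩
    · have h1 := b.sum_repr y
      rw [← sum_coe_sort R]
      conv_rhs => rw [← h1]
      refine sum_congr rfl fun v _ => ?_
      simp only [dif_pos v.2, hb]
      rfl
    · simp only [dif_pos hv]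
      rw [← sum_coe_sort R (fun w => a w • c w), map_sum, sum_eq_single ⟨v, hv⟩]
      · rw [map_smul, ← hb, Module.Basis.coord_apply, b.repr_self, Finsupp.single_eq_same]
        simp
      · intro w _ hw
        rw [map_smul, ← hb, Module.Basis.coord_apply, b.repr_self, Finsupp.single_eq_of_ne hw.symm]
        simp
      · intro h1
        exact absurd (mem_univ _) h1
  · rw [not_nonempty_iff_eq_empty] at hne
    subst hne
    have hn : n = 0 := by rw [← hc, card_empty]
    subst hn
    refine ⟨fun _ => 0, fun y => ?_, fun a v hv => absurd hv (notMem_empty v)⟩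
    exact Subsingleton.elim _ _

/-- the sign at a ridge -/
theorem Cf.ridge_sign (hG : Cx G n) (h : Cf G c f) {S : Finset V} (hS : S.card + 1 = n) {v w : V} (hv : v ∉ S)
    (hw : w ∉ S) (hvw : v ≠ w) (hvc : G.IsClique (insert v S : Finset V)) (hwc : G.IsClique (insert w S : Finset V)) :
    ∃ (b : V → ℝ) (β : ℝ), β < 0 ∧ c v = β • c w + ∑ u ∈ S, b u • c u := by
  have hcard : (insert w S).card = n := by rw [card_insert_of_notMem hw, hS]
  obtain ⟨ξ, h1, h2⟩ := exists_coord hG h hwc hcard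
  have h3 := h1 (c v)
  have hvcard : (insert v S).card = n := by rw [card_insert_of_notMem hv, hS]
  have hadj : ¬ G.Adj v w := by
    intro hadj
    have h5 : G.IsClique (insert w (insert v S) : Finset V) := by
      rw [coe_insert]
      refine hvc.insert fun u hu' _ => ?_
      rcases mem_insert.1 (mem_coe.1 hu') with rfl | hu
      · exact hadj.symm
      · refine hwc (by simp) (mem_coe.2 (mem_insert_of_mem hu)) ?_
        rintro rfl
        exact hw hu
    have h6 := hG.dim _ h5
    rw [card_insert_of_notMem, hvcard] at h6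
    · omega
    · intro h7
      rcases mem_insert.1 h7 with h8 | h8
      · exact hvw h8.symm
      · exact hw h8
  refine ⟨fun u => ξ u (c v), ξ w (c v), ?_, ?_⟩
  · have h4 : ∑ u ∈ insert v S, (if u = v then (1 : ℝ) else 0) • c u = ∑ u ∈ insert w S, ξ u (c v) • c u := by
      rw [h3, sum_insert hv, if_pos rfl, one_smul, sum_eq_zero, add_zero]
      intro u hu
      rw [if_neg, zero_smul]
      rintro rfl
      exact hv hu
    have h5 := h.cs hvc hwc _ _ h4
    rw [sum_insert hv] at h5
    rw [sum_eq_zero (s := S)] at h5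
    · rw [add_zero, sum_insert hw, if_pos rfl, sum_eq_zero (s := S), add_zero, one_mul] at h5
      · have h6 := h.lt v w hvw hadj
        have h7 : ξ w (c v) ≤ 0 := by
          by_contra h8
          rw [not_le] at h8
          have := mul_pos h8 (sub_pos.2 h6)
          linarith
        refine lt_of_le_of_ne h7 fun h8 => ?_
        rw [sum_insert hw, h8, zero_smul, zero_add] at h3
        have h9 : ∑ u ∈ insert v S, (if u = v then (1 : ℝ) else -ξ u (c v)) • c u = 0 := by
          rw [sum_insert hv, if_pos rfl, one_smul]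
          conv_lhs => rw [← h3]
          rw [← sum_add_distrib]
          refine sum_eq_zero fun u hu => ?_
          have huv : u ≠ v := by
            rintro rfl
            exact hv hu
          rw [if_neg huv, h3]
          simp
        have h10 := h.indep hG hvc hvcard _ h9 v (mem_insert_self v S)
        rw [if_pos rfl] at h10
        exact one_ne_zero h10
      · intro u hu
        rw [h.eq v u, sub_self, mul_zero]
        refine Or.inr (hvc (by simp) (mem_coe.2 (mem_insert_of_mem hu)) ?_)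
        rintro rfl
        exact hv hu
    · intro u hu
      refine sum_eq_zero fun u' _ => ?_
      rw [if_neg, zero_mul, zero_mul]
      rintro rfl
      exact hv hu
  · rw [sum_insert hw] at h3
    exact h3.symm

/-- uniqueness in the complete fan -/
theorem Cf.fan_unique (hG : Cx G n) (h : Cf G c f) {T R R' : Finset V} (hR : G.IsClique R) (hRc : R.card = n)
    (hR' : G.IsClique R') (hRc' : R'.card = n) (hT : T ⊆ R) (hT' : T ⊆ R') (a b : V → ℝ)
    (hab : ∑ u ∈ R, a u • c u = ∑ v ∈ R', b v • c v) (ha : ∀ v ∈ R, v ∉ T → 0 < a v) (hb : ∀ v ∈ R', v ∉ T → 0 < b v) :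
    R = R' := by
  have h1 := h.cs hR hR' a b hab
  have h2 : ∀ u ∈ R, ∀ v ∈ R', 0 ≤ a u * b v * (inner ℝ (f u) (f v) - inner ℝ (c u) (c v)) := by
    intro u hu v hv
    by_cases hu' : u ∈ T
    · rw [h.eq u v, sub_self, mul_zero]
      by_cases huv : u = v
      · exact Or.inl huv
      · exact Or.inr (hR' (mem_coe.2 (hT' hu')) (mem_coe.2 hv) huv)
    by_cases hv' : v ∈ T
    · rw [h.eq u v, sub_self, mul_zero]
      by_cases huv : u = v
      · exact Or.inl huv
      · exact Or.inr (hR (mem_coe.2 hu) (mem_coe.2 (hT hv')) huv)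
    exact mul_nonneg (mul_nonneg (ha u hu hu').le (hb v hv hv').le) (sub_nonneg.2 (h.le u v))
  have h3 : ∀ u ∈ R, ∀ v ∈ R', a u * b v * (inner ℝ (f u) (f v) - inner ℝ (c u) (c v)) = 0 := by
    have h4 : ∀ u ∈ R, 0 ≤ ∑ v ∈ R', a u * b v * (inner ℝ (f u) (f v) - inner ℝ (c u) (c v)) :=
      fun u hu => sum_nonneg fun v hv => h2 u hu v hv
    have h5 := le_antisymm h1 (sum_nonneg h4)
    intro u hu v hv
    have h6 := (sum_eq_zero_iff_of_nonneg h4).1 h5 u hu
    exact (sum_eq_zero_iff_of_nonneg fun v hv => h2 u hu v hv).1 h6 v hv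
  have h4 : G.IsClique (R ∪ R' : Finset V) := by
    have h5 : ∀ u ∈ R, ∀ v ∈ R', u ≠ v → G.Adj u v := by
      intro u hu v hv huv
      by_cases hu' : u ∈ T
      · exact hR' (mem_coe.2 (hT' hu')) (mem_coe.2 hv) huv
      by_cases hv' : v ∈ T
      · exact hR (mem_coe.2 hu) (mem_coe.2 (hT hv')) huv
      by_contra hadj
      have h6 := h3 u hu v hv
      have h7 := mul_pos (mul_pos (ha u hu hu') (hb v hv hv')) (sub_pos.2 (h.lt u v huv hadj))
      linarith
    intro u hu v hv huv
    rcases mem_union.1 (mem_coe.1 hu) with h6 | h6 <;> rcases mem_union.1 (mem_coe.1 hv) with h7 | h7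
    · exact hR (mem_coe.2 h6) (mem_coe.2 h7) huv
    · exact h5 u h6 v h7 huv
    · exact (h5 v h7 u h6 huv.symm).symm
    · exact hR' (mem_coe.2 h6) (mem_coe.2 h7) huv
  have h5 := hG.dim _ h4
  have h6 : R = R ∪ R' := eq_of_subset_of_card_le subset_union_left (by rw [hRc]; exact h5)
  have h7 : R' = R ∪ R' := eq_of_subset_of_card_le subset_union_right (by rw [hRc']; exact h5)
  rw [h6, ← h7]

/-- the union of the cones at the clique `T`, all directions of the span of `T` added -/
def PF (G : SimpleGraph V) (n : ℕ) (ξ : Finset V → V → EuclideanSpace ℝ (Fin n) →ₗ[ℝ] ℝ) (T : Finset V)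
    (y : EuclideanSpace ℝ (Fin n)) : Prop :=
  ∃ R : Finset V, G.IsClique R ∧ R.card = n ∧ T ⊆ R ∧ ∀ v ∈ R, v ∉ T → 0 ≤ ξ R v y

theorem Cf.pf_all [Fintype V] (hG : Cx G n) (h : Cf G c f) (ξ : Finset V → V → EuclideanSpace ℝ (Fin n) →ₗ[ℝ] ℝ)
    (h1 : ∀ R : Finset V, G.IsClique R → R.card = n → ∀ y, ∑ v ∈ R, ξ R v y • c v = y)
    (h2 : ∀ R : Finset V, G.IsClique R → R.card = n → ∀ a : V → ℝ, ∀ v ∈ R, ξ R v (∑ w ∈ R, a w • c w) = a v) :
    ∀ (k : ℕ) (T : Finset V), G.IsClique T → T.card + k = n → ∀ y, PF G n ξ T y := by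
  intro k
  induction k using Nat.strong_induction_on with
  | _ k ih =>
  intro T hT hk y
  obtain ⟨R, hR, hRc, hTR⟩ := hG.ext T hT
  have hzero : ∀ (S : Finset V), G.IsClique S → ∀ R : Finset V, G.IsClique R → R.card = n → S ⊆ R → ∀ a : V → ℝ,
      (∀ v ∈ S, ξ R v (∑ w ∈ S, a w • c w) = a v) ∧ ∀ v ∈ R, v ∉ S → ξ R v (∑ w ∈ S, a w • c w) = 0 := by
    intro S _ R hR hRc hSR a
    have h3 : ∑ w ∈ S, a w • c w = ∑ w ∈ R, (if w ∈ S then a w else 0) • c w := by
      rw [← sum_filter_add_sum_filter_not R (fun w => w ∈ S) fun w => (if w ∈ S then a w else 0) • c w,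
        sum_eq_zero (s := R.filter fun w => w ∉ S), add_zero, filter_mem_eq_inter, inter_eq_right.2 hSR]
      · exact sum_congr rfl fun w hw => by rw [if_pos hw]
      · intro w hw
        rw [if_neg (mem_filter.1 hw).2, zero_smul]
    constructor
    · intro v hv
      rw [h3, h2 R hR hRc _ v (hSR hv), if_pos hv]
    · intro v hv hvS
      rw [h3, h2 R hR hRc _ v hv, if_neg hvS]
  rcases Nat.eq_zero_or_pos k with hk0 | hk0
  · subst hk0
    exact ⟨T, hT, by omega, Subset.refl _, fun v hv hv' => absurd hv hv'⟩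
  rcases Nat.lt_or_ge 1 k with hk1 | hk1
  swap
  · obtain rfl : k = 1 := by omega
    obtain ⟨v, hv⟩ : ∃ v, insert v T = R := by
      have h3 : (R \ T).card = 1 := by
        rw [card_sdiff_of_subset hTR]
        omega
      obtain ⟨v, hv⟩ := card_eq_one.1 h3
      refine ⟨v, ?_⟩
      rw [insert_eq, ← hv, sdiff_union_of_subset hTR]
    subst hv
    have hvT : v ∉ T := by
      intro h3
      rw [insert_eq_of_mem h3] at hRc
      omega
    by_cases h3 : 0 ≤ ξ (insert v T) v y
    · refine ⟨insert v T, hR, hRc, hTR, fun u hu hu' => ?_⟩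
      rcases mem_insert.1 hu with rfl | h4
      · exact h3
      · exact absurd h4 hu'
    · obtain ⟨w, hw, hwv, hwc, _⟩ := hG.ridge T hk v hvT hR
      have hcardw : (insert w T).card = n := by rw [card_insert_of_notMem hw, hk]
      obtain ⟨b, β, hβ, hb⟩ := h.ridge_sign hG hk hvT hw hwv.symm hR hwc
      refine ⟨insert w T, hwc, hcardw, subset_insert _ _, fun u hu hu' => ?_⟩
      rcases mem_insert.1 hu with rfl | h4
      · have h5 := h1 _ hR hRc y
        rw [sum_insert hvT, hb] at h5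
        have h6 : ∑ w ∈ insert u T, (if w = u then ξ (insert v T) v y * β else ξ (insert v T) w y +
            ξ (insert v T) v y * b w) • c w = y := by
          rw [sum_insert hw, if_pos rfl]
          conv_rhs => rw [← h5]
          rw [smul_add, mul_smul, add_assoc]
          congr 1
          rw [smul_sum, ← sum_add_distrib]
          refine sum_congr rfl fun w hwT => ?_
          rw [if_neg, add_smul, mul_smul, add_comm]
          rintro rfl
          exact hw hwT
        rw [← h6, h2 _ hwc hcardw _ u hu, if_pos rfl]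
        exact (mul_pos_of_neg_of_neg (not_le.1 h3) hβ).le
      · exact absurd h4 hu'
  -- the main case: codimension at least two
  let E : Submodule ℝ (EuclideanSpace ℝ (Fin n)) := Submodule.span ℝ (T.image c : Set (EuclideanSpace ℝ (Fin n)))
  have hE : Module.finrank ℝ E ≤ T.card := (finrank_span_finset_le_card (R := ℝ) (T.image c)).trans card_image_le
  have hcod : 1 < Module.rank ℝ (EuclideanSpace ℝ (Fin n) ⧸ E) := by
    rw [← Module.finrank_eq_rank]
    have h3 := Submodule.finrank_quotient_add_finrank E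
    rw [finrank_euclideanSpace_fin] at h3
    exact_mod_cast (by omega : 1 < Module.finrank ℝ (EuclideanSpace ℝ (Fin n) ⧸ E))
  have hmemE : ∀ a : V → ℝ, ∑ v ∈ T, a v • c v ∈ E := fun a =>
    Submodule.sum_mem _ fun v hv => Submodule.smul_mem _ _ (Submodule.subset_span (mem_coe.2 (mem_image_of_mem c hv)))
  have hE2 : ∀ y ∈ E, ∃ a : V → ℝ, ∑ v ∈ T, a v • c v = y := by
    intro y hy
    refine Submodule.span_induction (p := fun y _ => ∃ a : V → ℝ, ∑ v ∈ T, a v • c v = y) ?_ ?_ ?_ ?_ hy
    · intro z hz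
      obtain ⟨v, hv, rfl⟩ := mem_image.1 (mem_coe.1 hz)
      refine ⟨fun u => if u = v then 1 else 0, ?_⟩
      rw [sum_eq_single v]
      · simp only [if_true, one_smul]
      · intro u _ hu
        simp only [if_neg hu, zero_smul]
      · intro h3
        exact absurd hv h3
    · exact ⟨fun _ => 0, by simp⟩
    · rintro z z' _ _ ⟨a, rfl⟩ ⟨a', rfl⟩
      refine ⟨fun v => a v + a' v, ?_⟩
      rw [← sum_add_distrib]
      exact sum_congr rfl fun v _ => add_smul _ _ _
    · rintro t z _ ⟨a, rfl⟩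
      refine ⟨fun v => t * a v, ?_⟩
      rw [smul_sum]
      exact sum_congr rfl fun v _ => mul_smul _ _ _
  by_cases hy : y ∈ E
  · obtain ⟨a, rfl⟩ := hE2 y hy
    exact ⟨R, hR, hRc, hTR, fun v hv hvT => ((hzero T hT R hR hRc hTR a).2 v hv hvT).ge⟩
  have hcl : IsClosed {y | PF G n ξ T y} := by
    have h3 : {y | PF G n ξ T y} = ⋃ R ∈ {R : Finset V | G.IsClique R ∧ R.card = n ∧ T ⊆ R},
        ⋂ v ∈ {v | v ∈ R ∧ v ∉ T}, {y | 0 ≤ ξ R v y} := by
      ext y
      simp only [PF, Set.mem_ofPred_eq, Set.mem_iUnion, Set.mem_iInter, exists_prop, and_assoc, and_imp]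
    rw [h3]
    refine Set.Finite.isClosed_biUnion (Set.toFinite _) fun R _ => isClosed_biInter fun v _ => ?_
    exact isClosed_le continuous_const (LinearMap.continuous_of_finiteDimensional _)
  have hop : IsOpen ({y | PF G n ξ T y} ∩ (E : Set (EuclideanSpace ℝ (Fin n)))ᶜ) := by
    rw [isOpen_iff_mem_nhds]
    rintro q ⟨⟨R, hR, hRc, hTR, hq⟩, hqE⟩
    have hEo : (E : Set (EuclideanSpace ℝ (Fin n)))ᶜ ∈ nhds q :=
      (Submodule.closed_of_finiteDimensional E).isOpen_compl.mem_nhds hqE
    refine Filter.inter_mem ?_ hEo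
    let S : Finset V := R.filter fun v => v ∈ T ∨ ξ R v q ≠ 0
    have hSR : S ⊆ R := filter_subset _ _
    have hTS : T ⊆ S := fun v hv => mem_filter.2 ⟨hTR hv, Or.inl hv⟩
    have hSc : G.IsClique (S : Finset V) := fun u hu v hv huv => hR (mem_coe.2 (hSR (mem_coe.1 hu)))
      (mem_coe.2 (hSR (mem_coe.1 hv))) huv
    have hqS : ∑ v ∈ S, ξ R v q • c v = q := by
      conv_rhs => rw [← h1 R hR hRc q]
      refine sum_subset hSR fun v hv hvS => ?_
      have : ξ R v q = 0 := by
        by_contra h3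
        exact hvS (mem_filter.2 ⟨hv, Or.inr h3⟩)
      rw [this, zero_smul]
    have hlt : T.card < S.card := by
      refine card_lt_card (ssubset_of_subset_of_ne hTS fun h3 => hqE ?_)
      rw [← hqS, ← h3]
      exact hmemE _
    have hSn := hG.dim S hSc
    have h3 : ∀ q', PF G n ξ S q' := ih (n - S.card) (by omega) S hSc (by omega)
    have h4 : ∀ᶠ q' in nhds q, ∀ R' ∈ {R' : Finset V | G.IsClique R' ∧ R'.card = n ∧ S ⊆ R'},
        ∀ v ∈ {v | v ∈ S ∧ v ∉ T}, 0 < ξ R' v q' := by
      rw [Filter.eventually_all_finite (Set.toFinite _)]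
      rintro R' ⟨hR', hRc', hSR'⟩
      rw [Filter.eventually_all_finite (Set.toFinite _)]
      rintro v ⟨hvS, hvT⟩
      have h5 : 0 < ξ R' v q := by
        rw [← hqS, (hzero S hSc R' hR' hRc' hSR' _).1 v hvS]
        refine lt_of_le_of_ne (hq v (hSR hvS) hvT) fun h6 => ?_
        rcases (mem_filter.1 hvS).2 with h7 | h7
        · exact hvT h7
        · exact h7 h6.symm
      exact (isOpen_lt continuous_const (LinearMap.continuous_of_finiteDimensional (ξ R' v))).mem_nhds h5
    filter_upwards [h4] with q' hq'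
    obtain ⟨R', hR', hRc', hSR', h5⟩ := h3 q'
    refine ⟨R', hR', hRc', hTS.trans hSR', fun v hv hvT => ?_⟩
    by_cases hvS : v ∈ S
    · exact (hq' R' ⟨hR', hRc', hSR'⟩ v ⟨hvS, hvT⟩).le
    · exact h5 v hv hvS
  have hne : ((E : Set (EuclideanSpace ℝ (Fin n)))ᶜ ∩ ({y | PF G n ξ T y} ∩ (E : Set (EuclideanSpace ℝ (Fin n)))ᶜ)).Nonempty := by
    obtain ⟨v, hv⟩ : (R \ T).Nonempty := by
      rw [← card_pos, card_sdiff_of_subset hTR]
      omega
    have hvR := (mem_sdiff.1 hv).1
    have hvT := (mem_sdiff.1 hv).2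
    have h3 : c v ∉ E := by
      intro h3
      obtain ⟨a, ha⟩ := hE2 _ h3
      have h4 := (hzero T hT R hR hRc hTR a).2 v hvR hvT
      have h5 := (hzero {v} (by simp) R hR hRc (by simpa using hvR) (fun _ => 1)).1 v (by simp)
      rw [sum_singleton, one_smul] at h5
      rw [ha, h5] at h4
      exact one_ne_zero h4
    refine ⟨c v, h3, ⟨R, hR, hRc, hTR, fun u hu _ => ?_⟩, h3⟩
    have h4 := hzero {v} (by simp) R hR hRc (by simpa using hvR) (fun _ => 1)
    rw [sum_singleton, one_smul] at h4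
    by_cases huv : u = v
    · subst huv
      rw [h4.1 u (by simp)]
      exact zero_le_one
    · rw [h4.2 u hu (by simpa using huv)]
  have hsub : (E : Set (EuclideanSpace ℝ (Fin n)))ᶜ ⊆ {y | PF G n ξ T y} ∩ (E : Set (EuclideanSpace ℝ (Fin n)))ᶜ := by
    refine (isConnected_compl_of_one_lt_codim hcod).isPreconnected.subset_left_of_subset_union hop
      hcl.isOpen_compl ?_ ?_ hne
    · exact Set.disjoint_left.2 fun z hz hz' => hz' hz.1
    · intro z hz
      by_cases h3 : PF G n ξ T z
      · exact Or.inl ⟨h3, hz⟩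
      · exact Or.inr h3
  exact (hsub hy).1

/-- existence in the complete fan -/
theorem Cf.fan_exists [Fintype V] (hG : Cx G n) (h : Cf G c f) {T : Finset V} (hT : G.IsClique T)
    (y : EuclideanSpace ℝ (Fin n)) : ∃ R : Finset V, G.IsClique R ∧ R.card = n ∧ T ⊆ R ∧ ∃ a : V → ℝ,
      ∑ v ∈ R, a v • c v = y ∧ ∀ v ∈ R, v ∉ T → 0 ≤ a v := by
  classical
  have h1 : ∀ R : Finset V, ∃ ξ : V → EuclideanSpace ℝ (Fin n) →ₗ[ℝ] ℝ, G.IsClique R → R.card = n →
      (∀ y, ∑ v ∈ R, ξ v y • c v = y) ∧ ∀ (a : V → ℝ), ∀ v ∈ R, ξ v (∑ w ∈ R, a w • c w) = a v := by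
    intro R
    by_cases h2 : G.IsClique R ∧ R.card = n
    · obtain ⟨ξ, hξ⟩ := exists_coord hG h h2.1 h2.2
      exact ⟨ξ, fun _ _ => hξ⟩
    · exact ⟨fun _ => 0, fun h3 h4 => absurd ⟨h3, h4⟩ h2⟩
  choose ξ hξ using h1
  obtain ⟨R, hR, hRc, hTR, h2⟩ := h.pf_all hG ξ (fun R hR hc => (hξ R hR hc).1) (fun R hR hc => (hξ R hR hc).2)
    (n - T.card) T hT (by have := hG.dim T hT; omega) y
  exact ⟨R, hR, hRc, hTR, fun v => ξ R v y, (hξ R hR hRc).1 y, h2⟩

end Re
end Singer
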