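import Pool.Agent.Singer.Real.CxOf
import Pool.Agent.Helper34.Car.Mixed

/-! # The sphere condition for chains on the links, from the sphere condition for cochains -/

set_option autoImplicit false
set_option linter.unusedSectionVars false

namespace Singer
namespace Re

open Finset Singer.Ord.Rk Pool.Agent.Helper34.Car Pool.Agent.Helper34.Ch

section dual
variable {V : Type*} [Fintype V] [DecidableEq V] {r : V → ℕ}

lemma sum_bd_mul (z c : Finset V → ℝ) : ∑ T, bd r z T * c T = ∑ S, z S * dl r c S := by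
  have h1 : ∀ T, bd r z T * c T = ∑ v ∈ Tᶜ, (sgz r v T • z (insert v T)) * c T := fun T => by
    rw [bd_apply, sum_mul]
  have h2 : ∀ S, z S * dl r c S = ∑ v ∈ S, z S * (sgz r v (S.erase v) • c (S.erase v)) := fun S => by
    rw [dl, mul_sum]
  rw [sum_congr rfl fun T _ => h1 T, sum_congr rfl fun S _ => h2 S, sum_sigma', sum_sigma']
  refine sum_nbij' (fun x => ⟨insert x.2 x.1, x.2⟩) (fun x => ⟨x.1.erase x.2, x.2⟩) ?_ ?_ ?_ ?_ ?_
  · rintro ⟨T, v⟩ hx
    simp
  · rintro ⟨S, v⟩ hx
    simp
  · rintro ⟨T, v⟩ hx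
    rw [mem_sigma, mem_compl] at hx
    simp only [Sigma.mk.injEq, heq_eq_eq, and_true]
    exact erase_insert hx.2
  · rintro ⟨S, v⟩ hx
    rw [mem_sigma] at hx
    simp only [Sigma.mk.injEq, heq_eq_eq, and_true]
    exact insert_erase hx.2
  · rintro ⟨T, v⟩ hx
    rw [mem_sigma, mem_compl] at hx
    simp only
    rw [erase_insert hx.2]
    simp only [zsmul_eq_mul]
    ring

/-- acyclic families: exactness for chains -/
theorem chain_exact {D : Set (Finset V)} (hD : ∀ S ∈ D, ∀ T ⊆ S, T ∈ D) (h : Acy ℝ r D) (z : Finset V → ℝ)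
    (hz : ∀ S, S ∉ D → z S = 0) (hb : bd r z = 0) : ∃ y : Finset V → ℝ, (∀ S, S ∉ D → y S = 0) ∧ bd r y = z := by
  classical
  let d : (Finset V → ℝ) →ₗ[ℝ] (Finset V → ℝ) :=
    { toFun := fun c => rst D (dl r (rst D c))
      map_add' := fun c c' => by
        funext S
        by_cases hS : S ∈ D
        · rw [Pi.add_apply, rst_mem hS, rst_mem hS, rst_mem hS, ← dl_add]
          refine dl_congr fun T _ _ => ?_
          by_cases hT : T ∈ D
          · rw [rst_mem hT, rst_mem hT, rst_mem hT, Pi.add_apply]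
          · rw [rst_not hT, rst_not hT, rst_not hT, add_zero]
        · rw [Pi.add_apply, rst_not hS, rst_not hS, rst_not hS, add_zero]
      map_smul' := fun t c => by
        funext S
        by_cases hS : S ∈ D
        · rw [Pi.smul_apply, rst_mem hS, rst_mem hS, RingHom.id_apply, smul_eq_mul, dl, dl, mul_sum]
          refine sum_congr rfl fun v _ => ?_
          by_cases hT : S.erase v ∈ D
          · rw [rst_mem hT, rst_mem hT, Pi.smul_apply, smul_eq_mul, zsmul_eq_mul, zsmul_eq_mul]
            ring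
          · rw [rst_not hT, rst_not hT, smul_zero, mul_zero]
        · rw [Pi.smul_apply, rst_not hS, rst_not hS, smul_zero] }
  have hd : ∀ c, d c = rst D (dl r (rst D c)) := fun c => rfl
  let φ : Module.Dual ℝ (Finset V → ℝ) :=
    { toFun := fun c => ∑ S, z S * c S
      map_add' := fun c c' => by
        rw [← sum_add_distrib]
        exact sum_congr rfl fun S _ => by rw [Pi.add_apply, mul_add]
      map_smul' := fun t c => by
        rw [RingHom.id_apply, smul_eq_mul, mul_sum]
        exact sum_congr rfl fun S _ => by rw [Pi.smul_apply, smul_eq_mul]; ring }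
  have hφ : φ ∈ (LinearMap.ker d).dualAnnihilator := by
    rw [Submodule.mem_dualAnnihilator]
    intro c hc
    rw [LinearMap.mem_ker, hd] at hc
    obtain ⟨e, he, hde⟩ := h (rst D c) (fun S hS => rst_not hS) fun T hT => by
      have := congrFun hc T
      rwa [rst_mem hT] at this
    change ∑ S, z S * c S = 0
    have h1 : ∑ S, z S * c S = ∑ S, z S * dl r e S := by
      refine sum_congr rfl fun S _ => ?_
      by_cases hS : S ∈ D
      · rw [hde S hS, rst_mem hS]
      · rw [hz S hS, zero_mul, zero_mul]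
    rw [h1, ← sum_bd_mul, hb]
    simp
  rw [← LinearMap.range_dualMap_eq_dualAnnihilator_ker] at hφ
  obtain ⟨ψ, hψ⟩ := hφ
  have h1 : ∀ c : Finset V → ℝ, ψ c = ∑ S, ψ (Pi.single S 1) * c S := by
    intro c
    conv_lhs => rw [pi_eq_sum_univ' c]
    rw [map_sum]
    refine sum_congr rfl fun S _ => ?_
    rw [map_smul, smul_eq_mul, mul_comm]
  let y : Finset V → ℝ := rst D fun S => ψ (Pi.single S 1)
  have hy : ∀ S, S ∉ D → y S = 0 := fun S hS => rst_not hS
  refine ⟨y, hy, ?_⟩
  funext T
  by_cases hT : T ∈ D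
  · have h2 : ∑ S, z S * (Pi.single T (1 : ℝ) : Finset V → ℝ) S = ψ (d (Pi.single T 1)) := by
      have := congrArg (fun χ : Module.Dual ℝ (Finset V → ℝ) => χ (Pi.single T 1)) hψ
      exact this.symm
    rw [h1, hd] at h2
    have h3 : ∑ S, ψ (Pi.single S 1) * rst D (dl r (rst D (Pi.single T (1 : ℝ)))) S =
        ∑ S, y S * dl r (rst D (Pi.single T (1 : ℝ))) S := by
      refine sum_congr rfl fun S _ => ?_
      by_cases hS : S ∈ D
      · rw [rst_mem hS]
        congr 1
        exact (rst_mem (c := fun S => ψ (Pi.single S 1)) hS).symm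
      · rw [rst_not hS, hy S hS, mul_zero, zero_mul]
    rw [h3, ← sum_bd_mul] at h2
    rw [sum_eq_single T, sum_eq_single T] at h2
    · rw [rst_mem hT, Pi.single_eq_same, mul_one, mul_one] at h2
      exact h2.symm
    · intro S _ hS
      by_cases hS' : S ∈ D
      · rw [rst_mem hS', Pi.single_eq_of_ne hS, mul_zero]
      · rw [rst_not hS', mul_zero]
    · intro h4
      exact absurd (mem_univ _) h4
    · intro S _ hS
      rw [Pi.single_eq_of_ne hS, mul_zero]
    · intro h4
      exact absurd (mem_univ _) h4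
  · rw [hz T hT, bd_apply]
    refine sum_eq_zero fun v _ => ?_
    rw [hy, smul_zero]
    intro h2
    exact hT (hD _ h2 _ (subset_insert v T))

/-- graded version -/
theorem chain_exact_graded {D : Set (Finset V)} (hD : ∀ S ∈ D, ∀ T ⊆ S, T ∈ D) (h : Acy ℝ r D) (i : ℕ)
    (z : Finset V → ℝ) (hz : ∀ S, z S ≠ 0 → S ∈ D ∧ S.card = i) (hb : bd r z = 0) :
    ∃ y : Finset V → ℝ, (∀ S, y S ≠ 0 → S ∈ D ∧ S.card = i + 1) ∧ bd r y = z := by
  classical
  obtain ⟨y, hy, hyz⟩ := chain_exact hD h z (fun S hS => by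
    by_contra h1
    exact hS (hz S h1).1) hb
  refine ⟨fun S => if S.card = i + 1 then y S else 0, fun S hS => ?_, ?_⟩
  · by_cases h1 : S.card = i + 1
    · simp only [if_pos h1] at hS
      refine ⟨?_, h1⟩
      by_contra h2
      exact hS (hy S h2)
    · simp only [if_neg h1] at hS
      exact absurd rfl hS
  · funext T
    rw [bd_apply]
    by_cases hT : T.card = i
    · rw [← hyz, bd_apply]
      refine sum_congr rfl fun v hv => ?_
      rw [if_pos]
      rw [card_insert_of_notMem (mem_compl.1 hv), hT]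
    · have h1 : z T = 0 := by
        by_contra h1
        exact hT (hz T h1).2
      rw [h1]
      refine sum_eq_zero fun v hv => ?_
      rw [if_neg, smul_zero]
      rw [card_insert_of_notMem (mem_compl.1 hv)]
      omega

/-- coefficients in a real vector space -/
theorem chain_exact_module {D : Set (Finset V)} (hD : ∀ S ∈ D, ∀ T ⊆ S, T ∈ D) (h : Acy ℝ r D) (i : ℕ)
    {M : Type*} [AddCommGroup M] [Module ℝ M]
    (z : Finset V → M) (hz : ∀ S, z S ≠ 0 → S ∈ D ∧ S.card = i) (hb : bd r z = 0) :
    ∃ y : Finset V → M, (∀ S, y S ≠ 0 → S ∈ D ∧ S.card = i + 1) ∧ bd r y = z := by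
  classical
  let Y : Submodule ℝ (Finset V → ℝ) :=
    { carrier := {y | ∀ S, y S ≠ 0 → S ∈ D ∧ S.card = i + 1}
      zero_mem' := fun S hS => absurd rfl hS
      add_mem' := fun {y y'} hy hy' S hS => by
        by_cases h1 : y S = 0
        · exact hy' S fun h2 => hS (by rw [Pi.add_apply, h1, h2, add_zero])
        · exact hy S h1
      smul_mem' := fun t {y} hy S hS => hy S fun h1 => hS (by rw [Pi.smul_apply, h1, smul_zero]) }
  let B : (Finset V → ℝ) →ₗ[ℝ] (Finset V → ℝ) :=
    { toFun := fun y => bd r y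
      map_add' := fun y y' => map_add _ _ _
      map_smul' := fun t y => by
        funext S
        rw [RingHom.id_apply, Pi.smul_apply, bd_apply, bd_apply, smul_eq_mul, mul_sum]
        refine sum_congr rfl fun v _ => ?_
        rw [Pi.smul_apply, smul_eq_mul, zsmul_eq_mul, zsmul_eq_mul]
        ring }
  let f : Y →ₗ[ℝ] (Finset V → ℝ) := B.domRestrict Y
  obtain ⟨g, hg⟩ := LinearMap.exists_rightInverse_of_surjective f.rangeRestrict f.range_rangeRestrict
  obtain ⟨g', hg'⟩ := LinearMap.exists_extend g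
  have key : ∀ x ∈ LinearMap.range f, bd r (g' x : Finset V → ℝ) = x := by
    intro x hx
    have h1 : g' x = g ⟨x, hx⟩ := congrArg (fun t : LinearMap.range f →ₗ[ℝ] Y => t ⟨x, hx⟩) hg'
    have h2 := congrArg (fun t : LinearMap.range f →ₗ[ℝ] LinearMap.range f => (t ⟨x, hx⟩ : Finset V → ℝ)) hg
    rw [h1]
    exact h2
  let H : Finset V → Finset V → ℝ := fun S T => (g' (Pi.single T 1) : Finset V → ℝ) S
  have hH : ∀ (x : Finset V → ℝ) (S : Finset V), (g' x : Finset V → ℝ) S = ∑ T, H S T * x T := by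
    intro x S
    have h1 : x = ∑ T, x T • (Pi.single T (1 : ℝ) : Finset V → ℝ) := by
      funext R
      rw [Finset.sum_apply, sum_eq_single R]
      · rw [Pi.smul_apply, Pi.single_eq_same, smul_eq_mul, mul_one]
      · intro T _ hT
        rw [Pi.smul_apply, Pi.single_eq_of_ne hT.symm, smul_zero]
      · intro h2
        exact absurd (mem_univ _) h2
    conv_lhs => rw [h1]
    rw [map_sum, AddSubmonoidClass.coe_finsetSum, Finset.sum_apply]
    refine sum_congr rfl fun T _ => ?_
    rw [map_smul, Submodule.coe_smul, Pi.smul_apply, smul_eq_mul, mul_comm]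
  refine ⟨fun S => ∑ T, H S T • z T, fun S hS => ?_, ?_⟩
  · obtain ⟨T, _, hT⟩ := exists_ne_zero_of_sum_ne_zero hS
    exact (g' (Pi.single T 1)).2 S fun h1 => hT (by
      change (H S T) • z T = 0
      rw [show H S T = 0 from h1, zero_smul])
  · funext S
    rw [← sub_eq_zero]
    rw [← Module.forall_dual_apply_eq_zero_iff ℝ]
    intro l
    rw [map_sub, sub_eq_zero]
    have h1 : ∀ w : Finset V → M, (fun S => l (bd r w S)) = bd r fun S => l (w S) := fun w => by
      have := bd_map (r := r) (l.toAddMonoidHom) w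
      exact this.symm
    have h2 : (fun S => l (z S)) ∈ LinearMap.range f := by
      obtain ⟨y, hy, hyz⟩ := chain_exact_graded hD h i (fun S => l (z S)) (fun S hS => hz S fun h3 => hS (by
        simp only [h3, map_zero])) (by
        rw [← h1, hb]
        funext S
        simp)
      exact ⟨⟨y, hy⟩, hyz⟩
    have h3 := key _ h2
    have h4 : (g' fun S => l (z S) : Finset V → ℝ) = fun S => l (∑ T, H S T • z T) := by
      funext S
      rw [hH, map_sum]
      exact sum_congr rfl fun T _ => by rw [map_smul, smul_eq_mul]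
    rw [h4, ← h1] at h3
    exact congrFun h3 S

end dual

universe u

/-- links of cliques: acyclic after one facet is removed -/
theorem link_acy {n : ℕ} {V : Type u} [Fintype V] [DecidableEq V] {G : SimpleGraph V} (h : GQ n G) {m : Finset V}
    (hm : G.IsClique m) {r : V → ℕ} (hr : Function.Injective r) :
    ∃ τ : Finset V, τ.card + m.card = n ∧ Acy ℝ r ({S | G.IsClique (m ∪ S : Finset V) ∧ Disjoint m S} \ {τ}) := by
  classical
  have h1 := dim_of_goodQ h hm
  have h2 : GQ ((n - m.card) + m.card) G := by rwa [Nat.sub_add_cancel h1]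
  have h3 := goodQ_link_clique m.card m hm rfl h2 (Fintype.ofFinite _)
  obtain ⟨τ, hτ⟩ := @exists_facet _ _ (Fintype.ofFinite _) _ _ h3
  let j : {w // ∀ c ∈ m, G.Adj c w} ↪ V := Function.Embedding.subtype _
  have h4 := hτ (fun x => r x) (hr.comp Subtype.val_injective)
  refine ⟨τ.map j, by rw [card_map, h4.card]; omega, ?_⟩
  refine (acy_pull (r := r) (M := ℝ) j ?_ ?_).1 h4.of_int.fac
  · intro S
    constructor
    · rintro ⟨⟨h5, _⟩, h6⟩
      refine ⟨⟨?_, ?_⟩, fun h7 => h6 ?_⟩
      · rw [coe_union]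
        intro x hx y hy hxy
        rcases hx with hx | hx <;> rcases hy with hy | hy
        · exact hm hx hy hxy
        · obtain ⟨y, _, rfl⟩ := mem_map.1 (mem_coe.1 hy)
          exact y.2 x hx
        · obtain ⟨x, _, rfl⟩ := mem_map.1 (mem_coe.1 hx)
          exact (x.2 y hy).symm
        · obtain ⟨x, hx', rfl⟩ := mem_map.1 (mem_coe.1 hx)
          obtain ⟨y, hy', rfl⟩ := mem_map.1 (mem_coe.1 hy)
          exact h5 (mem_coe.2 hx') (mem_coe.2 hy') fun h => hxy (congrArg _ h)
      · rw [disjoint_left]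
        intro x hx hx'
        obtain ⟨x, _, rfl⟩ := mem_map.1 hx'
        exact G.loopless.1 _ (x.2 _ hx)
      · exact map_injective _ h7
    · rintro ⟨⟨h5, _⟩, h6⟩
      refine ⟨⟨?_, Finset.disjoint_empty_right _⟩, ?_⟩
      · intro x hx y hy hxy
        exact h5 (mem_coe.2 (mem_union_right _ (mem_map.2 ⟨x, hx, rfl⟩)))
          (mem_coe.2 (mem_union_right _ (mem_map.2 ⟨y, hy, rfl⟩))) fun h => hxy (Subtype.ext h)
      · rintro rfl
        exact h6 rfl
  · rintro S ⟨⟨h5, h6⟩, _⟩ x hx
    refine ⟨⟨x, fun c hc => ?_⟩, rfl⟩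
    refine h5 (mem_coe.2 (mem_union_left _ hc)) (mem_coe.2 (mem_union_right _ hx)) ?_
    rintro rfl
    exact disjoint_left.1 h6 hc hx

/-- the sphere condition for chains with coefficients in a real vector space -/
theorem sphN_of_goodQ {n : ℕ} {V : Type u} [Fintype V] [DecidableEq V] {G : SimpleGraph V} (h : GQ n G) {r : V → ℕ}
    (hr : Function.Injective r) (M : Type*) [AddCommGroup M] [Module ℝ M] :
    SphN M r (fun S : Finset V => G.IsClique S) n := by
  intro m i hi z hz hb
  by_cases hm : G.IsClique m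
  · obtain ⟨τ, hτ, hacy⟩ := link_acy h hm hr
    have hlow : ∀ S ∈ ({S | G.IsClique (m ∪ S : Finset V) ∧ Disjoint m S} \ {τ} : Set (Finset V)), ∀ T ⊆ S,
        T ∈ ({S | G.IsClique (m ∪ S : Finset V) ∧ Disjoint m S} \ {τ} : Set (Finset V)) := by
      rintro S ⟨⟨h1, h2⟩, h3⟩ T hT
      refine ⟨⟨h1.subset (coe_subset.2 (union_subset_union_right hT)), disjoint_of_subset_right hT h2⟩, ?_⟩
      rintro rfl
      have h4 := dim_of_goodQ h h1
      rw [card_union_of_disjoint h2] at h4
      exact h3 (eq_of_subset_of_card_le hT (by omega)).symm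
    obtain ⟨y, hy, hyz⟩ := chain_exact_module hlow hacy i z (fun S hS => by
      obtain ⟨h1, h2, h3⟩ := hz S hS
      refine ⟨⟨⟨h1, h2⟩, ?_⟩, h3⟩
      rintro rfl
      omega) hb
    exact ⟨y, fun S hS => ⟨(hy S hS).1.1.1, (hy S hS).1.1.2, (hy S hS).2⟩, hyz⟩
  · have h1 : z = 0 := by
      funext S
      by_contra h1
      exact hm ((hz S h1).1.subset (by simp))
    exact ⟨0, fun S hS => absurd rfl hS, by rw [map_zero, h1]⟩

end Re
end Singer
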