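import Pool.Agent.Singer.Real.Nil
import Pool.Agent.Singer.Bet

/-!
# Singer/Real: from commuting to anticommuting operators

`E v` square-zero operators which anticommute for adjacent vertices. On the functions on the subsets of `V` the
operators `f ↦ (A ↦ ± E v (f (A xor v)))` with the Jordan-Wigner signs commute for adjacent vertices.
-/

set_option autoImplicit false
set_option linter.unusedSectionVars false
set_option linter.unusedVariables false

namespace Singer
namespace Re
section ZE
variable {V : Type} [Fintype V] [DecidableEq V]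

namespace Anti
variable {F M : Type} [Field F] [AddCommGroup M] [Module F M]

/-- the symmetric difference with a vertex -/
def tg (v : V) (A : Finset V) : Finset V := symmDiff A {v}

omit [Fintype V] in
theorem tg_tg (v : V) (A : Finset V) : tg v (tg v A) = A := by
  unfold tg
  rw [symmDiff_assoc, symmDiff_self]
  exact symmDiff_bot A

omit [Fintype V] in
theorem tg_comm (u v : V) (A : Finset V) : tg u (tg v A) = tg v (tg u A) := by
  unfold tg
  rw [symmDiff_assoc, symmDiff_assoc, symmDiff_comm ({v} : Finset V)]

omit [Fintype V] in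
theorem mem_tg (v w : V) (A : Finset V) : w ∈ tg v A ↔ ((w ∈ A ∧ w ≠ v) ∨ (w ∉ A ∧ w = v)) := by
  unfold tg
  rw [Finset.mem_symmDiff, Finset.mem_singleton]
  tauto

/-- the sign does not change -/
theorem sgz_tg_le (u v : V) (A : Finset V) (h : ¬ rk u < rk v) : sgz rk v (tg u A) = sgz rk v A := by
  unfold sgz
  congr 2
  ext w
  rw [Finset.mem_filter, Finset.mem_filter, mem_tg]
  constructor
  · rintro ⟨(h1 | h1), h2⟩
    · exact ⟨h1.1, h2⟩
    · rw [h1.2] at h2
      exact absurd h2 h
  · rintro ⟨h1, h2⟩
    refine ⟨Or.inl ⟨h1, ?_⟩, h2⟩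
    rintro rfl
    exact h h2

/-- the sign changes -/
theorem sgz_tg_lt (u v : V) (A : Finset V) (h : rk u < rk v) : sgz rk v (tg u A) = - sgz rk v A := by
  unfold sgz
  by_cases hu : u ∈ A
  · have e : A.filter (fun t => rk t < rk v) = insert u ((tg u A).filter fun t => rk t < rk v) := by
      ext w
      rw [Finset.mem_insert, Finset.mem_filter, Finset.mem_filter, mem_tg]
      constructor
      · rintro ⟨h1, h2⟩
        by_cases hw : w = u
        · exact Or.inl hw
        · exact Or.inr ⟨Or.inl ⟨h1, hw⟩, h2⟩
      · rintro (h1 | ⟨h1, h2⟩)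
        · rw [h1]; exact ⟨hu, h⟩
        · rcases h1 with h1 | h1
          · exact ⟨h1.1, h2⟩
          · exact absurd hu (h1.2 ▸ h1.1)
    rw [e, Finset.card_insert_of_notMem (by
      rw [Finset.mem_filter, mem_tg]
      rintro ⟨h1 | h1, _⟩
      · exact h1.2 rfl
      · exact h1.1 hu), pow_succ]
    ring
  · have e : (tg u A).filter (fun t => rk t < rk v) = insert u (A.filter fun t => rk t < rk v) := by
      ext w
      rw [Finset.mem_insert, Finset.mem_filter, Finset.mem_filter, mem_tg]
      constructor
      · rintro ⟨h1, h2⟩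
        rcases h1 with h1 | h1
        · exact Or.inr ⟨h1.1, h2⟩
        · exact Or.inl h1.2
      · rintro (h1 | ⟨h1, h2⟩)
        · rw [h1]; exact ⟨Or.inr ⟨hu, rfl⟩, h⟩
        · refine ⟨Or.inl ⟨h1, ?_⟩, h2⟩
          rintro rfl
          exact hu h1
    rw [e, Finset.card_insert_of_notMem (by
      rw [Finset.mem_filter]
      exact fun h1 => hu h1.1), pow_succ]
    ring

/-- the twisted operator on the functions on the subsets -/
noncomputable def EE (E : V → M →ₗ[F] M) (v : V) : (Finset V → M) →ₗ[F] (Finset V → M) where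
  toFun f A := sgz rk v A • E v (f (tg v A))
  map_add' f g := by
    funext A
    rw [Pi.add_apply, map_add, smul_add]
    rfl
  map_smul' a f := by
    funext A
    rw [Pi.smul_apply, map_smul, smul_comm]
    rfl

theorem EE_apply (E : V → M →ₗ[F] M) (v : V) (f : Finset V → M) (A : Finset V) :
    EE E v f A = sgz rk v A • E v (f (tg v A)) := rfl

theorem EE_sq (E : V → M →ₗ[F] M) (h1 : ∀ v x, E v (E v x) = 0) (v : V) (f : Finset V → M) :
    EE E v (EE E v f) = 0 := by
  funext A
  rw [EE_apply, EE_apply, map_zsmul, h1, smul_zero, smul_zero]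
  rfl

theorem EE_comm (E : V → M →ₗ[F] M) {u v : V} (huv : rk u < rk v) (hc : ∀ x, E u (E v x) = -E v (E u x))
    (f : Finset V → M) : EE E u (EE E v f) = EE E v (EE E u f) := by
  funext A
  rw [EE_apply, EE_apply, EE_apply, EE_apply, map_zsmul, map_zsmul, hc, tg_comm u v, smul_smul, smul_smul,
    sgz_tg_lt u v A huv, sgz_tg_le v u A (by omega)]
  rw [mul_neg, neg_smul, smul_neg, neg_neg, mul_comm]

theorem sgz_mul_self (v : V) (A : Finset V) : sgz rk v A * sgz rk v A = 1 := by
  unfold sgz
  rw [← mul_pow]
  norm_num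

/-- the cycles of the twisted operators are families of cycles -/
theorem mem_iff (G : SimpleGraph V) (E : V → M →ₗ[F] M) (i : ℕ) {z : Finset V → Finset V → M}
    (hz : z ∈ ZT G (EE E) i) (A : Finset V) : (fun S => z S A) ∈ ZT G E i := by
  obtain ⟨h1, h2, h3⟩ := hz
  refine ⟨fun S hS => ?_, fun S v hv => ?_, fun S => ?_⟩
  · simp only
    rw [h1 S hS]
    rfl
  · have h := congrFun (h2 S v hv) (tg v A)
    rw [EE_apply, tg_tg] at h
    have h' := congrArg (fun x => sgz rk v (tg v A) • x) h
    rw [smul_smul, sgz_mul_self, one_smul] at h'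
    rw [h']
    exact smul_zero _
  · have h := congrFun (h3 S) A
    rw [Finset.sum_apply] at h
    exact h

/-- the map to the families of cycles -/
noncomputable def toFam (G : SimpleGraph V) (E : V → M →ₗ[F] M) (i : ℕ) :
    ZT G (EE E) i →ₗ[F] (Finset V → ZT G E i) where
  toFun z A := ⟨fun S => z.1 S A, mem_iff G E i z.2 A⟩
  map_add' z w := rfl
  map_smul' a z := rfl

theorem toFam_inj (G : SimpleGraph V) (E : V → M →ₗ[F] M) (i : ℕ) : Function.Injective (toFam G E i) := by
  intro z w h
  apply Subtype.ext
  funext S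
  funext A
  have := congrArg Subtype.val (congrFun h A)
  exact congrFun this S

end Anti

theorem vdim_Cy_le_anti (G : SimpleGraph V) {F : Type} [Field F] (h2 : (2 : F) ≠ 0) {M : Type} [AddCommGroup M]
    [Module F M] [FiniteDimensional F M] (E : V → M →ₗ[F] M) (h1 : ∀ v x, E v (E v x) = 0)
    (hc : ∀ u v, G.Adj u v → ∀ x, E u (E v x) = -E v (E u x)) (i : ℕ) :
    vdim (Cy rk G (Racg.gen G) Finset.univ i) * Module.finrank F M ≤ Module.finrank F (ZT G E i) := by
  have key := vdim_Cy_le_nil G h2 (Anti.EE E) (Anti.EE_sq E h1) (fun u v huv x => by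
    rcases lt_trichotomy (rk u) (rk v) with h | h | h
    · exact Anti.EE_comm E h (hc u v huv) x
    · exact absurd (rk_inj h) huv.ne
    · exact (Anti.EE_comm E h (hc v u huv.symm) x).symm) i
  have e1 : Module.finrank F (Finset V → M) = Fintype.card (Finset V) * Module.finrank F M := by
    rw [Module.finrank_pi_fintype, Finset.sum_const, Finset.card_univ, smul_eq_mul]
  have e2 : Module.finrank F (ZT G (Anti.EE E) i) ≤ Fintype.card (Finset V) * Module.finrank F (ZT G E i) := by
    have := LinearMap.finrank_le_finrank_of_injective (Anti.toFam_inj G E i)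
    rwa [Module.finrank_pi_fintype, Finset.sum_const, Finset.card_univ, smul_eq_mul] at this
  rw [e1] at key
  have e2' : (Module.finrank F (ZT G (Anti.EE E) i) : ℝ) ≤ Fintype.card (Finset V) * Module.finrank F (ZT G E i) := by
    exact_mod_cast e2
  have hpos : (0 : ℝ) < Fintype.card (Finset V) := by
    exact_mod_cast Fintype.card_pos
  push_cast at key
  refine le_of_mul_le_mul_left ?_ hpos
  calc (Fintype.card (Finset V) : ℝ) * (vdim (Cy rk G (Racg.gen G) Finset.univ i) * Module.finrank F M)
      = vdim (Cy rk G (Racg.gen G) Finset.univ i) * (Fintype.card (Finset V) * Module.finrank F M) := by ring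
    _ ≤ _ := key
    _ ≤ _ := e2'

end ZE
end Re
end Singer
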