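import Pool.Agent.Singer.Real.CyP
import Pool.Agent.Singer.Real.Anti
import Pool.Agent.Singer.Ord.DimCh
import Pool.Agent.Singer.Bet

/-!
# Singer/Real: vanishing of a Betti number from an exact finite complex

* `CE`, `bd`: chains with coefficients in a module with operators `T v` (families of elements of the common kernels
  of the operators of a clique), and their boundary;
* `finrank_CEs_le`: the space of chains has dimension at most the sum of the dimensions of the common kernels;
* `bet_eq_zero_of_exact`: if the complex is free in degree `i + 1` and exact in degree `i`, the `i`-th Betti number of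
  the right-angled Coxeter group is zero.
-/

set_option autoImplicit false
set_option linter.unusedSectionVars false
set_option linter.unusedVariables false

namespace Singer
namespace Re

open Singer.Ord

section BE
variable {V : Type} [Fintype V] [DecidableEq V]

/-- chains: families of elements of the common kernels -/
def CE {k M : Type*} [CommRing k] [AddCommGroup M] [Module k M] (G : SimpleGraph V) (T : V → M →ₗ[k] M) (i : ℕ)
    (z : Finset V → M) : Prop :=
  (∀ S : Finset V, ¬ (G.IsClique S ∧ S.card = i) → z S = 0) ∧ ∀ S : Finset V, ∀ v ∈ S, T v (z S) = 0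

/-- the boundary -/
noncomputable def bd {M : Type*} [AddCommGroup M] (z : Finset V → M) (S : Finset V) : M :=
  ∑ v ∈ Sᶜ, sgz rk v S • z (insert v S)

/-- the submodule of chains -/
def CEs {k M : Type*} [CommRing k] [AddCommGroup M] [Module k M] (G : SimpleGraph V) (T : V → M →ₗ[k] M) (i : ℕ) :
    Submodule k (Finset V → M) where
  carrier := {z | CE G T i z}
  zero_mem' := ⟨fun _ _ => rfl, fun S v _ => by simp⟩
  add_mem' := by
    rintro z w ⟨hz1, hz2⟩ ⟨hw1, hw2⟩
    refine ⟨fun S hS => ?_, fun S v hv => ?_⟩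
    · rw [Pi.add_apply, hz1 S hS, hw1 S hS, add_zero]
    · rw [Pi.add_apply, map_add, hz2 S v hv, hw2 S v hv, add_zero]
  smul_mem' := by
    rintro c z ⟨hz1, hz2⟩
    refine ⟨fun S hS => ?_, fun S v hv => ?_⟩
    · rw [Pi.smul_apply, hz1 S hS, smul_zero]
    · rw [Pi.smul_apply, map_smul, hz2 S v hv, smul_zero]

/-- the boundary, as a linear map -/
noncomputable def bdL (k : Type*) {M : Type*} [CommRing k] [AddCommGroup M] [Module k M] :
    (Finset V → M) →ₗ[k] (Finset V → M) where
  toFun z := bd z
  map_add' z w := by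
    funext S
    simp only [bd, Pi.add_apply, smul_add, Finset.sum_add_distrib]
  map_smul' c z := by
    funext S
    simp only [bd, Pi.smul_apply, RingHom.id_apply, Finset.smul_sum]
    exact Finset.sum_congr rfl fun v _ => smul_comm _ _ _

lemma mem_CEs {k M : Type*} [CommRing k] [AddCommGroup M] [Module k M] {G : SimpleGraph V} {T : V → M →ₗ[k] M} {i : ℕ}
    {z : Finset V → M} : z ∈ CEs G T i ↔ CE G T i z := Iff.rfl

lemma bdL_apply {k M : Type*} [CommRing k] [AddCommGroup M] [Module k M] (z : Finset V → M) :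
    bdL k z = bd z := rfl

/-- cycles are the chains with boundary zero -/
lemma mem_ZT_iff {k M : Type*} [CommRing k] [AddCommGroup M] [Module k M] {G : SimpleGraph V} {T : V → M →ₗ[k] M}
    {i : ℕ} {z : Finset V → M} : z ∈ ZT G T i ↔ CE G T i z ∧ ∀ S, bd z S = 0 :=
  ⟨fun h => ⟨⟨h.1, h.2.1⟩, h.2.2⟩, fun h => ⟨h.1.1, h.1.2, h.2⟩⟩

open Classical in
/-- the dimension of the space of chains -/
theorem finrank_CEs_le {F : Type} [Field F] {M : Type} [AddCommGroup M] [Module F M] [FiniteDimensional F M]
    (G : SimpleGraph V) (E : V → M →ₗ[F] M) (i : ℕ) :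
    Module.finrank F (CEs G E i) ≤
      ∑ S ∈ Finset.univ.filter (fun S : Finset V => G.IsClique S ∧ S.card = i),
        Module.finrank F (⨅ v ∈ S, LinearMap.ker (E v) : Submodule F M) := by
  set K : Finset V → Submodule F M := fun S => ⨅ v ∈ S, LinearMap.ker (E v) with hK
  have hmem : ∀ {z : Finset V → M}, CE G E i z → ∀ S, z S ∈ K S := by
    intro z hz S
    simp only [hK, Submodule.mem_iInf, LinearMap.mem_ker]
    exact hz.2 S
  let φ : CEs G E i →ₗ[F] ((S : {S : Finset V // G.IsClique S ∧ S.card = i}) → K S.1) :=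
    LinearMap.pi fun S => LinearMap.codRestrict (K S.1) ((LinearMap.proj S.1).comp (CEs G E i).subtype)
      fun z => hmem z.2 S.1
  have hφ : Function.Injective φ := by
    intro z w hzw
    apply Subtype.ext
    funext S
    by_cases hS : G.IsClique S ∧ S.card = i
    · have h1 := congrFun hzw ⟨S, hS⟩
      exact congrArg Subtype.val h1
    · rw [z.2.1 S hS, w.2.1 S hS]
  have h1 := LinearMap.finrank_le_finrank_of_injective hφ
  rw [Module.finrank_pi_fintype] at h1
  refine h1.trans (le_of_eq ?_)
  rw [Finset.sum_subtype (Finset.univ.filter (fun S : Finset V => G.IsClique S ∧ S.card = i)) (p := fun S : Finset V => G.IsClique S ∧ S.card = i)]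
  intro S
  simp

/-- rank and nullity -/
theorem finrank_ZT_add {F : Type} [Field F] {M : Type} [AddCommGroup M] [Module F M] [FiniteDimensional F M]
    (G : SimpleGraph V) (E : V → M →ₗ[F] M) (i : ℕ)
    (hex : ∀ z : Finset V → M, CE G E i z → (∀ S, bd z S = 0) → ∃ w : Finset V → M, CE G E (i + 1) w ∧ ∀ S, bd w S = z S) :
    Module.finrank F (ZT G E i) + Module.finrank F (ZT G E (i + 1)) ≤ Module.finrank F (CEs G E (i + 1)) := by
  let f : CEs G E (i + 1) →ₗ[F] (Finset V → M) := (bdL F).comp (CEs G E (i + 1)).subtype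
  have h1 : ZT G E i ≤ LinearMap.range f := by
    intro z hz
    obtain ⟨hz1, hz2⟩ := mem_ZT_iff.1 hz
    obtain ⟨w, hw1, hw2⟩ := hex z hz1 hz2
    exact ⟨⟨w, hw1⟩, funext hw2⟩
  have h2 : ZT G E (i + 1) ≤ (LinearMap.ker f).map (CEs G E (i + 1)).subtype := by
    intro z hz
    obtain ⟨hz1, hz2⟩ := mem_ZT_iff.1 hz
    exact ⟨⟨z, hz1⟩, funext hz2, rfl⟩
  have h3 := Submodule.finrank_mono h1
  have h4 := Submodule.finrank_mono h2
  rw [Submodule.finrank_map_subtype_eq] at h4
  have h5 := LinearMap.finrank_range_add_finrank_ker f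
  omega

/-- if the complex is free in degree `i + 1` and exact in degree `i`, the `i`-th Betti number is zero -/
theorem bet_eq_zero_of_exact (G : SimpleGraph V) {F : Type} [Field F] (h2 : (2 : F) ≠ 0) {M : Type} [AddCommGroup M]
    [Module F M] [FiniteDimensional F M] [Nontrivial M] (E : V → M →ₗ[F] M) (h1 : ∀ v x, E v (E v x) = 0)
    (hc : ∀ u v, G.Adj u v → ∀ x, E u (E v x) = -E v (E u x)) (i : ℕ)
    (hfree : ∀ S : Finset V, G.IsClique S → S.card = i + 1 →
      Module.finrank F (⨅ v ∈ S, LinearMap.ker (E v) : Submodule F M) * 2 ^ (i + 1) ≤ Module.finrank F M)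
    (hex : ∀ z : Finset V → M, CE G E i z → (∀ S, bd z S = 0) → ∃ w : Finset V → M, CE G E (i + 1) w ∧ ∀ S, bd w S = z S) :
    bet G i = 0 := by
  classical
  have hb0 : 0 ≤ bet G i := bn_nonneg rk G (Racg.gen G) rk_inj Finset.univ i
  refine le_antisymm ?_ hb0
  have hm : 0 < Module.finrank F M := Module.finrank_pos
  have hmR : (0 : ℝ) < Module.finrank F M := by exact_mod_cast hm
  have e1 : bet G i = vdim (Cy rk G (Racg.gen G) Finset.univ i) + vdim (Cy rk G (Racg.gen G) Finset.univ (i + 1)) -
      (Finset.univ.filter (fun S : Finset V => G.IsClique S ∧ S.card = i + 1)).card * (1 / 2 : ℝ) ^ (i + 1) := by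
    unfold bet bn
    rw [vdim_Bd, vdim_Ch_eq]
    ring
  have e2 := vdim_Cy_le_anti G h2 E h1 hc i
  have e3 := vdim_Cy_le_anti G h2 E h1 hc (i + 1)
  have e4 := finrank_ZT_add G E i hex
  have e5 := finrank_CEs_le G E (i + 1)
  have e6 : (∑ S ∈ Finset.univ.filter (fun S : Finset V => G.IsClique S ∧ S.card = i + 1),
        Module.finrank F (⨅ v ∈ S, LinearMap.ker (E v) : Submodule F M)) * 2 ^ (i + 1) ≤
      (Finset.univ.filter (fun S : Finset V => G.IsClique S ∧ S.card = i + 1)).card * Module.finrank F M := by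
    rw [Finset.sum_mul, ← smul_eq_mul (α := ℕ) (a := Finset.card _), ← Finset.sum_const]
    refine Finset.sum_le_sum fun S hS => ?_
    obtain ⟨-, h3, h4⟩ := Finset.mem_filter.1 hS
    exact hfree S h3 h4
  set N : ℕ := (Finset.univ.filter (fun S : Finset V => G.IsClique S ∧ S.card = i + 1)).card with hN
  have e7 : (Module.finrank F (ZT G E i) + Module.finrank F (ZT G E (i + 1))) * 2 ^ (i + 1) ≤ N * Module.finrank F M :=
    (Nat.mul_le_mul_right _ (e4.trans e5)).trans e6
  have e8 : ((Module.finrank F (ZT G E i) : ℝ) + Module.finrank F (ZT G E (i + 1))) * 2 ^ (i + 1) ≤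
      N * Module.finrank F M := by exact_mod_cast e7
  have e9 : (Module.finrank F (ZT G E i) : ℝ) + Module.finrank F (ZT G E (i + 1)) ≤
      N * (1 / 2 : ℝ) ^ (i + 1) * Module.finrank F M := by
    have h3 : (0 : ℝ) < 2 ^ (i + 1) := by positivity
    rw [← mul_le_mul_iff_left₀ h3]
    refine e8.trans (le_of_eq ?_)
    have h4 : (1 / 2 : ℝ) ^ (i + 1) * 2 ^ (i + 1) = 1 := by
      rw [← mul_pow]
      norm_num
    calc (N : ℝ) * Module.finrank F M = N * Module.finrank F M * ((1 / 2 : ℝ) ^ (i + 1) * 2 ^ (i + 1)) := by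
          rw [h4, mul_one]
      _ = N * (1 / 2 : ℝ) ^ (i + 1) * Module.finrank F M * 2 ^ (i + 1) := by ring
  have e10 : bet G i * Module.finrank F M ≤ 0 := by
    rw [e1]
    nlinarith [e2, e3, e9]
  by_contra hne
  push Not at hne
  have := mul_pos hne hmR
  linarith

end BE

end Re
end Singer
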