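import Pool.Agent.Singer.Real.Fan
import Pool.Agent.Singer.Ord.Rank
import Pool.Agent.Singer.P2c

/-! # Flag homology spheres satisfy the combinatorial conditions -/

set_option autoImplicit false
set_option linter.unusedSectionVars false

namespace Singer
namespace Re

open Finset Singer.Ord.Rk

universe u

theorem cx_of_goodQ {n : ℕ} {V : Type u} [Fintype V] [DecidableEq V] {G : SimpleGraph V} (h : GQ n G) : Cx G n where
  dim S hS := dim_of_goodQ h hS
  ext := by
    classical
    intro S hS
    obtain ⟨R, hSR, hR⟩ : ∃ R : Finset V, S ⊆ R ∧ (G.IsClique R ∧ ∀ R' : Finset V, G.IsClique R' → R ⊆ R' → R' = R) := by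
      obtain ⟨R, hR, hmax⟩ := Finset.exists_max_image
        (Finset.univ.filter fun R : Finset V => G.IsClique R ∧ S ⊆ R) (fun R => R.card)
        ⟨S, Finset.mem_filter.2 ⟨Finset.mem_univ S, hS, Finset.Subset.refl S⟩⟩
      rw [Finset.mem_filter] at hR
      refine ⟨R, hR.2.2, hR.2.1, fun R' hR' hRR' => ?_⟩
      exact (Finset.eq_of_subset_of_card_le hRR'
        (hmax R' (Finset.mem_filter.2 ⟨Finset.mem_univ R', hR', hR.2.2.trans hRR'⟩))).symm
    refine ⟨R, hR.1, card_of_maximal h hR.1 fun w hw => ?_, hSR⟩
    have h1 : G.IsClique (insert w R : Finset V) := by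
      rw [coe_insert]
      exact hR.1.insert fun b hb _ => (hw b (mem_coe.1 hb)).symm
    have h2 := hR.2 _ h1 (subset_insert w R)
    have h3 : w ∈ R := h2 ▸ mem_insert_self w R
    exact G.loopless.1 w (hw w h3)
  ridge := by
    intro S hS v hv hvS
    have hSc : G.IsClique (S : Finset V) := hvS.subset (by simp)
    have h1 : GQ (1 + S.card) G := by rwa [add_comm, hS]
    have h2 := goodQ_link_clique S.card S hSc rfl h1 (Fintype.ofFinite _)
    obtain ⟨a, b, hab, h3, h4⟩ := @goodQ_one_pair _ (Fintype.ofFinite _) _ h2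
    have key : ∀ u, u ∉ S → G.IsClique (insert u S : Finset V) → ∀ c ∈ S, G.Adj c u := by
      intro u hu hc c hcS
      refine (hc (by simp) (mem_coe.2 (mem_insert_of_mem hcS)) ?_).symm
      rintro rfl
      exact hu hcS
    have key2 : ∀ u : {w // ∀ c ∈ S, G.Adj c w}, u.1 ∉ S ∧ G.IsClique (insert u.1 S : Finset V) := by
      intro u
      refine ⟨fun hu => G.loopless.1 _ (u.2 _ hu), ?_⟩
      rw [coe_insert]
      exact hSc.insert fun b hb _ => (u.2 b (mem_coe.1 hb)).symm
    rcases h3 ⟨v, key v hv hvS⟩ with h5 | h5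
    · refine ⟨b.1, (key2 b).1, ?_, (key2 b).2, fun u hu hc => ?_⟩
      · rintro h6
        exact hab (h5.symm.trans (Subtype.ext h6.symm))
      · rcases h3 ⟨u, key u hu hc⟩ with h6 | h6
        · left
          have := h6.trans h5.symm
          exact congrArg Subtype.val this
        · right
          exact congrArg Subtype.val h6
    · refine ⟨a.1, (key2 a).1, ?_, (key2 a).2, fun u hu hc => ?_⟩
      · rintro h6
        exact hab (Subtype.ext (h6.trans (congrArg Subtype.val h5)))
      · rcases h3 ⟨u, key u hu hc⟩ with h6 | h6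
        · right
          exact congrArg Subtype.val h6
        · left
          exact congrArg Subtype.val (h6.trans h5.symm)

end Re
end Singer
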