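import Pool.Agent.Singer.Desc
import Mathlib.GroupTheory.Abelianization.Defs
import Mathlib.NumberTheory.Basic

/-!
# Singer/Real: the commutator subgroup of a right-angled Coxeter group is residually a finite `p`-group

The Tits representation `T v μ = μ + 2 μ_v c_v`, `c_v = -1` at `v`, `0` at the neighbours of `v`, `p` at the other
vertices. The vector `w • (1, …, 1)` is negative exactly at the descents of `w`. Modulo `p` the element `T v` is
diagonal with entries `±1`, so modulo `p ^ k` the commutator subgroup acts through a finite `p`-group.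
-/

set_option autoImplicit false
set_option linter.unusedSectionVars false
set_option linter.unusedVariables false

namespace Singer
namespace Re
namespace TitsP

open Racg

section rep
variable {V : Type} (G : SimpleGraph V) (p : ℕ) (R : Type) [CommRing R]

open Classical in
/-- the vector of the reflection -/
noncomputable def cv (v w : V) : R := if w = v then -1 else if G.Adj v w then 0 else (p : R)

/-- the nilpotent part -/
noncomputable def NN (v : V) : (V → R) →ₗ[R] (V → R) where
  toFun μ := μ v • cv G p R v
  map_add' μ ν := by rw [Pi.add_apply, add_smul]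
  map_smul' a μ := by rw [Pi.smul_apply, smul_eq_mul, mul_smul]; rfl

/-- the reflection -/
noncomputable def TT (v : V) : Module.End R (V → R) := 1 + (2 : R) • NN G p R v

variable {G p R}

theorem TT_apply (v : V) (μ : V → R) (w : V) : TT G p R v μ w = μ w + 2 * (μ v * cv G p R v w) := rfl

theorem cv_self (v : V) : cv G p R v v = -1 := by simp [cv]

theorem cv_adj {u v : V} (h : G.Adj v u) : cv G p R v u = 0 := by
  rw [cv, if_neg h.ne', if_pos h]

theorem cv_ne {u v : V} (h : u ≠ v) (h2 : ¬ G.Adj v u) : cv G p R v u = (p : R) := by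
  rw [cv, if_neg h, if_neg h2]

theorem TT_sq (v : V) : TT G p R v * TT G p R v = 1 := by
  apply LinearMap.ext
  intro μ
  funext w
  rw [Module.End.mul_apply, TT_apply, TT_apply, TT_apply, cv_self, Module.End.one_apply]
  ring

theorem TT_comm {u v : V} (h : G.Adj u v) : TT G p R u * TT G p R v = TT G p R v * TT G p R u := by
  apply LinearMap.ext
  intro μ
  funext w
  rw [Module.End.mul_apply, Module.End.mul_apply, TT_apply, TT_apply, TT_apply, TT_apply,
    TT_apply, TT_apply, cv_adj h, cv_adj h.symm]
  ring

/-- the reflection as a unit -/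
noncomputable def TU (v : V) : (Module.End R (V → R))ˣ := ⟨TT G p R v, TT G p R v, TT_sq v, TT_sq v⟩

variable (G p R)

/-- the representation -/
noncomputable def rho : RACG G →* (Module.End R (V → R))ˣ :=
  lift (fun v => TU (p := p) v) (fun v => Units.ext (TT_sq v)) fun u v h => Units.ext (TT_comm h)

variable {G p R}

theorem rho_gen (v : V) : ((rho G p R (gen G v) : (Module.End R (V → R))ˣ) : Module.End R (V → R)) = TT G p R v := by
  rw [rho, lift_gen]; rfl

/-- diagonal matrices with entries `±1` -/
noncomputable def DD (R : Type) [CommRing R] (ε : V → ℤˣ) : Module.End R (V → R) where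
  toFun μ := fun w => (((ε w : ℤˣ) : ℤ) : R) * μ w
  map_add' μ ν := by funext w; simp [mul_add]
  map_smul' a μ := by funext w; simp only [Pi.smul_apply, smul_eq_mul, RingHom.id_apply]; ring

theorem DD_apply (ε : V → ℤˣ) (μ : V → R) (w : V) : DD R ε μ w = (((ε w : ℤˣ) : ℤ) : R) * μ w := rfl

theorem DD_one : DD R (1 : V → ℤˣ) = 1 := by
  apply LinearMap.ext
  intro μ
  funext w
  rw [DD_apply]
  simp

theorem DD_mul (ε ε' : V → ℤˣ) : DD R (ε * ε') = DD R ε * DD R ε' := by
  apply LinearMap.ext
  intro μ
  funext w
  rw [Module.End.mul_apply, DD_apply, DD_apply, DD_apply, Pi.mul_apply, Units.val_mul]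
  push_cast
  ring

open Classical in
/-- the part of the reflection at the vertices which are not adjacent -/
noncomputable def MM (G : SimpleGraph V) (R : Type) [CommRing R] (v : V) : (V → R) →ₗ[R] (V → R) where
  toFun μ := fun w => if w = v then 0 else if G.Adj v w then 0 else 2 * μ v
  map_add' μ ν := by
    funext w
    simp only [Pi.add_apply]
    split_ifs
    · rw [add_zero]
    · rw [add_zero]
    · ring
  map_smul' a μ := by
    funext w
    simp only [Pi.smul_apply, smul_eq_mul, RingHom.id_apply]
    split_ifs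
    · rw [mul_zero]
    · rw [mul_zero]
    · ring

open Classical in
/-- the sign characters of the generators -/
noncomputable def sgn1 (v : V) : V → ℤˣ := fun w => if w = v then -1 else 1

theorem TT_eq (v : V) : TT G p R v = DD R (sgn1 v) + (p : R) • MM G R v := by
  classical
  apply LinearMap.ext
  intro μ
  funext w
  rw [TT_apply]
  have e : (DD R (sgn1 v) + (p : R) • MM G R v) μ w = (((sgn1 v w : ℤˣ) : ℤ) : R) * μ w +
      (p : R) * (if w = v then 0 else if G.Adj v w then 0 else 2 * μ v) := rfl
  rw [e]
  unfold sgn1 cv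
  split_ifs with h1 h2
  · subst h1
    push_cast
    ring
  · push_cast
    ring
  · push_cast
    ring

variable (G)

/-- the sign characters -/
noncomputable def ab : RACG G →* (V → ℤˣ) :=
  lift (fun v => sgn1 v) (fun v => by
    classical
    funext w
    rw [Pi.mul_apply, Pi.one_apply]
    unfold sgn1
    split_ifs
    · rw [Int.units_mul_self]
    · rw [mul_one]) fun u v h => mul_comm _ _

variable {G}

theorem ab_gen (v : V) : ab G (gen G v) = sgn1 v := by rw [ab, lift_gen]

theorem ab_commutator {g : RACG G} (hg : g ∈ commutator (RACG G)) : ab G g = 1 :=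
  (Abelianization.commutator_subset_ker (ab G)) hg

/-- all elements are diagonal modulo `p` -/
theorem rho_diag (g : RACG G) : ∃ N : Module.End R (V → R),
    ((rho G p R g : (Module.End R (V → R))ˣ) : Module.End R (V → R)) = DD R (ab G g) + (p : R) • N := by
  induction g using induction with
  | h1 => exact ⟨0, by rw [map_one, map_one, smul_zero, add_zero, DD_one, Units.val_one]⟩
  | hm v w ih =>
    obtain ⟨N, hN⟩ := ih
    refine ⟨DD R (sgn1 v) * N + MM G R v * DD R (ab G w) + (p : R) • (MM G R v * N), ?_⟩
    rw [map_mul, Units.val_mul, rho_gen, hN, TT_eq, map_mul, ab_gen, DD_mul, add_mul, mul_add, mul_add,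
      smul_mul_assoc, smul_mul_assoc, mul_smul_comm, mul_smul_comm]
    module

theorem pow_p_pow {S : Type} [Ring S] [Algebra R S] (N : S) (k : ℕ) :
    ∃ N' : S, (1 + (p : R) • N) ^ (p ^ k) = 1 + ((p : R) ^ (k + 1)) • N' := by
  have h : ((p : ℕ) : Polynomial R) ∣ (1 + (p : Polynomial R) * Polynomial.X) - 1 :=
    ⟨Polynomial.X, by ring⟩
  obtain ⟨Q, hQ⟩ := dvd_sub_pow_of_dvd_sub h k
  refine ⟨Polynomial.aeval N Q, ?_⟩
  have h2 := congrArg (Polynomial.aeval N) hQ
  rw [one_pow, _root_.map_sub, map_pow, map_add, map_mul, map_mul, map_one, Polynomial.aeval_X, map_pow, map_natCast] at h2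
  rw [Algebra.smul_def, Algebra.smul_def, map_pow, map_natCast]
  exact (sub_eq_iff_eq_add'.1 h2)

end rep

section sign
variable {V : Type} [Fintype V] {G : SimpleGraph V} {p : ℕ}

/-- the orbit of the vector `(1, …, 1)` -/
noncomputable def orb (p : ℕ) (w : RACG G) : V → ℤ :=
  ((rho G p ℤ w : (Module.End ℤ (V → ℤ))ˣ) : Module.End ℤ (V → ℤ)) (fun _ => 1)

theorem orb_one : orb p (1 : RACG G) = fun _ => 1 := by
  rw [orb, map_one]; rfl

theorem orb_mul (s : V) (w : RACG G) (t : V) :
    orb p (gen G s * w) t = orb p w t + 2 * (orb p w s * cv G p ℤ s t) := by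
  rw [orb, map_mul, Units.val_mul, rho_gen, Module.End.mul_apply, TT_apply]
  rfl

/-- induction along the length -/
theorem up_induction {P : RACG G → Prop} (h1 : P 1) (hm : ∀ s w, ¬ Dsc s w → P w → P (gen G s * w))
    (w : RACG G) : P w := by
  obtain ⟨n, hn⟩ : ∃ n, ln w⁻¹ = n := ⟨_, rfl⟩
  induction n using Nat.strong_induction_on generalizing w with
  | _ n ih =>
    by_cases hw : w = 1
    · rw [hw]; exact h1
    · obtain ⟨s, hs⟩ := exists_dsc hw
      have h2 : Rd s w⁻¹ := by unfold Rd; rwa [inv_inv]
      have h3 := ln_mul' h2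
      have h4 : (gen G s * w)⁻¹ = w⁻¹ * gen G s := by rw [mul_inv_rev, gen_inv]
      have h5 : P (gen G s * w) := ih (ln (gen G s * w)⁻¹) (by rw [h4]; omega) _ rfl
      have h6 : ¬ Dsc s (gen G s * w) := by rw [dsc_self]; exact fun h => h hs
      have h7 := hm s _ h6 h5
      rwa [← mul_assoc, gen_mul_gen, one_mul] at h7

/-- the signs of the orbit -/
theorem orb_sign (hp : 1 ≤ p) (w : RACG G) :
    (∀ v, (Dsc v w → orb p w v < 0) ∧ (¬ Dsc v w → 0 < orb p w v)) ∧
      ∀ a b, a ≠ b → ¬ G.Adj a b → Dsc a w → ¬ Dsc b w → 0 < orb p w a + orb p w b := by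
  have hp' : (1 : ℤ) ≤ (p : ℤ) := by exact_mod_cast hp
  induction w using up_induction with
  | h1 =>
    rw [orb_one]
    exact ⟨fun v => ⟨fun h => absurd h (not_dsc_one v), fun _ => one_pos⟩,
      fun a _ _ _ h => absurd h (not_dsc_one a)⟩
  | hm s w hs ih =>
    obtain ⟨ih1, ih2⟩ := ih
    have hs0 := (ih1 s).2 hs
    have hss : Dsc s (gen G s * w) := (dsc_self s w).2 hs
    have hpm : orb p w s ≤ (p : ℤ) * orb p w s := by nlinarith
    have e1 : orb p (gen G s * w) s = - orb p w s := by rw [orb_mul, cv_self]; ring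
    have e2 : ∀ t, G.Adj s t → orb p (gen G s * w) t = orb p w t := by
      intro t ht; rw [orb_mul, cv_adj ht]; ring
    have e3 : ∀ t, t ≠ s → ¬ G.Adj s t → orb p (gen G s * w) t = orb p w t + 2 * ((p : ℤ) * orb p w s) := by
      intro t h1 h2; rw [orb_mul, cv_ne h1 h2]; ring
    -- positivity at the non-neighbours
    have hp : ∀ t, t ≠ s → ¬ G.Adj s t → 0 < orb p w t + orb p w s := by
      intro t h1 h2
      by_cases ht : Dsc t w
      · exact ih2 t s h1 (fun h => h2 h.symm) ht hs
      · have := (ih1 t).2 ht; omega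
    refine ⟨fun v => ?_, fun a b hab hadj ha hb => ?_⟩
    · by_cases hv : v = s
      · subst hv
        refine ⟨fun _ => by rw [e1]; omega, fun h => absurd hss h⟩
      · by_cases hv2 : G.Adj s v
        · rw [e2 v hv2, dsc_adj hv2.symm]
          exact ih1 v
        · have h1 : ¬ Dsc v (gen G s * w) := fun h => hv2 (dsc_clique (Ne.symm hv) hss h)
          refine ⟨fun h => absurd h h1, fun _ => ?_⟩
          rw [e3 v hv hv2]
          have := hp v hv hv2
          omega
    · by_cases has : a = s
      · subst has
        rw [e1, e3 b (Ne.symm hab) hadj]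
        have := hp b (Ne.symm hab) hadj
        omega
      · have h1 : G.Adj s a := dsc_clique (Ne.symm has) hss ha
        have ha' : Dsc a w := (dsc_adj h1.symm w).1 ha
        have hbs : b ≠ s := by
          rintro rfl
          exact hadj h1.symm
        rw [e2 a h1]
        by_cases hb2 : G.Adj s b
        · rw [e2 b hb2]
          exact ih2 a b hab hadj ha' (fun h => hb ((dsc_adj hb2.symm w).2 h))
        · rw [e3 b hbs hb2]
          have hb' : ¬ Dsc b w := fun h => hadj (dsc_clique hab ha' h)
          have := ih2 a b hab hadj ha' hb'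
          omega

/-- reduction of the coefficients -/
theorem rho_cast {R : Type} [CommRing R] (w : RACG G) (μ : V → ℤ) (t : V) :
    ((rho G p R w : (Module.End R (V → R))ˣ) : Module.End R (V → R)) (fun v => (μ v : R)) t =
      ((((rho G p ℤ w : (Module.End ℤ (V → ℤ))ˣ) : Module.End ℤ (V → ℤ)) μ t : ℤ) : R) := by
  induction w using induction generalizing t with
  | h1 => rw [map_one, map_one]; rfl
  | hm v w ih =>
    have hc : ∀ u, cv G p R v u = ((cv G p ℤ v u : ℤ) : R) := by
      intro u
      unfold cv
      split_ifs <;> simp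
    rw [map_mul, map_mul, Units.val_mul, Units.val_mul, rho_gen, rho_gen, Module.End.mul_apply,
      Module.End.mul_apply, TT_apply, TT_apply, ih, ih, hc]
    push_cast
    rfl

end sign

end TitsP

open TitsP Racg in
/-- the commutator subgroup of a right-angled Coxeter group is residually a finite `p`-group, in a
representation of the whole group -/
theorem racg_res_p {V : Type} [Fintype V] (G : SimpleGraph V) (p : ℕ) [Fact p.Prime] (hp : p ≠ 2) (g : RACG G)
    (hg : g ≠ 1) : ∃ (Q : Type) (_ : Group Q) (_ : Fintype Q) (π : RACG G →* Q),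
      IsPGroup p ((commutator (RACG G)).map π) ∧ π g ≠ 1 := by
  classical
  have hpp : p.Prime := Fact.out
  obtain ⟨s, hs⟩ := exists_dsc hg
  have h1 := (orb_sign (p := p) hpp.one_lt.le g).1 s |>.1 hs
  obtain ⟨k, hk⟩ : ∃ k : ℕ, (orb p g s - 1).natAbs < p ^ k := ⟨_, Nat.lt_pow_self hpp.one_lt⟩
  have : NeZero (p ^ k) := ⟨pow_ne_zero _ hpp.ne_zero⟩
  let R : Type := ZMod (p ^ k)
  have : Finite (Module.End R (V → R)) :=
    Finite.of_injective (fun f : Module.End R (V → R) => (f : (V → R) → (V → R))) DFunLike.coe_injective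
  have : Finite (Module.End R (V → R))ˣ :=
    Finite.of_injective (fun u : (Module.End R (V → R))ˣ => (u : Module.End R (V → R))) Units.val_injective
  have h2k : (p : R) ^ k = 0 := by
    have : (((p ^ k : ℕ)) : ZMod (p ^ k)) = 0 := ZMod.natCast_self _
    push_cast at this
    exact this
  refine ⟨(rho G p R).range, inferInstance, Fintype.ofFinite _, (rho G p R).rangeRestrict, ?_, ?_⟩
  · rintro ⟨x, hx⟩
    obtain ⟨w, hw, rfl⟩ := hx
    refine ⟨k, ?_⟩
    apply Subtype.ext
    apply Subtype.ext
    apply Units.ext
    obtain ⟨N, hN⟩ := rho_diag (G := G) (p := p) (R := R) w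
    rw [ab_commutator hw, DD_one] at hN
    obtain ⟨N', hN'⟩ := pow_p_pow (p := p) (R := R) N k
    rw [Subgroup.coe_pow, Subgroup.coe_pow, Units.val_pow_eq_pow_val, MonoidHom.coe_rangeRestrict, hN, hN', pow_succ,
      h2k, zero_mul, zero_smul, add_zero]
    rfl
  · intro h
    have h3 : rho G p R g = 1 := congrArg Subtype.val h
    have h4 := rho_cast (p := p) (R := R) g (fun _ => 1) s
    rw [h3] at h4
    have h5 : ((orb p g s : ℤ) : R) = 1 := by
      rw [orb, ← h4]
      simp
    have h6 : ((orb p g s - 1 : ℤ) : ZMod (p ^ k)) = 0 := by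
      push_cast
      rw [sub_eq_zero]
      exact h5
    rw [ZMod.intCast_zmod_eq_zero_iff_dvd] at h6
    have h7 := Int.eq_zero_of_abs_lt_dvd h6 (by
      rw [Int.abs_eq_natAbs]
      exact_mod_cast hk)
    omega

open Racg in
/-- squares are in the commutator subgroup -/
theorem racg_sq_mem {V : Type} (G : SimpleGraph V) (g : RACG G) : g * g ∈ commutator (RACG G) := by
  have key : Abelianization.of (g * g) = 1 := by
    induction g using induction with
    | h1 => rw [mul_one, map_one]
    | hm v w ih =>
      rw [map_mul] at ih ⊢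
      rw [map_mul, mul_mul_mul_comm, ih, mul_one, ← map_mul, gen_mul_gen, map_one]
  exact (QuotientGroup.eq_one_iff _).1 key

end Re
end Singer
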