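import Pool.Agent.Singer.Real.ModP
import Pool.Agent.Singer.Real.TitsP
import Pool.Agent.Singer.Ord.CyMod

/-!
# Singer/Real: cycles of the Davis complex and cycles with coefficients in a module of odd characteristic
-/

set_option autoImplicit false
set_option linter.unusedSectionVars false
set_option linter.unusedVariables false

namespace Singer
namespace Re

open Singer.Ord Singer.Ord.CyMod

section ZE
variable {V : Type} [Fintype V] [DecidableEq V]

/-- cycles with coefficients in the kernels of the operators `T v` -/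
def ZT {k M : Type*} [CommRing k] [AddCommGroup M] [Module k M] (G : SimpleGraph V) (T : V → M →ₗ[k] M) (i : ℕ) :
    Submodule k (Finset V → M) where
  carrier := {z | (∀ S : Finset V, ¬ (G.IsClique S ∧ S.card = i) → z S = 0) ∧
    (∀ S : Finset V, ∀ v ∈ S, T v (z S) = 0) ∧ ∀ S : Finset V, ∑ v ∈ Sᶜ, sgz rk v S • z (insert v S) = 0}
  zero_mem' := by simp
  add_mem' := by
    rintro z w ⟨h1, h2, h3⟩ ⟨k1, k2, k3⟩
    refine ⟨fun S hS => ?_, fun S v hv => ?_, fun S => ?_⟩
    · rw [Pi.add_apply, h1 S hS, k1 S hS, add_zero]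
    · rw [Pi.add_apply, map_add, h2 S v hv, k2 S v hv, add_zero]
    · simp only [Pi.add_apply, smul_add, Finset.sum_add_distrib]
      rw [h3, k3, add_zero]
  smul_mem' := by
    rintro a z ⟨h1, h2, h3⟩
    refine ⟨fun S hS => ?_, fun S v hv => ?_, fun S => ?_⟩
    · rw [Pi.smul_apply, h1 S hS, smul_zero]
    · rw [Pi.smul_apply, map_smul, h2 S v hv, smul_zero]
    · simp only [Pi.smul_apply]
      have h4 : ∀ v ∈ Sᶜ, sgz rk v S • a • z (insert v S) = a • sgz rk v S • z (insert v S) :=
        fun v _ => smul_comm _ _ _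
      rw [Finset.sum_congr rfl h4, ← Finset.smul_sum, h3, smul_zero]

theorem mem_ZT {k M : Type*} [CommRing k] [AddCommGroup M] [Module k M] {G : SimpleGraph V} {T : V → M →ₗ[k] M}
    {i : ℕ} {z : Finset V → M} : z ∈ ZT G T i ↔ (∀ S : Finset V, ¬ (G.IsClique S ∧ S.card = i) → z S = 0) ∧
    (∀ S : Finset V, ∀ v ∈ S, T v (z S) = 0) ∧ ∀ S : Finset V, ∑ v ∈ Sᶜ, sgz rk v S • z (insert v S) = 0 :=
  Iff.rfl

/-- the generators and the unit -/
noncomputable def gn (G : SimpleGraph V) : Option V → RACG G := fun j => j.elim 1 (Racg.gen G)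

theorem Cy_eq_SolL (G : SimpleGraph V) (i : ℕ) :
    ((Cy rk G (Racg.gen G) Finset.univ i : Submodule ℂ (E (RACG G) (Finset V))) :
      Set (E (RACG G) (Finset V))) = SolL (cc G i) (gn G) := by
  set s : Option V → RACG G := gn G with hs
  ext f
  have key : ∀ g k, ∑ T, ∑ j, (cc G i k T j : ℂ) * f (g * s j, T) =
      ∑ T, ∑ j, cc G i k T j • f (g * s j, T) := by
    intro g k
    refine Finset.sum_congr rfl fun T _ => Finset.sum_congr rfl fun j _ => ?_
    rw [zsmul_eq_mul]
  have s0 : s none = 1 := rfl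
  have s1 : ∀ v, s (some v) = Racg.gen G v := fun v => rfl
  constructor
  · rintro ⟨⟨h1, h2'⟩, h3⟩ g k
    rw [key]
    obtain ⟨S, k⟩ := k
    rcases k with _ | _ | v
    · rw [sum_cc_none G i (fun T j => f (g * s j, T))]
      intro hS
      by_contra hne
      obtain ⟨c1, c2, c3⟩ := h1 (g * s none, S) hne
      exact hS ⟨c3, c2⟩
    · rw [sum_cc_bd G i (fun T j => f (g * s j, T))]
      have h4 : D rk f = 0 := h3
      have h5 := D_apply (r := rk) f (g * s none) S
      rw [h4] at h5
      simp only [lp.coeFn_zero, Pi.zero_apply] at h5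
      rw [h5]
      refine Finset.sum_congr rfl fun v _ => ?_
      rw [zsmul_eq_mul]
      simp [sg, sgz]
    · rw [sum_cc_anti G i (fun T j => f (g * s j, T))]
      intro hv
      have h4 := h2' g S v hv
      simp only [s0, s1, mul_one]
      rw [h4]
      ring
  · intro h
    have h' : ∀ g k, ∑ T, ∑ j, cc G i k T j • f (g * s j, T) = 0 := fun g k => by rw [← key]; exact h g k
    refine ⟨⟨fun x hx => ?_, fun g T v hv => ?_⟩, ?_⟩
    · have h1 := h' x.1 (x.2, none)
      rw [sum_cc_none G i (fun T j => f (x.1 * s j, T))] at h1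
      by_contra hne
      refine hx ?_
      have h2 := h1 (fun h => hne ⟨Finset.subset_univ _, h.2, h.1⟩)
      simpa [s0] using h2
    · have h1 := h' g (T, some (some v))
      rw [sum_cc_anti G i (fun T j => f (g * s j, T))] at h1
      have h2 := h1 hv
      simp only [s0, s1, mul_one] at h2
      rw [eq_neg_iff_add_eq_zero, add_comm]
      exact h2
    · show D rk f = 0
      ext x
      obtain ⟨g, S⟩ := x
      have h1 := h' g (S, some none)
      rw [sum_cc_bd G i (fun T j => f (g * s j, T))] at h1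
      rw [D_apply]
      simp only [lp.coeFn_zero, Pi.zero_apply]
      rw [← h1]
      refine Finset.sum_congr rfl fun v _ => ?_
      rw [zsmul_eq_mul]
      simp [sg, sgz, s0]

theorem ZT_eq_SolM (G : SimpleGraph V) (i : ℕ) {k : Type} [CommRing k] {M : Type} [AddCommGroup M] [Module k M]
    (T : Option V → (M →ₗ[k] M)) (h0 : T none = 1) :
    ZT G (fun v => 1 + T (some v)) i = SolM (cc G i) T := by
  ext z
  constructor
  · rintro ⟨h1, h2', h3⟩ k
    obtain ⟨S, k⟩ := k
    rcases k with _ | _ | v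
    · rw [sum_cc_none G i (fun S j => T j (z S))]
      intro hS
      rw [h1 S hS, map_zero]
    · rw [sum_cc_bd G i (fun S j => T j (z S))]
      rw [← h3 S]
      refine Finset.sum_congr rfl fun v _ => ?_
      rw [h0]
      rfl
    · rw [sum_cc_anti G i (fun S j => T j (z S))]
      intro hv
      rw [h0]
      exact h2' S v hv
  · intro h
    refine ⟨fun S hS => ?_, fun S v hv => ?_, fun S => ?_⟩
    · have h1 := h (S, none)
      rw [sum_cc_none G i (fun S j => T j (z S))] at h1
      have h2 := h1 hS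
      rw [h0] at h2
      exact h2
    · have h1 := h (S, some (some v))
      rw [sum_cc_anti G i (fun S j => T j (z S))] at h1
      have h2 := h1 hv
      rw [h0] at h2
      exact h2
    · have h1 := h (S, some none)
      rw [sum_cc_bd G i (fun S j => T j (z S))] at h1
      rw [← h1]
      refine Finset.sum_congr rfl fun v _ => ?_
      rw [h0]
      rfl

theorem vdim_Cy_le_p (G : SimpleGraph V) (p : ℕ) [Fact p.Prime] (hp : p ≠ 2) {k : Type} [Field k] [Finite k]
    [CharP k p] {M : Type} [AddCommGroup M] [Module k M] [FiniteDimensional k M] (ρ : RACG G →* (M →ₗ[k] M))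
    (h2 : ∀ g ∈ commutator (RACG G), ∃ m : ℕ, ρ (g ^ p ^ m) = 1) (i C : ℕ)
    (hC : ∀ χ : V → ℤˣ, Module.finrank k (ZT G (fun v => 1 + ((χ v : ℤˣ) : ℤ) • ρ (Racg.gen G v)) i) ≤ C) :
    vdim (Cy rk G (Racg.gen G) Finset.univ i) * Module.finrank k M ≤ C := by
  refine vdim_le_mod_p (commutator (RACG G)) (racg_sq_mem G) p hp (racg_res_p G p hp) (cc G i) (gn G) _
    (Cy_eq_SolL G i) ρ h2 C fun χ => ?_
  have h3 := ZT_eq_SolM G i (fun j => ((χ (gn G j) : ℤˣ) : ℤ) • ρ (gn G j)) (by
    have h4 : gn G none = 1 := rfl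
    rw [h4, map_one, map_one, Units.val_one, one_smul])
  rw [← h3]
  exact hC fun v => χ (Racg.gen G v)

end ZE

end Re
end Singer
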