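import Mathlib

/-!
# Singer/Real: eigenvectors with a sign character

A finite group with a normal `p`-subgroup which contains all squares: every nonzero module over a finite field of odd
characteristic `p` has an eigenvector whose character has values `1`, `-1`.
-/

set_option autoImplicit false
set_option linter.unusedSectionVars false
set_option linter.unusedVariables false

namespace Singer
namespace Re

namespace Eig

/-- a nonzero vector fixed by a `p`-subgroup -/
theorem exists_fixed {Q : Type} [Group Q] [Finite Q] (N : Subgroup Q) (p : ℕ)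
    [Fact p.Prime] (hN : IsPGroup p N) {k : Type} [Field k] [Finite k] [CharP k p] {U : Type}
    [AddCommGroup U] [Module k U] [FiniteDimensional k U] [Nontrivial U] (r : Q →* (U →ₗ[k] U)) :
    ∃ u : U, u ≠ 0 ∧ ∀ n ∈ N, r n u = u := by
  have : Finite U := Module.finite_of_finite k
  let _ : MulAction N U :=
    { smul := fun n u => r (n : Q) u
      one_smul := fun u => by
        show r ((1 : N) : Q) u = u
        rw [Subgroup.coe_one, map_one]; rfl
      mul_smul := fun a b u => by
        show r ((a * b : N) : Q) u = r (a : Q) (r (b : Q) u)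
        rw [Subgroup.coe_mul, map_mul]; rfl }
  have h0 : (0 : U) ∈ MulAction.fixedPoints N U := fun n => map_zero (r (n : Q))
  have hdvd : p ∣ Nat.card U := by
    obtain ⟨x, hx⟩ := exists_ne (0 : U)
    have h1 : addOrderOf x = p := by
      refine addOrderOf_eq_prime ?_ hx
      have : ((p : ℕ) : k) • x = 0 := by rw [CharP.cast_eq_zero, zero_smul]
      rwa [Nat.cast_smul_eq_nsmul] at this
    rw [← h1]
    exact addOrderOf_dvd_natCard x
  obtain ⟨u, hu, hne⟩ := hN.exists_fixed_point_of_prime_dvd_card_of_fixed_point U hdvd h0
  exact ⟨u, fun h => hne h.symm, fun n hn => hu ⟨n, hn⟩⟩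

end Eig

open Eig

/-- a finite group `Q` with a normal `p`-subgroup which contains all squares: every nonzero module has an eigenvector -/
theorem exists_eig {Q : Type} [Group Q] [Finite Q] (N : Subgroup Q) [N.Normal] (hsq : ∀ q, q * q ∈ N) (p : ℕ)
    [Fact p.Prime] (hp : p ≠ 2) (hN : IsPGroup p N) {k : Type} [Field k] [Finite k] [CharP k p] {U : Type}
    [AddCommGroup U] [Module k U] [FiniteDimensional k U] [Nontrivial U] (r : Q →* (U →ₗ[k] U)) :
    ∃ (u : U) (χ : Q →* ℤˣ), u ≠ 0 ∧ ∀ q, r q u = ((χ q : ℤˣ) : ℤ) • u := by
  classical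
  have h2 : (2 : k) ≠ 0 := by
    intro h
    have h3 : ((2 : ℕ) : k) = 0 := by exact_mod_cast h
    rw [CharP.cast_eq_zero_iff k p] at h3
    exact hp ((Nat.prime_dvd_prime_iff_eq Fact.out Nat.prime_two).1 h3)
  have hr : ∀ a b : Q, ∀ u : U, r a (r b u) = r (a * b) u := fun a b u => by rw [map_mul]; rfl
  -- commutators are in `N`
  have hcomm : ∀ a b : Q, (a * b)⁻¹ * (b * a) ∈ N := by
    intro a b
    have h3 : (a * b)⁻¹ * (b * a) = (b⁻¹ * a⁻¹ * (b⁻¹ * a⁻¹)) * (a * (b * b) * a⁻¹) * (a * a) := by group
    rw [h3]
    exact N.mul_mem (N.mul_mem (hsq _) (Subgroup.Normal.conj_mem inferInstance _ (hsq _) _)) (hsq _)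
  have key : ∀ S : Finset Q, ∃ u : U, u ≠ 0 ∧ (∀ n ∈ N, r n u = u) ∧ ∀ q ∈ S, r q u = u ∨ r q u = -u := by
    intro S
    induction S using Finset.induction_on with
    | empty =>
      obtain ⟨u, h3, h4⟩ := exists_fixed N p hN r
      exact ⟨u, h3, h4, fun q hq => absurd hq (Finset.notMem_empty q)⟩
    | insert a S ha ih =>
      obtain ⟨u, hu0, huN, huS⟩ := ih
      have hca : ∀ q, r q (r a u) = r a (r q u) := by
        intro q
        rw [hr, hr, show q * a = (a * q) * ((a * q)⁻¹ * (q * a)) by group, ← hr, huN _ (hcomm a q)]
      have haa : r a (r a u) = u := by rw [hr]; exact huN _ (hsq a)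
      have hNa : ∀ n ∈ N, r n (r a u) = r a u := by
        intro n hn
        rw [hca, huN n hn]
      by_cases h3 : u + r a u = 0
      · refine ⟨u - r a u, ?_, ?_, ?_⟩
        · intro h4
          have h5 : (2 : k) • u = 0 := by
            rw [two_smul]
            have : u + u = (u + r a u) + (u - r a u) := by abel
            rw [this, h3, h4, add_zero]
          rcases smul_eq_zero.1 h5 with h6 | h6
          · exact h2 h6
          · exact hu0 h6
        · intro n hn
          rw [map_sub, huN n hn, hNa n hn]
        · intro q hq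
          rcases Finset.mem_insert.1 hq with rfl | hq
          · right
            rw [map_sub, haa, neg_sub]
          · rcases huS q hq with h5 | h5
            · left
              rw [map_sub, hca, h5]
            · right
              rw [map_sub, hca, h5, map_neg]
              abel
      · refine ⟨u + r a u, h3, ?_, ?_⟩
        · intro n hn
          rw [map_add, huN n hn, hNa n hn]
        · intro q hq
          rcases Finset.mem_insert.1 hq with rfl | hq
          · left
            rw [map_add, haa, add_comm]
          · rcases huS q hq with h5 | h5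
            · left
              rw [map_add, hca, h5]
            · right
              rw [map_add, hca, h5, map_neg]
              abel
  have : Fintype Q := Fintype.ofFinite Q
  obtain ⟨u, hu0, -, hu⟩ := key Finset.univ
  have hne : u ≠ -u := by
    intro h
    have h5 : (2 : k) • u = 0 := by
      rw [two_smul]
      nth_rewrite 2 [h]
      rw [add_neg_cancel]
    rcases smul_eq_zero.1 h5 with h6 | h6
    · exact h2 h6
    · exact hu0 h6
  have hex : ∀ q, ∃ c : ℤˣ, r q u = (c : ℤ) • u := by
    intro q
    rcases hu q (Finset.mem_univ q) with h | h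
    · exact ⟨1, by rw [h]; simp⟩
    · exact ⟨-1, by rw [h]; simp⟩
  choose c hc using hex
  have huniq : ∀ a b : ℤˣ, (a : ℤ) • u = (b : ℤ) • u → a = b := by
    intro a b h
    rcases Int.units_eq_one_or a with rfl | rfl <;> rcases Int.units_eq_one_or b with rfl | rfl
    · rfl
    · exact absurd (by simpa using h) hne
    · exact absurd (by simpa using h.symm) hne
    · rfl
  refine ⟨u, ⟨⟨c, ?_⟩, ?_⟩, hu0, hc⟩
  · apply huniq
    rw [← hc, map_one]
    simp
  · intro a b
    apply huniq
    rw [← hc, ← hr, hc b, map_zsmul, hc a, Units.val_mul, mul_smul, smul_comm]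

end Re
end Singer
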