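import Mathlib

/-!
# Singer/Real: specialisation of finitely generated subrings of a field to finite fields
-/

set_option autoImplicit false
set_option linter.unusedSectionVars false
set_option linter.unusedVariables false

namespace Singer
namespace Re

theorem isJacobsonRing_int : IsJacobsonRing ℤ := by
  rw [isJacobsonRing_iff_prime_eq]
  intro P hP
  by_cases h0 : P = ⊥
  · subst h0
    refine le_antisymm (fun x hx => ?_) Ideal.le_jacobson
    rw [Ideal.mem_bot]
    by_contra hne
    obtain ⟨p, hp1, hp2⟩ := Nat.exists_infinite_primes (x.natAbs + 1)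
    rw [Ideal.jacobson, Ideal.mem_sInf] at hx
    have hmax : (Ideal.span {(p : ℤ)}).IsMaximal :=
      PrincipalIdealRing.isMaximal_of_irreducible (Nat.prime_iff_prime_int.mp hp2).irreducible
    have h1 := hx (I := Ideal.span {(p : ℤ)}) ⟨bot_le, hmax⟩
    rw [Ideal.mem_span_singleton] at h1
    have h2 := Int.natAbs_dvd_natAbs.mpr h1
    rw [Int.natAbs_natCast] at h2
    have h3 := Nat.le_of_dvd (Int.natAbs_pos.mpr hne) h2
    omega
  · have hmax : P.IsMaximal := IsPrime.to_maximal_ideal h0
    exact Ideal.jacobson_eq_self_of_isMaximal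

/-- a field which is finitely generated over `ℤ` is finite -/
theorem finite_of_finiteType (k : Type) [Field k] (h : Algebra.FiniteType ℤ k) : Finite k := by
  have h1 := isJacobsonRing_int
  have h2 : Module.Finite ℤ k := finite_of_finite_type_of_isJacobsonRing ℤ k
  obtain ⟨p, hp⟩ := CharP.exists k
  rcases Nat.eq_zero_or_pos p with h3 | h3
  · exfalso
    subst h3
    have h4 : CharZero k := CharP.charP_to_charZero k
    have h5 : Algebra.IsIntegral ℤ k := Algebra.IsIntegral.of_finite ℤ k
    have h6 : IsField ℤ := isField_of_isIntegral_of_isField (R := ℤ) (S := k)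
      (algebraMap ℤ k).injective_int (Field.toIsField k)
    exact Int.not_isField h6
  · have _ : NeZero p := ⟨h3.ne'⟩
    let _ : Algebra (ZMod p) k := ZMod.algebra k p
    have h4 : Module.Finite (ZMod p) k := by
      refine ⟨?_⟩
      obtain ⟨s, hs⟩ := h2.1
      refine ⟨s, ?_⟩
      rw [eq_top_iff]
      intro x _
      have hx : x ∈ Submodule.span ℤ (s : Set k) := by rw [hs]; trivial
      induction hx using Submodule.span_induction with
      | mem x hx => exact Submodule.subset_span hx
      | zero => exact Submodule.zero_mem _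
      | add x y _ _ hx hy => exact Submodule.add_mem _ (hx trivial) (hy trivial)
      | smul a x _ hx =>
        rw [← Int.cast_smul_eq_zsmul (ZMod p)]
        exact Submodule.smul_mem _ _ (hx trivial)
    exact Module.finite_of_finite (ZMod p)

/-- a nonzero element of a finitely generated domain has a nonzero value in a finite field -/
theorem exists_spec {A : Type} [CommRing A] [IsDomain A] (hA : Algebra.FiniteType ℤ A) (x : A) (hx : x ≠ 0) :
    ∃ (k : Type) (_ : Field k) (_ : Finite k) (ψ : A →+* k), ψ x ≠ 0 := by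
  have h1 := isJacobsonRing_int
  have h2 : IsJacobsonRing A := isJacobsonRing_of_finiteType (A := ℤ) (B := A)
  have h3 : (⊥ : Ideal A).jacobson = ⊥ := h2.out (Ideal.isPrime_bot.isRadical)
  have h4 : x ∉ (⊥ : Ideal A).jacobson := by
    rw [h3, Ideal.mem_bot]
    exact hx
  rw [Ideal.jacobson, Ideal.mem_sInf] at h4
  push Not at h4
  obtain ⟨m, ⟨-, hm⟩, hxm⟩ := h4
  let f : Field (A ⧸ m) := Ideal.Quotient.field m
  have h5 : Algebra.FiniteType ℤ (A ⧸ m) := by
    have h6 : (Ideal.Quotient.mkₐ ℤ m).FiniteType := AlgHom.FiniteType.of_surjective _ (Ideal.Quotient.mkₐ_surjective ℤ m)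
    exact hA.of_surjective (Ideal.Quotient.mkₐ ℤ m) (Ideal.Quotient.mkₐ_surjective ℤ m)
  refine ⟨A ⧸ m, f, finite_of_finiteType (A ⧸ m) h5, Ideal.Quotient.mk m, ?_⟩
  rw [Ne, Ideal.Quotient.eq_zero_iff_mem]
  exact hxm

end Re
end Singer
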