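import Pool.Agent.Singer.Ord.ModTwo
import Pool.Agent.Singer.Real.Eig

/-!
# Singer/Real: linear systems over finite fields of odd characteristic

* `finrank_group_le` : for a finite group with a normal `p`-subgroup which contains all squares, the solutions on the
  group are bounded by the solutions in the twists of a module by the characters with values `1`, `-1`;
* `vdim_le_mod_p` : the bound for the von Neumann dimension.
-/

set_option autoImplicit false
set_option linter.unusedSectionVars false
set_option linter.unusedVariables false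

namespace Singer
namespace Re

open Singer.Ord Singer.Ord.ModTwo

namespace MdP

/-- the solutions over `ℂ` are bounded by the solutions over any field -/
theorem finrank_sol_le {κ ι J : Type} [Fintype κ] [Fintype ι] [Fintype J] (c : κ → ι → J → ℤ) {Q : Type} [Group Q]
    [Fintype Q] (s : J → Q) (k : Type) [Field k] :
    Module.finrank ℂ (SolQ (Q := Q) ℂ c s) ≤ Module.finrank k (SolQ (Q := Q) k c s) := by
  have h1 := finrank_solQ (K := ℂ) c s
  have h2 := finrank_solQ (K := k) c s
  have h3 : ((mat c s).map (Int.castRingHom k)).rank ≤ ((mat c s).map (Int.castRingHom ℂ)).rank := by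
    obtain ⟨a, b, h⟩ := exists_minor ((mat c s).map (Int.castRingHom k))
    refine rank_ge _ a b ?_
    have e1 : ((mat c s).map (Int.castRingHom k)).submatrix a b =
        (Int.castRingHom k).mapMatrix ((mat c s).submatrix a b) := rfl
    have e2 : ((mat c s).map (Int.castRingHom ℂ)).submatrix a b =
        (Int.castRingHom ℂ).mapMatrix ((mat c s).submatrix a b) := rfl
    rw [e1, ← RingHom.map_det] at h
    rw [e2, ← RingHom.map_det]
    intro h2
    apply h
    have h3 : ((mat c s).submatrix a b).det = 0 := by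
      have : ((((mat c s).submatrix a b).det : ℤ) : ℂ) = 0 := h2
      exact_mod_cast this
    rw [h3, map_zero]
  omega

section ind
variable {Q : Type} [Group Q] {k : Type} [Field k] {M : Type} [AddCommGroup M] [Module k M]

/-- the operator of `h` on the linear maps `U → M` -/
def Op {U : Type} [AddCommGroup U] [Module k U] (r : Q →* (U →ₗ[k] U)) (ρ : Q →* (M →ₗ[k] M)) (h : Q) :
    (U →ₗ[k] M) →ₗ[k] (U →ₗ[k] M) where
  toFun f := (ρ h).comp (f.comp (r h⁻¹))
  map_add' f g := by
    apply LinearMap.ext
    intro x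
    exact map_add (ρ h) _ _
  map_smul' a f := by
    apply LinearMap.ext
    intro x
    exact map_smul (ρ h) _ _

theorem Op_apply {U : Type} [AddCommGroup U] [Module k U] (r : Q →* (U →ₗ[k] U)) (ρ : Q →* (M →ₗ[k] M)) (h : Q)
    (f : U →ₗ[k] M) (x : U) : Op r ρ h f x = ρ h (f (r h⁻¹ x)) := rfl

theorem finrank_op_le [Finite Q] (N : Subgroup Q) [N.Normal] (hsq : ∀ q, q * q ∈ N) (p : ℕ) [Fact p.Prime]
    (hp : p ≠ 2) (hN : IsPGroup p N) [Finite k] [CharP k p] [FiniteDimensional k M]
    {κ ι J : Type} [Fintype κ] [Fintype ι] [Fintype J] (c : κ → ι → J → ℤ) (s : J → Q)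
    (ρ : Q →* (M →ₗ[k] M)) (C : ℕ)
    (hC : ∀ χ : Q →* ℤˣ, Module.finrank k (SolM c (fun j => ((χ (s j) : ℤˣ) : ℤ) • ρ (s j))) ≤ C) (n : ℕ) :
    ∀ (U : Type) [AddCommGroup U] [Module k U] [FiniteDimensional k U] (r : Q →* (U →ₗ[k] U)),
      Module.finrank k U = n → Module.finrank k (SolM c (fun j => Op r ρ (s j))) ≤ n * C := by
  induction n with
  | zero =>
    intro U _ _ _ r hU
    have hs : Subsingleton U := Module.finrank_zero_iff.1 hU
    have hs2 : Subsingleton (U →ₗ[k] M) := ⟨fun f g => LinearMap.ext fun x => by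
      rw [Subsingleton.elim x 0, map_zero, map_zero]⟩
    have hs3 : Subsingleton (SolM c (fun j => Op r ρ (s j))) :=
      ⟨fun f g => Subtype.ext (funext fun i => Subsingleton.elim _ _)⟩
    rw [zero_mul, Module.finrank_zero_of_subsingleton]
  | succ n ih =>
    intro U _ _ _ r hU
    have hnt : Nontrivial U := Module.nontrivial_of_finrank_pos (R := k) (by omega)
    obtain ⟨u, χ, hu0, hu⟩ := exists_eig N hsq p hp hN r
    let Y : Submodule k U := Submodule.span k {u}
    have hY : ∀ q, Y ≤ Y.comap (r q) := by
      intro q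
      rw [Submodule.span_le, Set.singleton_subset_iff]
      show r q u ∈ Y
      rw [hu q]
      exact Y.smul_of_tower_mem _ (Submodule.mem_span_singleton_self u)
    let r' : Q →* ((U ⧸ Y) →ₗ[k] (U ⧸ Y)) :=
      { toFun := fun q => Y.mapQ Y (r q) (hY q)
        map_one' := by
          apply Submodule.linearMap_qext
          apply LinearMap.ext
          intro x
          show Submodule.Quotient.mk (r 1 x) = Submodule.Quotient.mk x
          rw [map_one]; rfl
        map_mul' := fun a b => by
          apply Submodule.linearMap_qext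
          apply LinearMap.ext
          intro x
          show Submodule.Quotient.mk (r (a * b) x) = Submodule.Quotient.mk (r a (r b x))
          rw [map_mul]; rfl }
    have hfr : Module.finrank k (U ⧸ Y) = n := by
      have h1 := Submodule.finrank_quotient_add_finrank Y
      have h2 : Module.finrank k Y = 1 := finrank_span_singleton hu0
      omega
    have h1 := ih (U ⧸ Y) r' hfr
    -- evaluation at the eigenvector
    let Φ : SolM c (fun j => Op r ρ (s j)) →ₗ[k] SolM c (fun j => ((χ (s j) : ℤˣ) : ℤ) • ρ (s j)) :=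
      { toFun := fun f => ⟨fun i => f.1 i u, fun l => by
          have h3 := congrArg (fun F : U →ₗ[k] M => F u) (f.2 l)
          simp only [LinearMap.coe_sum, Finset.sum_apply, LinearMap.smul_apply, LinearMap.zero_apply] at h3
          rw [← h3]
          refine Finset.sum_congr rfl fun i _ => Finset.sum_congr rfl fun j _ => ?_
          have h4 : χ (s j)⁻¹ = χ (s j) := by rw [map_inv, Int.units_inv_eq_self]
          rw [Op_apply, hu, h4, map_zsmul, map_zsmul]
          rfl⟩
        map_add' := fun f g => Subtype.ext (funext fun i => rfl)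
        map_smul' := fun a f => Subtype.ext (funext fun i => rfl) }
    let Ψ : SolM c (fun j => Op r' ρ (s j)) →ₗ[k] (ι → (U →ₗ[k] M)) :=
      { toFun := fun f i => (f.1 i).comp Y.mkQ
        map_add' := fun f g => rfl
        map_smul' := fun a f => rfl }
    have h2 := LinearMap.finrank_range_add_finrank_ker Φ
    have h3 : Module.finrank k (LinearMap.range Φ) ≤ C := (Submodule.finrank_le _).trans (hC χ)
    have h4 : Module.finrank k (LinearMap.ker Φ) ≤ Module.finrank k (SolM c (fun j => Op r' ρ (s j))) := by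
      have h6 : Module.finrank k (LinearMap.ker Φ) =
          Module.finrank k ((LinearMap.ker Φ).map (SolM c (fun j => Op r ρ (s j))).subtype) :=
        (Submodule.finrank_map_subtype_eq _ _).symm
      have h7 : (LinearMap.ker Φ).map (SolM c (fun j => Op r ρ (s j))).subtype ≤ LinearMap.range Ψ := by
        rintro _ ⟨f, hf, rfl⟩
        have hf' : ∀ i, f.1 i u = 0 := fun i =>
          congrFun (congrArg Subtype.val (LinearMap.mem_ker.1 hf)) i
        have hker : ∀ i, Y ≤ LinearMap.ker (f.1 i) := by
          intro i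
          rw [Submodule.span_le, Set.singleton_subset_iff]
          exact hf' i
        refine ⟨⟨fun i => Y.liftQ (f.1 i) (hker i), fun l => ?_⟩, funext fun i => ?_⟩
        · apply Submodule.linearMap_qext
          apply LinearMap.ext
          intro x
          have h8 := congrArg (fun F : U →ₗ[k] M => F x) (f.2 l)
          simp only [LinearMap.coe_sum, Finset.sum_apply, LinearMap.smul_apply, LinearMap.zero_apply] at h8
          simp only [LinearMap.comp_apply, LinearMap.coe_sum, Finset.sum_apply, LinearMap.smul_apply,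
            LinearMap.zero_apply]
          exact h8
        · exact Submodule.liftQ_mkQ _ _ _
      rw [h6]
      exact (Submodule.finrank_mono h7).trans (LinearMap.finrank_range_le Ψ)
    calc Module.finrank k (SolM c (fun j => Op r ρ (s j)))
        = Module.finrank k (LinearMap.range Φ) + Module.finrank k (LinearMap.ker Φ) := h2.symm
      _ ≤ C + n * C := add_le_add h3 (h4.trans h1)
      _ = (n + 1) * C := by ring

/-- the right regular representation on the functions -/
def reg (Q : Type) [Group Q] (k : Type) [Field k] : Q →* ((Q → k) →ₗ[k] (Q → k)) where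
  toFun h :=
    { toFun := fun x g => x (g * h)
      map_add' := fun x y => rfl
      map_smul' := fun a x => rfl }
  map_one' := by
    apply LinearMap.ext
    intro x
    funext g
    show x (g * 1) = x g
    rw [mul_one]
  map_mul' a b := by
    apply LinearMap.ext
    intro x
    funext g
    show x (g * (a * b)) = x (g * a * b)
    rw [mul_assoc]

theorem reg_apply (h : Q) (x : Q → k) (g : Q) : reg Q k h x g = x (g * h) := rfl

end ind

end MdP

open MdP

/-- functions on `Q` with values in a module -/
theorem finrank_group_le {κ ι J : Type} [Fintype κ] [Fintype ι] [Fintype J] (c : κ → ι → J → ℤ) {Q : Type} [Group Q]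
    [Fintype Q] (N : Subgroup Q) [N.Normal] (hsq : ∀ q, q * q ∈ N) (p : ℕ) [Fact p.Prime] (hp : p ≠ 2)
    (hN : IsPGroup p N) (s : J → Q) {k : Type} [Field k] [Finite k] [CharP k p] {M : Type} [AddCommGroup M] [Module k M]
    [FiniteDimensional k M] (ρ : Q →* (M →ₗ[k] M)) (C : ℕ)
    (hC : ∀ χ : Q →* ℤˣ, Module.finrank k (SolM c (fun j => ((χ (s j) : ℤˣ) : ℤ) • ρ (s j))) ≤ C) :
    Module.finrank k (SolQ (Q := Q) k c s) * Module.finrank k M ≤ Fintype.card Q * C := by
  classical
  have h1 := finrank_op_le N hsq p hp hN c s ρ C hC (Fintype.card Q) (Q → k) (reg Q k)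
    (Module.finrank_fintype_fun_eq_card k)
  refine le_trans ?_ h1
  let b := Module.finBasis k M
  have hρ : ∀ g h : Q, ∀ x : M, ρ g (ρ h x) = ρ (g * h) x := fun g h x => by rw [map_mul]; rfl
  -- the functions on the group as linear maps
  let F : (Fin (Module.finrank k M) → SolQ (Q := Q) k c s) → ι → Q → M :=
    fun f i g => ρ g⁻¹ (∑ a, (f a).1 g i • b a)
  let L : (Q → M) →ₗ[k] ((Q → k) →ₗ[k] M) :=
    { toFun := fun G =>
        { toFun := fun x => ∑ g, x g • G g
          map_add' := fun x y => by simp only [Pi.add_apply, add_smul, Finset.sum_add_distrib]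
          map_smul' := fun a x => by
            simp only [Pi.smul_apply, smul_eq_mul, mul_smul, ← Finset.smul_sum, RingHom.id_apply] }
      map_add' := fun G H => by
        apply LinearMap.ext
        intro x
        show ∑ g, x g • (G g + H g) = ∑ g, x g • G g + ∑ g, x g • H g
        simp only [smul_add, Finset.sum_add_distrib]
      map_smul' := fun a G => by
        apply LinearMap.ext
        intro x
        show ∑ g, x g • (a • G g) = a • ∑ g, x g • G g
        rw [Finset.smul_sum]
        exact Finset.sum_congr rfl fun g _ => smul_comm _ _ _ }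
  have hL : ∀ G x, L G x = ∑ g, x g • G g := fun G x => rfl
  have hop : ∀ h G, Op (reg Q k) ρ h (L G) = L (fun g => ρ h (G (g * h))) := by
    intro h G
    apply LinearMap.ext
    intro x
    rw [Op_apply, hL, hL, map_sum]
    rw [← Equiv.sum_comp (Equiv.mulRight h)]
    refine Finset.sum_congr rfl fun g _ => ?_
    rw [Equiv.coe_mulRight, reg_apply, mul_inv_cancel_right, map_smul]
  let Φ : (Fin (Module.finrank k M) → SolQ (Q := Q) k c s) →ₗ[k] SolM c (fun j => Op (reg Q k) ρ (s j)) :=
    { toFun := fun f => ⟨fun i => L (F f i), fun l => by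
        have e0 : ∀ i j, c l i j • Op (reg Q k) ρ (s j) (L (F f i)) =
            L (c l i j • fun g => ρ (s j) (F f i (g * s j))) := by
          intro i j
          rw [hop, map_zsmul]
        simp only [e0]
        simp only [← map_sum]
        rw [show (∑ i, ∑ j, c l i j • fun g => ρ (s j) (F f i (g * s j))) = 0 from ?_, map_zero]
        funext g
        have e1 : ∀ i j, ρ (s j) (F f i (g * s j)) = ρ g⁻¹ (∑ a, (f a).1 (g * s j) i • b a) := by
          intro i j
          show ρ (s j) (ρ (g * s j)⁻¹ _) = _
          rw [hρ, mul_inv_rev, mul_inv_cancel_left]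
        have e2 : (∑ i, ∑ j, c l i j • fun g => ρ (s j) (F f i (g * s j))) g =
            ρ g⁻¹ (∑ a, (∑ i, ∑ j, (c l i j : k) * (f a).1 (g * s j) i) • b a) := by
          simp only [Finset.sum_apply, Pi.smul_apply, e1]
          simp only [Finset.sum_smul, map_sum]
          rw [Finset.sum_comm (s := (Finset.univ : Finset (Fin (Module.finrank k M))))]
          refine Finset.sum_congr rfl fun i _ => ?_
          rw [Finset.sum_comm (s := (Finset.univ : Finset (Fin (Module.finrank k M))))]
          refine Finset.sum_congr rfl fun j _ => ?_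
          rw [Finset.smul_sum]
          refine Finset.sum_congr rfl fun a _ => ?_
          rw [mul_smul, map_smul, map_smul, map_smul, Int.cast_smul_eq_zsmul]
        rw [e2]
        have e3 : ∀ a, ∑ i, ∑ j, (c l i j : k) * (f a).1 (g * s j) i = 0 := fun a => (f a).2 g l
        simp only [e3, zero_smul, Finset.sum_const_zero, map_zero]
        rfl⟩
      map_add' := fun f f' => by
        apply Subtype.ext
        funext i
        show L (F (f + f') i) = L (F f i) + L (F f' i)
        rw [← map_add]
        congr 1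
        funext g
        show ρ g⁻¹ (∑ a, ((f a).1 g i + (f' a).1 g i) • b a) = _
        simp only [add_smul, Finset.sum_add_distrib, map_add]
        rfl
      map_smul' := fun t f => by
        apply Subtype.ext
        funext i
        show L (F (t • f) i) = t • L (F f i)
        rw [← map_smul]
        congr 1
        funext g
        show ρ g⁻¹ (∑ a, (t * (f a).1 g i) • b a) = _
        simp only [mul_smul, ← Finset.smul_sum, map_smul]
        rfl }
  have hΦ : Function.Injective Φ := by
    intro f f' h
    funext a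
    apply Subtype.ext
    funext g i
    have h2 : L (F f i) = L (F f' i) := congrFun (congrArg Subtype.val h) i
    have h3 : F f i g = F f' i g := by
      have h4 := congrArg (fun G : (Q → k) →ₗ[k] M => G (Pi.single g 1)) h2
      simp only [hL] at h4
      rw [Finset.sum_eq_single g, Finset.sum_eq_single g] at h4
      · simpa using h4
      · intro g' _ hg'
        rw [Pi.single_eq_of_ne hg', zero_smul]
      · intro hg; exact absurd (Finset.mem_univ g) hg
      · intro g' _ hg'
        rw [Pi.single_eq_of_ne hg', zero_smul]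
      · intro hg; exact absurd (Finset.mem_univ g) hg
    have h3' : ρ g⁻¹ (∑ a, (f a).1 g i • b a) = ρ g⁻¹ (∑ a, (f' a).1 g i • b a) := h3
    have h4 := congrArg (ρ g) h3'
    rw [hρ, hρ, mul_inv_cancel, map_one, Module.End.one_apply, Module.End.one_apply] at h4
    have h5 := b.linearIndependent
    rw [← sub_eq_zero, ← Finset.sum_sub_distrib] at h4
    simp only [← sub_smul] at h4
    exact sub_eq_zero.1 (Fintype.linearIndependent_iff.1 h5 _ h4 a)
  have h2 := LinearMap.finrank_le_finrank_of_injective hΦ
  rw [Module.finrank_pi_fintype, Finset.sum_const, Finset.card_univ, Fintype.card_fin, smul_eq_mul,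
    mul_comm] at h2
  exact h2

namespace MdP

/-- finitely many elements are detected by one finite quotient -/
theorem res_finset {Γ : Type} [Group Γ] (Γ0 : Subgroup Γ) (p : ℕ) (hres : ∀ g : Γ, g ≠ 1 → ∃ (Q : Type)
      (_ : Group Q) (_ : Fintype Q) (π : Γ →* Q), IsPGroup p (Γ0.map π) ∧ π g ≠ 1) (S : Finset Γ) (hS : 1 ∉ S) :
    ∃ (Q : Type) (_ : Group Q) (_ : Fintype Q) (π : Γ →* Q), (∀ g ∈ Γ0, ∃ m : ℕ, π g ^ p ^ m = 1) ∧
      ∀ g ∈ S, π g ≠ 1 := by
  classical
  induction S using Finset.induction_on with
  | empty =>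
    exact ⟨Unit, inferInstance, inferInstance, 1, fun g _ => ⟨0, rfl⟩,
      fun g hg => absurd hg (Finset.notMem_empty g)⟩
  | insert a S ha ih =>
    obtain ⟨Q1, i1, j1, π1, h1, h2⟩ := hres a (fun h => hS (h ▸ Finset.mem_insert_self a S))
    obtain ⟨Q2, i2, j2, π2, h3, h4⟩ := ih (fun h => hS (Finset.mem_insert_of_mem h))
    refine ⟨Q1 × Q2, inferInstance, inferInstance, π1.prod π2, fun g hg => ?_, fun g hg h => ?_⟩
    · obtain ⟨k, hk⟩ := h1 ⟨π1 g, Subgroup.mem_map_of_mem π1 hg⟩
      obtain ⟨l, hl⟩ := h3 g hg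
      have hk' : π1 g ^ p ^ k = 1 := congrArg Subtype.val hk
      refine ⟨k + l, Prod.ext ?_ ?_⟩
      · show π1 g ^ p ^ (k + l) = 1
        rw [pow_add, pow_mul, hk', one_pow]
      · show π2 g ^ p ^ (k + l) = 1
        rw [add_comm, pow_add, pow_mul, hl, one_pow]
    · rcases Finset.mem_insert.1 hg with rfl | hg
      · exact h2 (congrArg Prod.fst h)
      · exact h4 g hg (congrArg Prod.snd h)

end MdP

/-- the bound for the von Neumann dimension by modules over finite fields of odd characteristic -/
theorem vdim_le_mod_p {Γ : Type} [Group Γ] (Γ0 : Subgroup Γ) [Γ0.Normal] (hsq : ∀ g, g * g ∈ Γ0) (p : ℕ)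
    [Fact p.Prime] (hp : p ≠ 2)
    (hres : ∀ g : Γ, g ≠ 1 → ∃ (Q : Type) (_ : Group Q) (_ : Fintype Q) (π : Γ →* Q), IsPGroup p (Γ0.map π) ∧ π g ≠ 1)
    {κ ι J : Type} [Fintype κ] [Fintype ι] [DecidableEq ι] [Fintype J]
    (c : κ → ι → J → ℤ) (s : J → Γ) (W : Submodule ℂ (E Γ ι)) (hW : (W : Set (E Γ ι)) = SolL c s)
    {k : Type} [Field k] [Finite k] [CharP k p] {M : Type} [AddCommGroup M] [Module k M] [FiniteDimensional k M]
    (ρ : Γ →* (M →ₗ[k] M)) (h2 : ∀ g ∈ Γ0, ∃ m : ℕ, ρ (g ^ p ^ m) = 1) (C : ℕ)
    (hC : ∀ χ : Γ →* ℤˣ, Module.finrank k (SolM c (fun j => ((χ (s j) : ℤˣ) : ℤ) • ρ (s j))) ≤ C) :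
    vdim W * Module.finrank k M ≤ C := by
  classical
  set d : ℝ := (Module.finrank k M : ℝ) with hd
  have hd0 : 0 ≤ d := Nat.cast_nonneg _
  refine le_of_forall_pos_le_add fun ε hε => ?_
  have hε' : 0 < ε / (d + 1) := div_pos hε (by linarith)
  obtain ⟨S, hS, hQ⟩ := luck c s W hW (ε / (d + 1)) hε'
  obtain ⟨Q1, i1, j1, π1, h3, h4⟩ := res_finset Γ0 p hres S hS
  have : Finite M := Module.finite_of_finite k
  have : Finite (M →ₗ[k] M) :=
    Finite.of_injective (fun f : M →ₗ[k] M => (f : M → M)) DFunLike.coe_injective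
  have : Finite (M →ₗ[k] M)ˣ :=
    Finite.of_injective (fun u : (M →ₗ[k] M)ˣ => (u : M →ₗ[k] M)) Units.val_injective
  let ρu : Γ →* (M →ₗ[k] M)ˣ := MonoidHom.toHomUnits ρ
  let π0 : Γ →* Q1 × (M →ₗ[k] M)ˣ := π1.prod ρu
  let Q := π0.range
  let fQ : Fintype Q := Fintype.ofFinite _
  let π : Γ →* Q := π0.rangeRestrict
  have hπ : Function.Surjective π := π0.rangeRestrict_surjective
  let N : Subgroup Q := Γ0.map π
  have hNn : N.Normal := Subgroup.Normal.map inferInstance π hπ
  have hNsq : ∀ q : Q, q * q ∈ N := by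
    intro q
    obtain ⟨g, rfl⟩ := hπ q
    rw [← map_mul]
    exact Subgroup.mem_map_of_mem π (hsq g)
  have hNp : IsPGroup p N := by
    rintro ⟨x, hx⟩
    obtain ⟨g, hg, rfl⟩ := Subgroup.mem_map.1 hx
    obtain ⟨m, hm⟩ := h2 g hg
    obtain ⟨l, hl⟩ := h3 g hg
    refine ⟨m + l, Subtype.ext ?_⟩
    show π g ^ p ^ (m + l) = 1
    apply Subtype.ext
    show (π0 g) ^ p ^ (m + l) = 1
    refine Prod.ext ?_ ?_
    · show π1 g ^ p ^ (m + l) = 1
      rw [add_comm, pow_add, pow_mul, hl, one_pow]
    · show ρu g ^ p ^ (m + l) = 1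
      have : ρu g ^ p ^ m = 1 := by
        rw [← map_pow]
        exact Units.ext hm
      rw [pow_add, pow_mul, this, one_pow]
  let ρ' : Q →* (M →ₗ[k] M) :=
    ((Units.coeHom (M →ₗ[k] M)).comp (MonoidHom.snd Q1 (M →ₗ[k] M)ˣ)).comp π0.range.subtype
  have h6 : ∀ g, ρ' (π g) = ρ g := fun g => rfl
  have h7 := hQ Q π (fun g hg h => h4 g hg (congrArg (fun x : Q => x.1.1) h))
  have h8 := finrank_sol_le c (Q := Q) (fun j => π (s j)) k
  have h9 : Module.finrank k (SolQ (Q := Q) k c (fun j => π (s j))) * Module.finrank k M ≤ Fintype.card Q * C :=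
    finrank_group_le c N hNsq p hp hNp (fun j => π (s j)) ρ' C (fun χ => hC (χ.comp π))
  have h8' : (Module.finrank ℂ (SolQ (Q := Q) ℂ c (fun j => π (s j))) : ℝ) ≤
      Module.finrank k (SolQ (Q := Q) k c (fun j => π (s j))) := by exact_mod_cast h8
  have h9' : (Module.finrank k (SolQ (Q := Q) k c (fun j => π (s j))) : ℝ) * d ≤
      Fintype.card Q * (C : ℝ) := by
    rw [hd]; exact_mod_cast h9
  have hq : (0 : ℝ) < Fintype.card Q := by exact_mod_cast Fintype.card_pos
  have h10 : (vdim W - ε / (d + 1)) * d ≤ C := by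
    have h11 : (Fintype.card Q : ℝ) * ((vdim W - ε / (d + 1)) * d) ≤ Fintype.card Q * (C : ℝ) := by
      calc (Fintype.card Q : ℝ) * ((vdim W - ε / (d + 1)) * d)
          = ((vdim W - ε / (d + 1)) * Fintype.card Q) * d := by ring
        _ ≤ (Module.finrank ℂ (SolQ (Q := Q) ℂ c (fun j => π (s j))) : ℝ) * d :=
          mul_le_mul_of_nonneg_right h7 hd0
        _ ≤ (Module.finrank k (SolQ (Q := Q) k c (fun j => π (s j))) : ℝ) * d :=
          mul_le_mul_of_nonneg_right h8' hd0
        _ ≤ _ := h9'
    exact le_of_mul_le_mul_left h11 hq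
  have h12 : ε / (d + 1) * d ≤ ε := by
    rw [div_mul_eq_mul_div, div_le_iff₀ (by linarith)]
    nlinarith
  linarith

end Re
end Singer
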