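import Pool.Agent.Singer.Real.NilFin
import Pool.Agent.Singer.Real.ExSpec

/-!
# Singer/Real: nilpotent operators over all fields of characteristic different from two
-/

set_option autoImplicit false
set_option linter.unusedSectionVars false
set_option linter.unusedVariables false

namespace Singer
namespace Re

open Singer.Ord

namespace Nil

section sysZ
variable {V : Type} [Fintype V] [DecidableEq V] {D : Type} [Fintype D] [DecidableEq D]

open Classical in
/-- the equations of `ZT` -/
noncomputable def LZf {R : Type} [CommRing R] (G : SimpleGraph V) (i : ℕ) (E : V → Matrix D D R)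
    (z : Finset V × D → R) : Option (Option V) × Finset V × D → R
  | (none, S, d) => if ¬ (G.IsClique S ∧ S.card = i) then z (S, d) else 0
  | (some none, S, d) => ∑ v ∈ Sᶜ, (sgz rk v S : R) * z (insert v S, d)
  | (some (some v), S, d) => if v ∈ S then ∑ d', E v d d' * z (S, d') else 0

/-- the same as a linear map -/
noncomputable def LZ {R : Type} [CommRing R] (G : SimpleGraph V) (i : ℕ) (E : V → Matrix D D R) :
    (Finset V × D → R) →ₗ[R] (Option (Option V) × Finset V × D → R) where
  toFun z := LZf G i E z
  map_add' z w := by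
    funext κ
    obtain ⟨_ | _ | v, S, d⟩ := κ
    · simp only [LZf, Pi.add_apply]
      split_ifs <;> simp
    · simp only [LZf, Pi.add_apply, mul_add, Finset.sum_add_distrib]
    · simp only [LZf, Pi.add_apply, mul_add, Finset.sum_add_distrib]
      split_ifs <;> simp
  map_smul' a z := by
    funext κ
    obtain ⟨_ | _ | v, S, d⟩ := κ
    · simp only [LZf, Pi.smul_apply, smul_eq_mul, RingHom.id_apply]
      split_ifs <;> simp
    · simp only [LZf, Pi.smul_apply, smul_eq_mul, RingHom.id_apply, Finset.mul_sum]
      exact Finset.sum_congr rfl fun v _ => by ring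
    · simp only [LZf, Pi.smul_apply, smul_eq_mul, RingHom.id_apply]
      split_ifs
      · rw [Finset.mul_sum]
        exact Finset.sum_congr rfl fun d' _ => by ring
      · simp

theorem LZ_apply {R : Type} [CommRing R] (G : SimpleGraph V) (i : ℕ) (E : V → Matrix D D R)
    (z : Finset V × D → R) : LZ G i E z = LZf G i E z := rfl

theorem LZ_nat {R R' : Type} [CommRing R] [CommRing R'] (φ : R →+* R') (G : SimpleGraph V) (i : ℕ)
    (E : V → Matrix D D R) (z : Finset V × D → R) (κ : Option (Option V) × Finset V × D) :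
    φ (LZ G i E z κ) = LZ G i (fun v => (E v).map φ) (fun j => φ (z j)) κ := by
  rw [LZ_apply, LZ_apply]
  obtain ⟨_ | _ | v, S, d⟩ := κ
  · simp only [LZf]
    split_ifs <;> simp
  · simp only [LZf, map_sum, map_mul, map_intCast]
  · simp only [LZf]
    split_ifs
    · simp only [map_mul, map_sum, Matrix.map_apply]
    · simp

/-- the matrix of the system -/
noncomputable def MZ {R : Type} [CommRing R] (G : SimpleGraph V) (i : ℕ) (E : V → Matrix D D R) :
    Matrix (Option (Option V) × Finset V × D) (Finset V × D) R := LinearMap.toMatrix' (LZ G i E)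

theorem MZ_map {R R' : Type} [CommRing R] [CommRing R'] (φ : R →+* R') (G : SimpleGraph V) (i : ℕ)
    (E : V → Matrix D D R) : (MZ G i E).map φ = MZ G i (fun v => (E v).map φ) := by
  ext κ j
  rw [Matrix.map_apply, MZ, MZ, LinearMap.toMatrix'_apply, LinearMap.toMatrix'_apply, LZ_nat]
  have h : (fun j' => φ ((Pi.single j (1 : R) : Finset V × D → R) j')) = Pi.single j (1 : R') := by
    funext j'
    rw [Pi.single_apply, Pi.single_apply]
    split_ifs <;> simp
  rw [h]

theorem mem_LZ {K : Type} [Field K] (G : SimpleGraph V) (i : ℕ) (E : V → Matrix D D K) (z : Finset V × D → K) :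
    z ∈ LinearMap.ker (LZ G i E) ↔ (LinearEquiv.curry K K (Finset V) D z) ∈ ZT G (fun v => Matrix.toLin' (E v)) i := by
  rw [LinearMap.mem_ker, LZ_apply]
  constructor
  · intro hz
    have hz' : ∀ κ, LZf G i E z κ = 0 := fun κ => congrFun hz κ
    refine ⟨fun S hS => ?_, fun S v hv => ?_, fun S => ?_⟩
    · funext d
      have h := hz' (none, S, d)
      simp only [LZf] at h
      rw [if_pos hS] at h
      exact h
    · funext d
      have h := hz' (some (some v), S, d)
      simp only [LZf] at h
      rw [if_pos hv] at h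
      exact h
    · funext d
      have h := hz' (some none, S, d)
      simp only [LZf] at h
      rw [Finset.sum_apply]
      simp only [Pi.smul_apply, zsmul_eq_mul, Pi.zero_apply]
      exact h
  · rintro ⟨h1, h2, h3⟩
    funext κ
    obtain ⟨_ | _ | v, S, d⟩ := κ
    · simp only [LZf, Pi.zero_apply]
      by_cases h : G.IsClique S ∧ S.card = i
      · rw [if_neg (not_not.mpr h)]
      · rw [if_pos h]
        exact congrFun (h1 S h) d
    · simp only [LZf, Pi.zero_apply]
      have h := congrFun (h3 S) d
      rw [Finset.sum_apply] at h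
      simp only [Pi.smul_apply, zsmul_eq_mul, Pi.zero_apply] at h
      exact h
    · simp only [LZf, Pi.zero_apply]
      split_ifs with h
      · exact congrFun (h2 S v h) d
      · rfl

theorem rank_MZ {K : Type} [Field K] (G : SimpleGraph V) (i : ℕ) (E : V → Matrix D D K) :
    (MZ G i E).rank + Module.finrank K (ZT G (fun v => Matrix.toLin' (E v)) i) = Fintype.card (Finset V × D) := by
  have h := LinearMap.finrank_range_add_finrank_ker (MZ G i E).mulVecLin
  rw [Module.finrank_fintype_fun_eq_card] at h
  have h2 : LinearMap.ker (MZ G i E).mulVecLin = LinearMap.ker (LZ G i E) := by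
    congr 1
    rw [MZ]
    exact Matrix.toLin'_toMatrix' _
  have h3 : LinearMap.ker (LZ G i E) = (ZT G (fun v => Matrix.toLin' (E v)) i).comap
      (LinearEquiv.curry K K (Finset V) D).toLinearMap := by
    ext z
    rw [mem_LZ]
    rfl
  rw [h2, h3] at h
  have h4 := (LinearEquiv.ofSubmodule' (LinearEquiv.curry K K (Finset V) D)
    (ZT G (fun v => Matrix.toLin' (E v)) i)).finrank_eq
  rw [h4] at h
  exact h

end sysZ

end Nil

open Nil

variable {V : Type} [Fintype V] [DecidableEq V]

/-- matrix form -/
theorem vdim_Cy_le_mat (G : SimpleGraph V) {F : Type} [Field F] (h2 : (2 : F) ≠ 0) {D : Type} [Fintype D]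
    [DecidableEq D] (E : V → Matrix D D F) (h1 : ∀ v, E v * E v = 0)
    (hc : ∀ u v, G.Adj u v → E u * E v = E v * E u) (i : ℕ) :
    vdim (Cy rk G (Racg.gen G) Finset.univ i) * Fintype.card D ≤
      Module.finrank F (ZT G (fun v => Matrix.toLin' (E v)) i) := by
  classical
  -- the ring of the entries
  let s : Finset F := Finset.univ.image fun x : V × D × D => E x.1 x.2.1 x.2.2
  let A : Subalgebra ℤ F := Algebra.adjoin ℤ (s : Set F)
  have hft : Algebra.FiniteType ℤ A :=
    (Subalgebra.fg_iff_finiteType _).mp (Subalgebra.fg_adjoin_finset s)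
  have hmem : ∀ v a b, E v a b ∈ A := fun v a b =>
    Algebra.subset_adjoin (Finset.mem_coe.mpr (Finset.mem_image.mpr ⟨(v, a, b), Finset.mem_univ _, rfl⟩))
  let EA : V → Matrix D D A := fun v a b => ⟨E v a b, hmem v a b⟩
  let ι : A →+* F := A.val.toRingHom
  have hι : Function.Injective ι := Subtype.val_injective
  have hEA : ∀ v, (EA v).map ι = E v := fun v => by
    ext a b
    rfl
  have hmapinj : Function.Injective (fun N : Matrix D D A => N.map ι) := by
    intro N N' h
    ext a b
    have := congrFun (congrFun h a) b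
    exact congrArg Subtype.val (hι this)
  have h1A : ∀ v, EA v * EA v = 0 := fun v => by
    apply hmapinj
    dsimp only
    rw [Matrix.map_mul, hEA, h1, Matrix.map_zero _ (map_zero _)]
  have hcA : ∀ u v, G.Adj u v → EA u * EA v = EA v * EA u := fun u v huv => by
    apply hmapinj
    dsimp only
    rw [Matrix.map_mul, Matrix.map_mul, hEA, hEA, hc u v huv]
  -- a minor
  obtain ⟨n, a, b, hab, hn⟩ : ∃ (n : ℕ) (a : Fin n → Option (Option V) × Finset V × D) (b : Fin n → Finset V × D),
      ((MZ G i E).submatrix a b).det ≠ 0 ∧ (MZ G i E).rank ≤ n := by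
    obtain ⟨a, b, hab⟩ := ModTwo.exists_minor (MZ G i E)
    exact ⟨_, a, b, hab, le_rfl⟩
  have e1 : MZ G i E = (MZ G i EA).map ι := (MZ_map ι G i EA).symm
  set δ : A := ((MZ G i EA).submatrix a b).det with hδ
  have hδ1 : ι δ ≠ 0 := by
    rw [hδ, RingHom.map_det]
    have e2 : ι.mapMatrix ((MZ G i EA).submatrix a b) = (MZ G i E).submatrix a b := by
      rw [e1]
      rfl
    rw [e2]
    exact hab
  have h2A : (2 : A) ≠ 0 := by
    intro h
    apply h2
    have h3 := congrArg ι h
    rw [map_ofNat, map_zero] at h3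
    exact h3
  have hδ0 : (2 : A) * δ ≠ 0 := by
    apply mul_ne_zero h2A
    intro h
    rw [h, map_zero] at hδ1
    exact hδ1 rfl
  obtain ⟨k, _, _, ψ, hψ⟩ := exists_spec hft _ hδ0
  rw [map_mul, map_ofNat] at hψ
  have hψ2 : (2 : k) ≠ 0 := left_ne_zero_of_mul hψ
  have hψδ : ψ δ ≠ 0 := right_ne_zero_of_mul hψ
  have h3 := vdim_Cy_le_fin G hψ2 (fun v => (EA v).map ψ)
    (fun v => by rw [← Matrix.map_mul, h1A, Matrix.map_zero _ (map_zero _)])
    (fun u v huv => by rw [← Matrix.map_mul, hcA u v huv, Matrix.map_mul]) i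
  refine h3.trans ?_
  have h4 : (MZ G i E).rank ≤ (MZ G i (fun v => (EA v).map ψ)).rank := by
    refine hn.trans (ModTwo.rank_ge _ a b ?_)
    have e2 : (MZ G i (fun v => (EA v).map ψ)).submatrix a b = ψ.mapMatrix ((MZ G i EA).submatrix a b) := by
      rw [← MZ_map]
      rfl
    rw [e2, ← RingHom.map_det]
    exact hψδ
  have h5 := rank_MZ G i E
  have h6 := rank_MZ G i (fun v => (EA v).map ψ)
  have h7 : Module.finrank k (ZT G (fun v => Matrix.toLin' ((EA v).map ψ)) i) ≤
      Module.finrank F (ZT G (fun v => Matrix.toLin' (E v)) i) := by omega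
  exact_mod_cast h7

theorem vdim_Cy_le_nil (G : SimpleGraph V) {F : Type} [Field F] (h2 : (2 : F) ≠ 0) {M : Type} [AddCommGroup M]
    [Module F M] [FiniteDimensional F M] (E : V → M →ₗ[F] M) (h1 : ∀ v x, E v (E v x) = 0)
    (hc : ∀ u v, G.Adj u v → ∀ x, E u (E v x) = E v (E u x)) (i : ℕ) :
    vdim (Cy rk G (Racg.gen G) Finset.univ i) * Module.finrank F M ≤ Module.finrank F (ZT G E i) := by
  classical
  let b := Module.finBasis F M
  let e : M ≃ₗ[F] (Fin (Module.finrank F M) → F) := b.equivFun
  let E' : V → Matrix (Fin (Module.finrank F M)) (Fin (Module.finrank F M)) F := fun v => LinearMap.toMatrix b b (E v)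
  have h3 := vdim_Cy_le_mat G h2 E' (fun v => by
      rw [← LinearMap.toMatrix_comp b b b]
      have : E v ∘ₗ E v = 0 := LinearMap.ext (h1 v)
      rw [this, map_zero])
    (fun u v huv => by
      rw [← LinearMap.toMatrix_comp b b b, ← LinearMap.toMatrix_comp b b b]
      have : E u ∘ₗ E v = E v ∘ₗ E u := LinearMap.ext (hc u v huv)
      rw [this]) i
  rw [Fintype.card_fin] at h3
  refine h3.trans ?_
  have h4 : ∀ v x, Matrix.toLin' (E' v) (e x) = e (E v x) := by
    intro v x
    rw [Matrix.toLin'_apply]
    exact LinearMap.toMatrix_mulVec_repr b b (E v) x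
  let Φ : ZT G (fun v => Matrix.toLin' (E' v)) i →ₗ[F] ZT G E i :=
    { toFun := fun z => ⟨fun S => e.symm (z.1 S), by
        obtain ⟨k1, k2, k3⟩ := z.2
        refine ⟨fun S hS => ?_, fun S v hv => ?_, fun S => ?_⟩
        · show e.symm (z.1 S) = 0
          rw [k1 S hS, map_zero]
        · show E v (e.symm (z.1 S)) = 0
          apply e.injective
          rw [← h4, LinearEquiv.apply_symm_apply, map_zero]
          exact k2 S v hv
        · show ∑ v ∈ Sᶜ, sgz rk v S • e.symm (z.1 (insert v S)) = 0
          apply e.injective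
          rw [map_sum, map_zero, ← k3 S]
          refine Finset.sum_congr rfl fun v _ => ?_
          rw [map_zsmul, LinearEquiv.apply_symm_apply]⟩
      map_add' := fun z w => Subtype.ext (funext fun S => map_add e.symm _ _)
      map_smul' := fun a z => Subtype.ext (funext fun S => map_smul e.symm _ _) }
  have hΦ : Function.Injective Φ := by
    intro z w h
    apply Subtype.ext
    funext S
    exact e.symm.injective (congrFun (congrArg Subtype.val h) S)
  exact_mod_cast LinearMap.finrank_le_finrank_of_injective hΦ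

end Re
end Singer
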