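import Pool.Agent.Singer.Real.NilSys

/-!
# Singer/Real: nilpotent operators over finite fields of odd characteristic
-/

set_option autoImplicit false
set_option linter.unusedSectionVars false
set_option linter.unusedVariables false

namespace Singer
namespace Re

open scoped symmDiff
open Singer.Ord

namespace Nil

section cur
variable {V : Type} [Fintype V] [DecidableEq V] {D : Type} [Fintype D] [DecidableEq D]

/-- currying -/
def cur (V D k R : Type) [CommRing k] [CommRing R] [Algebra k R] :
    (CI V D → R) ≃ₗ[k] (Finset V → NN V D R) where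
  toFun z := fun S A d => z (S, A, d)
  invFun w := fun j => w j.1 j.2.1 j.2.2
  map_add' z w := rfl
  map_smul' a z := rfl
  left_inv z := rfl
  right_inv w := rfl

/-- the cycles satisfy the system -/
theorem LL_of_ZT {k R : Type} [CommRing k] [CommRing R] [Algebra k R] (G : SimpleGraph V) (i : ℕ)
    (E : V → Matrix D D R) (χ : V → ℤˣ) (a : R) (z : CI V D → R)
    (hz : (cur V D k R z) ∈ ZT G (fun v => 1 + ((χ v : ℤˣ) : ℤ) • (TT E a v).restrictScalars k) i) (κ : KI V D) :
    LL G i E χ a 1 z κ = 0 := by
  obtain ⟨h1, h2, h3⟩ := hz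
  rw [LL_apply]
  obtain ⟨_ | _ | v, S, A, d⟩ := κ
  · simp only [LLf]
    by_cases h : G.IsClique S ∧ S.card = i
    · rw [if_neg (not_not.mpr h)]
    · rw [if_pos h]
      exact congrFun (congrFun (h1 S h) A) d
  · simp only [LLf]
    have h := congrFun (congrFun (h3 S) A) d
    rw [Finset.sum_apply, Finset.sum_apply] at h
    simp only [Pi.smul_apply, zsmul_eq_mul, Pi.zero_apply] at h
    exact h
  · simp only [LLf]
    split_ifs with h
    · have h4 := congrFun (congrFun (h2 S v h) A) d
      rw [LinearMap.add_apply, Module.End.one_apply, LinearMap.smul_apply, Pi.add_apply, Pi.add_apply,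
        Pi.smul_apply, Pi.smul_apply, zsmul_eq_mul] at h4
      have h5 : ((TT E a v).restrictScalars k (cur V D k R z S)) A d =
          (eps v A : R) * z (S, A, d) + a * ∑ d', E v d d' * z (S, A ∆ {v}, d') := rfl
      rw [h5] at h4
      have h6 : (cur V D k R z S) A d = z (S, A, d) := rfl
      rw [h6, Pi.zero_apply, Pi.zero_apply] at h4
      rw [← h4]
      ring
    · rfl

end cur

section trunc
variable {V : Type} [Fintype V] [DecidableEq V] {D : Type} [Fintype D] [DecidableEq D] {k : Type} [Field k]

/-- the truncated polynomial ring -/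
abbrev RT (k : Type) [Field k] (l : ℕ) : Type := AdjoinRoot ((Polynomial.X : Polynomial k) ^ l)

/-- the reduction -/
noncomputable abbrev mkT (k : Type) [Field k] (l : ℕ) : Polynomial k →+* RT k l := AdjoinRoot.mk (Polynomial.X ^ l)

theorem mkT_pow (l : ℕ) : (mkT k l Polynomial.X) ^ l = 0 := by
  rw [← map_pow]
  exact AdjoinRoot.mk_self

theorem finite_RT (l : ℕ) : Module.Finite k (RT k l) := (Polynomial.monic_X_pow l).finite_adjoinRoot

theorem finrank_RT (l : ℕ) : Module.finrank k (RT k l) = l := by
  have hmon : ((Polynomial.X : Polynomial k) ^ l).Monic := Polynomial.monic_X_pow l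
  rw [(AdjoinRoot.powerBasis' hmon).finrank, AdjoinRoot.powerBasis'_dim, Polynomial.natDegree_X_pow]

/-- the bound for the truncated system -/
theorem finrank_ZT_trunc (G : SimpleGraph V) (i : ℕ) (E : V → Matrix D D k) (χ : V → ℤˣ) :
    ∃ c : ℕ, ∀ l : ℕ, Module.finrank k (ZT G (fun v => 1 + ((χ v : ℤˣ) : ℤ) •
      (TT (fun v => ((E v).map Polynomial.C).map (mkT k l)) (mkT k l Polynomial.X) v).restrictScalars k) i) ≤
        2 ^ Fintype.card V * Module.finrank k (ZT G (fun v => Matrix.toLin' (E v)) i) * l + c := by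
  classical
  set n0 := 2 ^ Fintype.card V * Module.finrank k (ZT G (fun v => Matrix.toLin' (E v)) i) with hn0
  set A : Matrix (KI V D) (CI V D) (Polynomial k) := MM G i (fun v => (E v).map Polynomial.C) χ Polynomial.X 1 with hA
  set K := FractionRing (Polynomial k) with hK
  obtain ⟨C, B, δ, hδ, hB, hcard⟩ := exists_minor (K := K) A
  refine ⟨C.card * δ.natDegree, fun l => ?_⟩
  -- the generic nullity
  have hnull : Module.finrank K (LinearMap.ker (Matrix.mulVecLin (A.map (algebraMap (Polynomial k) K)))) ≤ n0 := by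
    rw [hA, MM_map, ker_MM, map_one]
    have e1 : (fun v => ((E v).map Polynomial.C).map (algebraMap (Polynomial k) K)) =
        fun v => (E v).map (algebraMap k K) := by
      funext v
      ext a b
      simp only [Matrix.map_apply]
      rw [← Polynomial.algebraMap_eq, ← IsScalarTower.algebraMap_apply]
    rw [e1]
    apply nullity_gen
    rw [transcendental_algebraMap_iff (IsFractionRing.injective (Polynomial k) K)]
    exact Polynomial.transcendental_X k
  have := finite_RT (k := k) l
  set Z := ZT G (fun v => 1 + ((χ v : ℤˣ) : ℤ) •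
      (TT (fun v => ((E v).map Polynomial.C).map (mkT k l)) (mkT k l Polynomial.X) v).restrictScalars k) i with hZ
  let W : Submodule k (CI V D → RT k l) := Z.comap (cur V D k (RT k l)).toLinearMap
  have hW1 : Module.finrank k W = Module.finrank k Z := (LinearEquiv.ofSubmodule' (cur V D k (RT k l)) Z).finrank_eq
  have h3 := finrank_sys_le (F := k) (R := RT k l) A C B δ hB (mkT k l) W (fun z hz κ => by
    have h4 : ∀ j, mkT k l (A κ j) = MM G i (fun v => ((E v).map Polynomial.C).map (mkT k l)) χ (mkT k l Polynomial.X) 1 κ j := by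
      intro j
      have h5 := MM_map (mkT k l) G i (fun v => (E v).map Polynomial.C) χ Polynomial.X 1
      rw [map_one] at h5
      rw [← h5]
      rfl
    rw [Finset.sum_congr rfl fun j _ => by rw [h4 j], MM_sum]
    exact LL_of_ZT (k := k) G i _ χ _ z hz κ)
  rw [hW1, finrank_RT] at h3
  have h4 : Module.finrank k (LinearMap.ker (LinearMap.mulLeft k (mkT k l δ))) ≤ δ.natDegree :=
    finrank_ker_mul_le l δ hδ
  have h5 : C.card * Module.finrank k (LinearMap.ker (LinearMap.mulLeft k (mkT k l δ))) ≤
      C.card * δ.natDegree := Nat.mul_le_mul_left _ h4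
  have h6 : Fintype.card (CI V D) ≤ C.card + n0 := hcard.trans (Nat.add_le_add_left hnull _)
  have h7 : Fintype.card (CI V D) * l ≤ C.card * l + n0 * l := by
    rw [← add_mul]
    exact Nat.mul_le_mul_right _ h6
  omega

end trunc

end Nil

open Nil

variable {V : Type} [Fintype V] [DecidableEq V]

theorem vdim_Cy_le_fin (G : SimpleGraph V) {D : Type} [Fintype D] [DecidableEq D] {k : Type} [Field k] [Finite k]
    (h2 : (2 : k) ≠ 0) (E : V → Matrix D D k) (h1 : ∀ v, E v * E v = 0) (hc : ∀ u v, G.Adj u v → E u * E v = E v * E u)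
    (i : ℕ) : vdim (Cy rk G (Racg.gen G) Finset.univ i) * Fintype.card D ≤
      Module.finrank k (ZT G (fun v => Matrix.toLin' (E v)) i) := by
  classical
  obtain ⟨p, hpk⟩ := CharP.exists k
  have hprime : p.Prime := CharP.char_is_prime k p
  have _ : Fact p.Prime := ⟨hprime⟩
  have hp : p ≠ 2 := by
    rintro rfl
    apply h2
    have := CharP.cast_eq_zero k 2
    exact_mod_cast this
  choose c hc' using fun χ : V → ℤˣ => finrank_ZT_trunc G i E χ
  set n := Module.finrank k (ZT G (fun v => Matrix.toLin' (E v)) i) with hn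
  set c0 : ℕ := ∑ χ : V → ℤˣ, c χ with hc0
  have key : ∀ l : ℕ, vdim (Cy rk G (Racg.gen G) Finset.univ i) * (2 ^ Fintype.card V * (Fintype.card D * l) : ℕ) ≤
      (2 ^ Fintype.card V * n * l + c0 : ℕ) := by
    intro l
    have := finite_RT (k := k) l
    set E' : V → Matrix D D (RT k l) := fun v => ((E v).map Polynomial.C).map (mkT k l) with hE'
    have h1' : ∀ v, E' v * E' v = 0 := fun v => by
      rw [hE']
      dsimp only
      rw [← Matrix.map_mul, ← Matrix.map_mul, h1, Matrix.map_zero _ (map_zero _), Matrix.map_zero _ (map_zero _)]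
    have hc'' : ∀ u v, G.Adj u v → E' u * E' v = E' v * E' u := fun u v huv => by
      rw [hE']
      dsimp only
      rw [← Matrix.map_mul, ← Matrix.map_mul, hc u v huv, Matrix.map_mul, Matrix.map_mul]
    let ρ : RACG G →* (NN V D (RT k l) →ₗ[k] NN V D (RT k l)) :=
      { toFun := fun g => ((rho h1' hc'' (mkT k l Polynomial.X) g : (Module.End (RT k l) (NN V D (RT k l)))ˣ) :
          Module.End (RT k l) (NN V D (RT k l))).restrictScalars k
        map_one' := by rw [map_one]; rfl
        map_mul' := fun g h => by rw [map_mul]; rfl }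
    have hρ : ∀ v, ρ (Racg.gen G v) = (TT E' (mkT k l Polynomial.X) v).restrictScalars k := by
      intro v
      change ((rho h1' hc'' (mkT k l Polynomial.X) (Racg.gen G v) : (Module.End (RT k l) (NN V D (RT k l)))ˣ) :
          Module.End (RT k l) (NN V D (RT k l))).restrictScalars k = _
      rw [rho_gen]
    have hpR : ((p : ℕ) : RT k l) = 0 := by
      have h5 : ((p : ℕ) : RT k l) = algebraMap k (RT k l) ((p : ℕ) : k) := by rw [map_natCast]
      rw [h5, CharP.cast_eq_zero, map_zero]
    have h6 := vdim_Cy_le_p G p hp ρ (fun g hg => ⟨l, by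
      change ((rho h1' hc'' (mkT k l Polynomial.X) (g ^ p ^ l) : (Module.End (RT k l) (NN V D (RT k l)))ˣ) :
          Module.End (RT k l) (NN V D (RT k l))).restrictScalars k = 1
      rw [rho_pow h1' hc'' (mkT k l Polynomial.X) p hprime hpR l (mkT_pow l) hg]
      rfl⟩) i (2 ^ Fintype.card V * n * l + c0) (fun χ => by
      have h7 := hc' χ l
      have h8 : c χ ≤ c0 := Finset.single_le_sum (fun _ _ => Nat.zero_le _) (Finset.mem_univ χ)
      have e : (fun v => 1 + ((χ v : ℤˣ) : ℤ) • ρ (Racg.gen G v)) = fun v => 1 + ((χ v : ℤˣ) : ℤ) •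
          (TT E' (mkT k l Polynomial.X) v).restrictScalars k := by
        funext v
        rw [hρ]
      rw [e]
      exact h7.trans (Nat.add_le_add_left h8 _))
    have h9 : Module.finrank k (NN V D (RT k l)) = 2 ^ Fintype.card V * (Fintype.card D * l) := by
      unfold NN
      rw [Module.finrank_pi_fintype, Finset.sum_const, Finset.card_univ, Fintype.card_finset,
        Module.finrank_pi_fintype, Finset.sum_const, Finset.card_univ, finrank_RT, smul_eq_mul, smul_eq_mul]
    rw [h9] at h6
    exact h6
  by_contra hcon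
  push Not at hcon
  set v := vdim (Cy rk G (Racg.gen G) Finset.univ i)
  have hpos : 0 < v * Fintype.card D - n := by linarith
  have hN : (0 : ℝ) < 2 ^ Fintype.card V := by positivity
  obtain ⟨l, hl⟩ := exists_nat_gt ((c0 : ℝ) / (2 ^ Fintype.card V * (v * Fintype.card D - n)))
  rw [div_lt_iff₀ (by positivity)] at hl
  have h3 := key l
  push_cast at h3
  nlinarith

end Re
end Singer
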