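import Pool.Agent.Singer.Racg

/-!
# Singer/Real: the representation attached to nilpotent operators

`TT E a v f A = (-1)^[v ∈ A] f A + a E_v f (A xor v)`. These are involutions, they commute for adjacent vertices, and
for `a = 0` they all commute.
-/

set_option autoImplicit false
set_option linter.unusedSectionVars false
set_option linter.unusedVariables false

namespace Singer
namespace Re
namespace Nil

open scoped symmDiff

section op
variable {V : Type} [DecidableEq V] {D : Type} [Fintype D] {R : Type} [CommRing R]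

/-- the module -/
abbrev NN (V D R : Type) : Type := Finset V → D → R

/-- the sign of `v` on `A` -/
def eps (v : V) (A : Finset V) : ℤ := if v ∈ A then -1 else 1

theorem eps_sq (v : V) (A : Finset V) : eps v A * eps v A = 1 := by
  unfold eps
  split_ifs <;> norm_num

theorem mem_symm {u v : V} {A : Finset V} : u ∈ A ∆ {v} ↔ (u ∈ A ↔ u ≠ v) := by
  rw [Finset.mem_symmDiff, Finset.mem_singleton]
  tauto

theorem eps_self (v : V) (A : Finset V) : eps v (A ∆ {v}) = - eps v A := by
  unfold eps
  by_cases h : v ∈ A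
  · have h1 : ¬ v ∈ A ∆ {v} := by
      rw [mem_symm]
      simp [h]
    rw [if_neg h1, if_pos h, neg_neg]
  · have h1 : v ∈ A ∆ {v} := by
      rw [mem_symm]
      simp [h]
    rw [if_pos h1, if_neg h]

theorem eps_ne {u v : V} (h : u ≠ v) (A : Finset V) : eps u (A ∆ {v}) = eps u A := by
  unfold eps
  have h1 : u ∈ A ∆ {v} ↔ u ∈ A := by
    rw [mem_symm]
    simp [h]
  simp [h1]

theorem symm_symm (A : Finset V) (v : V) : A ∆ {v} ∆ {v} = A := by
  rw [symmDiff_assoc, symmDiff_self]
  simp

/-- the signs -/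
def ZZ (D R : Type) [CommRing R] (v : V) : Module.End R (NN V D R) where
  toFun f A d := (eps v A : R) * f A d
  map_add' f g := by
    funext A d
    simp only [Pi.add_apply]
    ring
  map_smul' a f := by
    funext A d
    simp only [Pi.smul_apply, smul_eq_mul, RingHom.id_apply]
    ring

/-- the shifts -/
def YY (E : V → Matrix D D R) (v : V) : Module.End R (NN V D R) where
  toFun f A := (E v).mulVec (f (A ∆ {v}))
  map_add' f g := by
    funext A
    simp only [Pi.add_apply]
    exact Matrix.mulVec_add _ _ _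
  map_smul' a f := by
    funext A
    simp only [Pi.smul_apply, RingHom.id_apply]
    exact Matrix.mulVec_smul _ _ _

theorem ZZ_apply (v : V) (f : NN V D R) (A : Finset V) (d : D) : ZZ D R v f A d = (eps v A : R) * f A d := rfl

theorem ZZ_apply' (v : V) (f : NN V D R) (A : Finset V) : ZZ D R v f A = (eps v A : R) • f A := rfl

theorem YY_apply (E : V → Matrix D D R) (v : V) (f : NN V D R) (A : Finset V) :
    YY E v f A = (E v).mulVec (f (A ∆ {v})) := rfl

theorem ZZ_sq (v : V) : ZZ D R v * ZZ D R v = 1 := by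
  apply LinearMap.ext
  intro f
  funext A d
  rw [Module.End.mul_apply, ZZ_apply, ZZ_apply, ← mul_assoc, ← Int.cast_mul, eps_sq, Int.cast_one, one_mul]
  rfl

theorem ZZ_comm (u v : V) : ZZ D R u * ZZ D R v = ZZ D R v * ZZ D R u := by
  apply LinearMap.ext
  intro f
  funext A d
  rw [Module.End.mul_apply, Module.End.mul_apply, ZZ_apply, ZZ_apply, ZZ_apply, ZZ_apply]
  ring

theorem YY_sq {E : V → Matrix D D R} (h1 : ∀ v, E v * E v = 0) (v : V) : YY E v * YY E v = 0 := by
  apply LinearMap.ext
  intro f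
  funext A
  rw [Module.End.mul_apply, YY_apply, YY_apply, Matrix.mulVec_mulVec, h1, Matrix.zero_mulVec]
  rfl

theorem YY_comm {E : V → Matrix D D R} {u v : V} (h : E u * E v = E v * E u) :
    YY E u * YY E v = YY E v * YY E u := by
  apply LinearMap.ext
  intro f
  funext A
  rw [Module.End.mul_apply, Module.End.mul_apply, YY_apply, YY_apply, YY_apply, YY_apply, Matrix.mulVec_mulVec,
    Matrix.mulVec_mulVec, h, symmDiff_assoc, symmDiff_assoc, symmDiff_comm ({u} : Finset V) {v}]

theorem ZZ_YY_self (E : V → Matrix D D R) (v : V) : ZZ D R v * YY E v + YY E v * ZZ D R v = 0 := by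
  apply LinearMap.ext
  intro f
  funext A
  rw [LinearMap.add_apply, Module.End.mul_apply, Module.End.mul_apply, Pi.add_apply, ZZ_apply', YY_apply, YY_apply,
    ZZ_apply', eps_self, Matrix.mulVec_smul, ← add_smul]
  push_cast
  rw [add_neg_cancel, zero_smul]
  rfl

theorem ZZ_YY_ne (E : V → Matrix D D R) {u v : V} (h : u ≠ v) : ZZ D R u * YY E v = YY E v * ZZ D R u := by
  apply LinearMap.ext
  intro f
  funext A
  rw [Module.End.mul_apply, Module.End.mul_apply, ZZ_apply', YY_apply, YY_apply, ZZ_apply', eps_ne h,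
    Matrix.mulVec_smul]

/-- the involutions -/
def TT (E : V → Matrix D D R) (a : R) (v : V) : Module.End R (NN V D R) := ZZ D R v + a • YY E v

theorem TT_sq {E : V → Matrix D D R} (h1 : ∀ v, E v * E v = 0) (a : R) (v : V) : TT E a v * TT E a v = 1 := by
  have h2 := ZZ_YY_self E v
  unfold TT
  rw [add_mul, mul_add, mul_add, ZZ_sq, smul_mul_smul_comm, YY_sq h1, smul_zero, add_zero, mul_smul_comm,
    smul_mul_assoc, add_assoc, ← smul_add, h2, smul_zero, add_zero]

theorem TT_comm {E : V → Matrix D D R} (a : R) {u v : V} (huv : u ≠ v) (h : E u * E v = E v * E u) :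
    TT E a u * TT E a v = TT E a v * TT E a u := by
  unfold TT
  rw [add_mul, mul_add, mul_add, add_mul, mul_add, mul_add, ZZ_comm u v, smul_mul_smul_comm, smul_mul_smul_comm,
    YY_comm h, mul_smul_comm, smul_mul_assoc, mul_smul_comm, smul_mul_assoc, ZZ_YY_ne E huv, ZZ_YY_ne E huv.symm]
  abel

end op

section rep
variable {V : Type} [DecidableEq V] {D : Type} [Fintype D] {R : Type} [CommRing R] {G : SimpleGraph V}

/-- the sign representation -/
noncomputable def rhoZ (G : SimpleGraph V) (D : Type) [Fintype D] (R : Type) [CommRing R] : RACG G →* (Module.End R (NN V D R))ˣ :=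
  Racg.lift (fun v => ⟨ZZ D R v, ZZ D R v, ZZ_sq v, ZZ_sq v⟩) (fun v => Units.ext (ZZ_sq v))
    fun u v _ => Units.ext (ZZ_comm u v)

theorem rhoZ_gen (v : V) : ((rhoZ G D R (Racg.gen G v) : (Module.End R (NN V D R))ˣ) : Module.End R (NN V D R)) =
    ZZ D R v := by
  unfold rhoZ
  rw [Racg.lift_gen]

/-- the representation -/
noncomputable def rho {E : V → Matrix D D R} (h1 : ∀ v, E v * E v = 0)
    (hc : ∀ u v, G.Adj u v → E u * E v = E v * E u) (a : R) : RACG G →* (Module.End R (NN V D R))ˣ :=
  Racg.lift (fun v => ⟨TT E a v, TT E a v, TT_sq h1 a v, TT_sq h1 a v⟩) (fun v => Units.ext (TT_sq h1 a v))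
    fun u v h => Units.ext (TT_comm a h.ne (hc u v h))

theorem rho_gen {E : V → Matrix D D R} (h1 : ∀ v, E v * E v = 0)
    (hc : ∀ u v, G.Adj u v → E u * E v = E v * E u) (a : R) (v : V) :
    ((rho h1 hc a (Racg.gen G v) : (Module.End R (NN V D R))ˣ) : Module.End R (NN V D R)) = TT E a v := by
  unfold rho
  rw [Racg.lift_gen]

theorem rhoZ_comm_gen (g : RACG G) (v : V) :
    rhoZ G D R g * rhoZ G D R (Racg.gen G v) = rhoZ G D R (Racg.gen G v) * rhoZ G D R g := by
  induction g using Racg.induction with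
  | h1 => rw [map_one, one_mul, mul_one]
  | hm u w ih =>
    have h2 : rhoZ G D R (Racg.gen G u) * rhoZ G D R (Racg.gen G v) =
        rhoZ G D R (Racg.gen G v) * rhoZ G D R (Racg.gen G u) := by
      apply Units.ext
      rw [Units.val_mul, Units.val_mul, rhoZ_gen, rhoZ_gen]
      exact ZZ_comm u v
    rw [map_mul, mul_assoc, ih, ← mul_assoc, h2, mul_assoc]

theorem rhoZ_comm (g h : RACG G) : rhoZ G D R g * rhoZ G D R h = rhoZ G D R h * rhoZ G D R g := by
  induction h using Racg.induction with
  | h1 => rw [map_one, one_mul, mul_one]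
  | hm u w ih => rw [map_mul, ← mul_assoc, rhoZ_comm_gen, mul_assoc, ih, mul_assoc]

theorem rhoZ_commutator {g : RACG G} (hg : g ∈ commutator (RACG G)) : rhoZ G D R g = 1 := by
  have h1 : commutator (RACG G) ≤ (rhoZ G D R).ker := by
    rw [commutator_def, Subgroup.commutator_le]
    intro g1 _ g2 _
    rw [MonoidHom.mem_ker, commutatorElement_def, map_mul, map_mul, map_mul, map_inv, map_inv, rhoZ_comm g1 g2]
    group
  exact MonoidHom.mem_ker.mp (h1 hg)

/-- modulo `a` the two representations agree -/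
theorem rho_eq {E : V → Matrix D D R} (h1 : ∀ v, E v * E v = 0)
    (hc : ∀ u v, G.Adj u v → E u * E v = E v * E u) (a : R) (g : RACG G) : ∃ Y : Module.End R (NN V D R),
      ((rho h1 hc a g : (Module.End R (NN V D R))ˣ) : Module.End R (NN V D R)) =
        ((rhoZ G D R g : (Module.End R (NN V D R))ˣ) : Module.End R (NN V D R)) + a • Y := by
  induction g using Racg.induction with
  | h1 => exact ⟨0, by simp⟩
  | hm v w ih =>
    obtain ⟨Y, hY⟩ := ih
    refine ⟨YY E v * ((rhoZ G D R w : (Module.End R (NN V D R))ˣ) : Module.End R (NN V D R)) +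
      TT E a v * Y, ?_⟩
    rw [map_mul, map_mul, Units.val_mul, Units.val_mul, rho_gen, rhoZ_gen, hY, mul_add, mul_smul_comm]
    conv_lhs => rw [TT, add_mul, smul_mul_assoc]
    rw [smul_add, ← add_assoc]
    rfl

/-- elements of the commutator subgroup have `p`-power order if `a` is nilpotent -/
theorem rho_pow {E : V → Matrix D D R} (h1 : ∀ v, E v * E v = 0)
    (hc : ∀ u v, G.Adj u v → E u * E v = E v * E u) (a : R) (p : ℕ) (hp : p.Prime) (hpR : (p : R) = 0) (l : ℕ)
    (ha : a ^ l = 0) {g : RACG G} (hg : g ∈ commutator (RACG G)) : rho h1 hc a (g ^ p ^ l) = 1 := by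
  obtain ⟨Y, hY⟩ := rho_eq h1 hc a g
  rw [rhoZ_commutator hg, Units.val_one] at hY
  apply Units.ext
  rw [map_pow, Units.val_pow_eq_pow_val, hY, Units.val_one]
  have h2 : Commute (1 : Module.End R (NN V D R)) (a • Y) := Commute.one_left _
  obtain ⟨r, hr⟩ := h2.exists_add_pow_prime_pow_eq hp l
  rw [hr, one_pow, smul_pow]
  have h3 : a ^ p ^ l = 0 := by
    have h4 : l ≤ p ^ l := (Nat.lt_pow_self hp.one_lt).le
    obtain ⟨c, hc⟩ := Nat.exists_eq_add_of_le h4
    rw [hc, pow_add, ha, zero_mul]
  have h5 : (p : Module.End R (NN V D R)) = 0 := by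
    have h6 : (p : Module.End R (NN V D R)) = (p : R) • (1 : Module.End R (NN V D R)) := by
      rw [Nat.cast_smul_eq_nsmul, nsmul_eq_mul, mul_one]
    rw [h6, hpR, zero_smul]
  rw [h3, h5, zero_smul]
  simp

end rep

end Nil
end Re
end Singer
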