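import Pool.Agent.Singer.Ord.ModTwo

/-!
# Singer/Real: ranks and homomorphisms
-/

set_option autoImplicit false
set_option linter.unusedSectionVars false
set_option linter.unusedVariables false

namespace Singer
namespace Re

open Singer.Ord Singer.Ord.ModTwo

theorem rank_le_of_ker {R0 k K : Type*} [CommRing R0] [Field k] [Field K] {m n : Type*} [Fintype m] [Fintype n]
    (A : Matrix m n R0) (ψ : R0 →+* k) (φ : R0 →+* K) (h : ∀ x, φ x = 0 → ψ x = 0) :
    (A.map ψ).rank ≤ (A.map φ).rank := by
  obtain ⟨a, b, h1⟩ := exists_minor (A.map ψ)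
  refine rank_ge _ a b ?_
  have e1 : (A.map ψ).submatrix a b = ψ.mapMatrix (A.submatrix a b) := rfl
  have e2 : (A.map φ).submatrix a b = φ.mapMatrix (A.submatrix a b) := rfl
  rw [e1, ← RingHom.map_det] at h1
  rw [e2, ← RingHom.map_det]
  intro h2
  exact h1 (h _ h2)

theorem finrank_solQ_le {κ ι J : Type} [Fintype κ] [Fintype ι] [Fintype J] (c : κ → ι → J → ℤ) {Q : Type} [Group Q]
    [Fintype Q] (s : J → Q) (k : Type) [Field k] :
    Module.finrank ℂ (SolQ (Q := Q) ℂ c s) ≤ Module.finrank k (SolQ (Q := Q) k c s) := by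
  have h1 := finrank_solQ (K := ℂ) c s
  have h2 := finrank_solQ (K := k) c s
  have h3 := rank_le_of_ker (mat c s) (Int.castRingHom k) (Int.castRingHom ℂ) (fun x hx => by
    have h4 : (x : ℂ) = 0 := hx
    have h5 : x = 0 := by exact_mod_cast h4
    rw [h5, map_zero])
  omega

end Re
end Singer
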