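import Pool.Agent.Singer.Real.NilOp
import Pool.Agent.Singer.Real.CyP
import Pool.Agent.Singer.Real.RankP
import Pool.Agent.Singer.Ord.PolyA

/-!
# Singer/Real: the linear system of the cycles, and its ranks
-/

set_option autoImplicit false
set_option linter.unusedSectionVars false
set_option linter.unusedVariables false

namespace Singer
namespace Re
namespace Nil

open scoped symmDiff
open Singer.Ord

section sys
variable {V : Type} [Fintype V] [DecidableEq V] {D : Type} [Fintype D] [DecidableEq D]

/-- equations -/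
abbrev KI (V D : Type) : Type := Option (Option V) × Finset V × Finset V × D

/-- unknowns -/
abbrev CI (V D : Type) : Type := Finset V × Finset V × D

open Classical in
/-- the equations of the cycles -/
noncomputable def LLf {R : Type} [CommRing R] (G : SimpleGraph V) (i : ℕ) (E : V → Matrix D D R) (χ : V → ℤˣ)
    (α β : R) (z : CI V D → R) : KI V D → R
  | (none, S, A, d) => if ¬ (G.IsClique S ∧ S.card = i) then z (S, A, d) else 0
  | (some none, S, A, d) => ∑ v ∈ Sᶜ, (sgz rk v S : R) * z (insert v S, A, d)
  | (some (some v), S, A, d) => if v ∈ S then β * (z (S, A, d) + (((χ v : ℤˣ) : ℤ) : R) * ((eps v A : R) * z (S, A, d))) +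
      α * ((((χ v : ℤˣ) : ℤ) : R) * ∑ d', E v d d' * z (S, A ∆ {v}, d')) else 0

/-- the same as a linear map -/
noncomputable def LL {R : Type} [CommRing R] (G : SimpleGraph V) (i : ℕ) (E : V → Matrix D D R) (χ : V → ℤˣ)
    (α β : R) : (CI V D → R) →ₗ[R] (KI V D → R) where
  toFun z := LLf G i E χ α β z
  map_add' z w := by
    funext κ
    obtain ⟨_ | _ | v, S, A, d⟩ := κ
    · simp only [LLf, Pi.add_apply]
      split_ifs <;> simp
    · simp only [LLf, Pi.add_apply, mul_add, Finset.sum_add_distrib]
    · simp only [LLf, Pi.add_apply, mul_add, Finset.sum_add_distrib]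
      split_ifs
      · ring
      · simp
  map_smul' a z := by
    funext κ
    obtain ⟨_ | _ | v, S, A, d⟩ := κ
    · simp only [LLf, Pi.smul_apply, smul_eq_mul, RingHom.id_apply]
      split_ifs <;> simp
    · simp only [LLf, Pi.smul_apply, smul_eq_mul, RingHom.id_apply, Finset.mul_sum]
      exact Finset.sum_congr rfl fun v _ => by ring
    · simp only [LLf, Pi.smul_apply, smul_eq_mul, RingHom.id_apply]
      split_ifs
      · have h : ∑ d', E v d d' * (a * z (S, A ∆ {v}, d')) = a * ∑ d', E v d d' * z (S, A ∆ {v}, d') := by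
          rw [Finset.mul_sum]
          exact Finset.sum_congr rfl fun d' _ => by ring
        rw [h]
        ring
      · simp

theorem LL_apply {R : Type} [CommRing R] (G : SimpleGraph V) (i : ℕ) (E : V → Matrix D D R) (χ : V → ℤˣ)
    (α β : R) (z : CI V D → R) : LL G i E χ α β z = LLf G i E χ α β z := rfl

theorem LL_nat {R R' : Type} [CommRing R] [CommRing R'] (φ : R →+* R') (G : SimpleGraph V) (i : ℕ)
    (E : V → Matrix D D R) (χ : V → ℤˣ) (α β : R) (z : CI V D → R) (κ : KI V D) :
    φ (LL G i E χ α β z κ) = LL G i (fun v => (E v).map φ) χ (φ α) (φ β) (fun j => φ (z j)) κ := by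
  rw [LL_apply, LL_apply]
  obtain ⟨_ | _ | v, S, A, d⟩ := κ
  · simp only [LLf]
    split_ifs <;> simp
  · simp only [LLf, map_sum, map_mul, map_intCast]
  · simp only [LLf]
    split_ifs
    · simp only [map_add, map_mul, map_sum, map_intCast, Matrix.map_apply]
    · simp

/-- the matrix of the system -/
noncomputable def MM {R : Type} [CommRing R] (G : SimpleGraph V) (i : ℕ) (E : V → Matrix D D R) (χ : V → ℤˣ)
    (α β : R) : Matrix (KI V D) (CI V D) R := LinearMap.toMatrix' (LL G i E χ α β)

theorem MM_map {R R' : Type} [CommRing R] [CommRing R'] (φ : R →+* R') (G : SimpleGraph V) (i : ℕ)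
    (E : V → Matrix D D R) (χ : V → ℤˣ) (α β : R) :
    (MM G i E χ α β).map φ = MM G i (fun v => (E v).map φ) χ (φ α) (φ β) := by
  ext κ j
  rw [Matrix.map_apply, MM, MM, LinearMap.toMatrix'_apply, LinearMap.toMatrix'_apply, LL_nat]
  have h : (fun j' => φ ((Pi.single j (1 : R) : CI V D → R) j')) = Pi.single j (1 : R') := by
    funext j'
    rw [Pi.single_apply, Pi.single_apply]
    split_ifs <;> simp
  rw [h]

theorem MM_sum {R : Type} [CommRing R] (G : SimpleGraph V) (i : ℕ) (E : V → Matrix D D R) (χ : V → ℤˣ)
    (α β : R) (z : CI V D → R) (κ : KI V D) : ∑ j, MM G i E χ α β κ j * z j = LL G i E χ α β z κ := by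
  have h : (MM G i E χ α β).mulVec z = LL G i E χ α β z := by
    rw [MM, ← Matrix.toLin'_apply, Matrix.toLin'_toMatrix']
  rw [← h]
  rfl

theorem ker_MM {R : Type} [CommRing R] (G : SimpleGraph V) (i : ℕ) (E : V → Matrix D D R) (χ : V → ℤˣ)
    (α β : R) : LinearMap.ker (MM G i E χ α β).mulVecLin = LinearMap.ker (LL G i E χ α β) := by
  congr 1
  rw [MM]
  exact Matrix.toLin'_toMatrix' _

theorem rank_MM {K : Type} [Field K] (G : SimpleGraph V) (i : ℕ) (E : V → Matrix D D K) (χ : V → ℤˣ)
    (α β : K) : (MM G i E χ α β).rank + Module.finrank K (LinearMap.ker (LL G i E χ α β)) =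
      Fintype.card (CI V D) := by
  rw [← ker_MM]
  have h := LinearMap.finrank_range_add_finrank_ker (MM G i E χ α β).mulVecLin
  rw [Module.finrank_fintype_fun_eq_card] at h
  exact h

/-- (a) the nullity at infinity -/
theorem nullity_inf {k : Type} [Field k] (G : SimpleGraph V) (i : ℕ) (E : V → Matrix D D k) (χ : V → ℤˣ) :
    Module.finrank k (LinearMap.ker (LL G i E χ 1 0)) ≤
      2 ^ Fintype.card V * Module.finrank k (ZT G (fun v => Matrix.toLin' (E v)) i) := by
  let Φ : LinearMap.ker (LL G i E χ (1 : k) 0) →ₗ[k] (Finset V → ZT G (fun v => Matrix.toLin' (E v)) i) :=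
    { toFun := fun z A => ⟨fun S d => z.1 (S, A, d), by
        have hz : ∀ κ, LLf G i E χ (1 : k) 0 z.1 κ = 0 := fun κ => congrFun (LinearMap.mem_ker.mp z.2) κ
        refine ⟨fun S hS => ?_, fun S v hv => ?_, fun S => ?_⟩
        · funext d
          have h := hz (none, S, A, d)
          simp only [LLf] at h
          rw [if_pos hS] at h
          exact h
        · funext d
          have h := hz (some (some v), S, A ∆ {v}, d)
          simp only [LLf] at h
          rw [if_pos hv, symm_symm] at h
          simp only [zero_mul, zero_add, one_mul] at h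
          have h2 : (((χ v : ℤˣ) : ℤ) : k) * (((χ v : ℤˣ) : ℤ) : k) = 1 := by
            rw [← Int.cast_mul, ← Units.val_mul, Int.units_mul_self]
            simp
          have h3 : ∑ d', E v d d' * z.1 (S, A, d') = 0 := by
            calc ∑ d', E v d d' * z.1 (S, A, d') = ((((χ v : ℤˣ) : ℤ) : k) * (((χ v : ℤˣ) : ℤ) : k)) *
                ∑ d', E v d d' * z.1 (S, A, d') := by rw [h2, one_mul]
              _ = 0 := by rw [mul_assoc, h, mul_zero]
          rw [Matrix.toLin'_apply]
          exact h3
        · funext d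
          have h := hz (some none, S, A, d)
          simp only [LLf] at h
          rw [Finset.sum_apply]
          simp only [Pi.smul_apply, zsmul_eq_mul, Pi.zero_apply]
          exact h⟩
      map_add' := fun z w => rfl
      map_smul' := fun a z => rfl }
  have hΦ : Function.Injective Φ := by
    intro z w h
    apply Subtype.ext
    funext ⟨S, A, d⟩
    exact congrFun (congrFun (congrArg Subtype.val (congrFun h A)) S) d
  refine (LinearMap.finrank_le_finrank_of_injective hΦ).trans ?_
  rw [Module.finrank_pi_fintype, Finset.sum_const, Finset.card_univ, Fintype.card_finset, smul_eq_mul]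

/-- (b) scaling -/
theorem nullity_scale {K : Type} [Field K] (G : SimpleGraph V) (i : ℕ) (E : V → Matrix D D K) (χ : V → ℤˣ) (x : K)
    (hx : x ≠ 0) : LinearMap.ker (LL G i E χ x 1) = LinearMap.ker (LL G i E χ 1 x⁻¹) := by
  ext z
  rw [LinearMap.mem_ker, LinearMap.mem_ker, LL_apply, LL_apply, funext_iff, funext_iff]
  refine forall_congr' fun κ => ?_
  obtain ⟨_ | _ | v, S, A, d⟩ := κ
  · rfl
  · rfl
  · simp only [LLf, Pi.zero_apply]
    split_ifs
    · set a := z (S, A, d) + (((χ v : ℤˣ) : ℤ) : K) * ((eps v A : K) * z (S, A, d))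
      set b := (((χ v : ℤˣ) : ℤ) : K) * ∑ d', E v d d' * z (S, A ∆ {v}, d')
      have h : x⁻¹ * a + 1 * b = x⁻¹ * (1 * a + x * b) := by
        field_simp
      rw [h]
      constructor
      · intro h2
        rw [h2, mul_zero]
      · intro h2
        rcases mul_eq_zero.mp h2 with h3 | h3
        · exact absurd h3 (inv_ne_zero hx)
        · exact h3
    · rfl

/-- (c), (d) the generic nullity -/
theorem nullity_gen {k : Type} [Field k] {K : Type} [Field K] [Algebra k K] (G : SimpleGraph V) (i : ℕ)
    (E : V → Matrix D D k) (χ : V → ℤˣ) (x : K) (hx : Transcendental k x) :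
    Module.finrank K (LinearMap.ker (LL G i (fun v => (E v).map (algebraMap k K)) χ x 1)) ≤
      2 ^ Fintype.card V * Module.finrank k (ZT G (fun v => Matrix.toLin' (E v)) i) := by
  have hx0 : x ≠ 0 := by
    rintro rfl
    exact hx isAlgebraic_zero
  have hxi : Transcendental k x⁻¹ := by
    intro h
    exact hx (IsAlgebraic.inv_iff.mp h)
  rw [nullity_scale _ _ _ _ _ hx0]
  refine le_trans ?_ (nullity_inf G i E χ)
  have h1 := rank_MM G i (fun v => (E v).map (algebraMap k K)) χ 1 x⁻¹
  have h2 := rank_MM G i E χ 1 0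
  set A : Matrix (KI V D) (CI V D) (Polynomial k) := MM G i (fun v => (E v).map Polynomial.C) χ 1 Polynomial.X with hA
  have h3 := rank_le_of_ker A (Polynomial.evalRingHom 0) (Polynomial.aeval x⁻¹ : Polynomial k →ₐ[k] K).toRingHom
    (fun q hq => by
      have hq' : Polynomial.aeval x⁻¹ q = 0 := hq
      have hq0 : q = 0 := (transcendental_iff.mp hxi) q hq'
      rw [hq0, map_zero])
  rw [hA, MM_map, MM_map] at h3
  have e1 : (fun v => ((E v).map Polynomial.C).map (Polynomial.evalRingHom (0 : k))) = E := by
    funext v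
    ext a b
    simp
  have e2 : (fun v => ((E v).map Polynomial.C).map (Polynomial.aeval x⁻¹ : Polynomial k →ₐ[k] K).toRingHom) =
      fun v => (E v).map (algebraMap k K) := by
    funext v
    ext a b
    simp
  have e3 : (Polynomial.evalRingHom (0 : k)) Polynomial.X = 0 := by simp
  have e4 : (Polynomial.aeval x⁻¹ : Polynomial k →ₐ[k] K).toRingHom Polynomial.X = x⁻¹ := by simp
  rw [map_one, map_one, e3, e4, e1, e2] at h3
  omega

end sys

end Nil
end Re
end Singer
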