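import Mathlib.Analysis.Matrix.Spectrum
import Mathlib.Analysis.InnerProductSpace.PiL2

/-! # A symmetric matrix with at most `n` negative eigenvalues is a difference of two Gram matrices -/

set_option autoImplicit false

namespace Singer
namespace Re

open Matrix

theorem exists_vectors {V : Type*} [Fintype V] [DecidableEq V] (T : Matrix V V ℝ) (hT : T.IsHermitian) (n : ℕ)
    (hn : (Finset.univ.filter fun i => hT.eigenvalues i < 0).card ≤ n) :
    ∃ (p : ℕ) (f : V → EuclideanSpace ℝ (Fin p)) (c : V → EuclideanSpace ℝ (Fin n)),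
      ∀ u v, T u v = inner ℝ (f u) (f v) - inner ℝ (c u) (c v) := by
  classical
  set N : Finset V := Finset.univ.filter fun i => hT.eigenvalues i < 0 with hN
  obtain ⟨j⟩ : Nonempty ({i // i ∈ N} ↪ Fin n) := by
    rw [Function.Embedding.nonempty_iff_card_le, Fintype.card_fin, Fintype.card_coe]
    exact hn
  let e : V ≃ Fin (Fintype.card V) := Fintype.equivFin V
  let U : Matrix V V ℝ := (hT.eigenvectorUnitary : Matrix V V ℝ)
  have key : ∀ u v, T u v = ∑ i, hT.eigenvalues i * (U u i * U v i) := by
    intro u v
    have h := hT.spectral_theorem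
    have h2 : T = U * diagonal hT.eigenvalues * U.transpose := by
      conv_lhs => rw [h]
      rw [Unitary.conjStarAlgAut_apply]
      rfl
    conv_lhs => rw [h2]
    rw [mul_apply]
    refine Finset.sum_congr rfl fun i _ => ?_
    rw [mul_diagonal, transpose_apply]
    ring
  refine ⟨Fintype.card V, fun v => WithLp.toLp 2 fun k => Real.sqrt (hT.eigenvalues (e.symm k)) * U v (e.symm k),
    fun v => WithLp.toLp 2 fun k => ∑ i : {i // i ∈ N}, if j i = k then Real.sqrt (-hT.eigenvalues i) * U v i else 0, ?_⟩
  intro u v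
  rw [key, PiLp.inner_apply, PiLp.inner_apply]
  have h1 : ∑ i : Fin (Fintype.card V), inner ℝ (Real.sqrt (hT.eigenvalues (e.symm i)) * U u (e.symm i))
      (Real.sqrt (hT.eigenvalues (e.symm i)) * U v (e.symm i)) = ∑ i, max (hT.eigenvalues i) 0 * (U u i * U v i) := by
    rw [← Equiv.sum_comp e]
    refine Finset.sum_congr rfl fun i _ => ?_
    rw [Equiv.symm_apply_apply]
    have : max (hT.eigenvalues i) 0 = Real.sqrt (hT.eigenvalues i) * Real.sqrt (hT.eigenvalues i) := by
      rcases le_total 0 (hT.eigenvalues i) with h | h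
      · rw [Real.mul_self_sqrt h, max_eq_left h]
      · rw [Real.sqrt_eq_zero_of_nonpos h, max_eq_right h, mul_zero]
    rw [this]
    simp [inner]
    ring
  have h2 : ∑ k : Fin n, inner ℝ (∑ i : {i // i ∈ N}, if j i = k then Real.sqrt (-hT.eigenvalues i) * U u i else 0)
      (∑ i : {i // i ∈ N}, if j i = k then Real.sqrt (-hT.eigenvalues i) * U v i else 0) =
      ∑ i, max (-hT.eigenvalues i) 0 * (U u i * U v i) := by
    have h3 : ∀ w : V, ∀ i : {i // i ∈ N}, (∑ i' : {i // i ∈ N}, if j i' = j i then Real.sqrt (-hT.eigenvalues i') * U w i'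
        else 0) = Real.sqrt (-hT.eigenvalues i) * U w i := by
      intro w i
      rw [Finset.sum_eq_single i]
      · rw [if_pos rfl]
      · intro b _ hb
        rw [if_neg fun h => hb (j.injective h)]
      · intro h
        exact absurd (Finset.mem_univ i) h
    have h4 : ∀ k : Fin n, k ∉ Finset.univ.map j → inner ℝ
        (∑ i : {i // i ∈ N}, if j i = k then Real.sqrt (-hT.eigenvalues i) * U u i else 0)
        (∑ i : {i // i ∈ N}, if j i = k then Real.sqrt (-hT.eigenvalues i) * U v i else 0) = 0 := by
      intro k hk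
      rw [Finset.sum_eq_zero (s := Finset.univ) (f := fun i : {i // i ∈ N} =>
        if j i = k then Real.sqrt (-hT.eigenvalues i) * U u i else 0), inner_zero_left]
      intro i _
      rw [if_neg]
      rintro rfl
      exact hk (Finset.mem_map_of_mem j (Finset.mem_univ i))
    rw [← Finset.sum_subset (Finset.subset_univ (Finset.univ.map j)) fun k _ hk => h4 k hk, Finset.sum_map]
    have h5 : ∑ i, max (-hT.eigenvalues i) 0 * (U u i * U v i) =
        ∑ i ∈ N, max (-hT.eigenvalues i) 0 * (U u i * U v i) := by
      symm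
      refine Finset.sum_subset (Finset.subset_univ N) fun i _ hi => ?_
      have : 0 ≤ hT.eigenvalues i := by
        by_contra hc
        exact hi (by rw [hN, Finset.mem_filter]; exact ⟨Finset.mem_univ i, not_le.1 hc⟩)
      rw [max_eq_right (by linarith), zero_mul]
    rw [h5, ← Finset.sum_coe_sort N]
    refine Finset.sum_congr rfl fun i _ => ?_
    rw [h3 u i, h3 v i]
    have h6 : hT.eigenvalues i < 0 := by
      exact (Finset.mem_filter.1 i.2).2
    have h7 : max (-hT.eigenvalues i) 0 = Real.sqrt (-hT.eigenvalues i) * Real.sqrt (-hT.eigenvalues i) := by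
      rw [Real.mul_self_sqrt (by linarith), max_eq_left (by linarith)]
    rw [h7]
    simp [inner]
    ring
  have h8 := h1
  have h9 := h2
  simp only at h8 h9 ⊢
  rw [h8, h9, ← Finset.sum_sub_distrib]
  refine Finset.sum_congr rfl fun i _ => ?_
  have : hT.eigenvalues i = max (hT.eigenvalues i) 0 - max (-hT.eigenvalues i) 0 := by
    rcases le_total 0 (hT.eigenvalues i) with h | h
    · rw [max_eq_left h, max_eq_right (by linarith)]; ring
    · rw [max_eq_right h, max_eq_left (by linarith)]; ring
  rw [← sub_mul, ← this]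

end Re
end Singer
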